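import Pool.Agent.Lib.MP_904b2a_gt.H1.Glue

/-!
# MP_904b2a_gt, module CW: the radius function and the radial expansion of attached cells
-/

open Metric Set Topology
open scoped unitInterval

set_option linter.unusedSectionVars false

namespace Pool.Agent.Lib.MP_904b2a_gt

noncomputable section

/-- The factor `min (1 + t) (1 / ‖x‖)`. -/
def esc {k : ℕ} (t : I) (x : Fin k → ℝ) : ℝ := min (1 + t) (1 / max ‖x‖ (1 / 2))

section

variable {k : ℕ}

theorem esc_pos (t : I) (x : Fin k → ℝ) : 0 < esc t x := by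
  have h1 : (1 / 2 : ℝ) ≤ max ‖x‖ (1 / 2) := le_max_right _ _
  have h2 := t.2.1
  exact lt_min (by linarith) (by positivity)

theorem continuous_esc : Continuous fun p : I × (Fin k → ℝ) => esc p.1 p.2 := by
  unfold esc
  refine (continuous_const.add (continuous_subtype_val.comp continuous_fst)).min
    (continuous_const.div ((continuous_norm.comp continuous_snd).max continuous_const) ?_)
  intro p
  have h1 : (1 / 2 : ℝ) ≤ max ‖p.2‖ (1 / 2) := le_max_right _ _
  positivity

theorem esc_mul_norm (t : I) {x : Fin k → ℝ} (_ : ‖x‖ ≤ 1) :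
    esc t x * ‖x‖ = min ((1 + t) * ‖x‖) 1 := by
  have h2 := t.2.1
  have h3 := t.2.2
  rcases le_total ‖x‖ (1 / 2) with h | h
  · have h5 : (1 + (t : ℝ)) * ‖x‖ ≤ 1 := by nlinarith [norm_nonneg x]
    rw [esc, max_eq_right h, min_eq_left (by linarith), min_eq_left h5]
  · rw [esc, max_eq_left h]
    have h4 : 0 < ‖x‖ := by linarith
    rw [min_mul_of_nonneg _ _ h4.le, one_div_mul_cancel h4.ne']

theorem esc_of_norm (t : I) {x : Fin k → ℝ} (hx : ‖x‖ = 1) : esc t x = 1 := by
  have h := esc_mul_norm t hx.le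
  have h2 := t.2.1
  rwa [hx, mul_one, mul_one, min_eq_right (by linarith)] at h

theorem esc_zero {x : Fin k → ℝ} (hx : ‖x‖ ≤ 1) : esc 0 x = 1 := by
  have h1 : (1 : ℝ) ≤ 1 / max ‖x‖ (1 / 2) := by
    rw [le_div_iff₀ (by positivity), one_mul]
    exact max_le hx (by norm_num)
  rw [esc]
  simpa using h1

/-- The radial expansion of the ball: `x ↦ min (1 + t) (1 / ‖x‖) x`. -/
def exb (k : ℕ) : C(I × CB k, CB k) :=
  ⟨fun p => ⟨esc p.1 p.2.1 • p.2.1, by
    have hx : ‖p.2.1‖ ≤ 1 := mem_closedBall_zero_iff.1 p.2.2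
    rw [mem_closedBall_zero_iff, norm_smul, Real.norm_of_nonneg (esc_pos _ _).le,
      esc_mul_norm _ hx]
    exact min_le_right _ _⟩,
    Continuous.subtype_mk ((continuous_esc.comp (continuous_fst.prodMk
      (continuous_subtype_val.comp continuous_snd))).smul
        (continuous_subtype_val.comp continuous_snd)) _⟩

theorem exb_val (t : I) (x : CB k) : (exb k (t, x)).1 = esc t x.1 • x.1 := rfl

theorem norm_exb (t : I) (x : CB k) : ‖(exb k (t, x)).1‖ = min ((1 + t) * ‖x.1‖) 1 := by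
  rw [exb_val, norm_smul, Real.norm_of_nonneg (esc_pos _ _).le,
    esc_mul_norm _ (mem_closedBall_zero_iff.1 x.2)]

theorem exb_zero (x : CB k) : exb k (0, x) = x := by
  refine Subtype.ext ?_
  rw [exb_val, esc_zero (mem_closedBall_zero_iff.1 x.2), one_smul]

theorem exb_of_norm (t : I) {x : CB k} (hx : ‖x.1‖ = 1) : exb k (t, x) = x := by
  refine Subtype.ext ?_
  rw [exb_val, esc_of_norm t hx, one_smul]

end

namespace CellAttach

variable {k : ℕ} {Z' : Type} [TopologicalSpace Z'] {Z : Set Z'} {ι : Type}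
  (c : CellAttach k Z' Z ι)

/-- The radius: `1` on `Z` and the norm on the cells. -/
def rho : C(Z', ℝ) :=
  ⟨c.glueFun (fun _ => 1) fun _ x => ‖x.1‖,
    c.continuous_glueFun continuous_const (fun _ => continuous_norm.comp continuous_subtype_val)
      fun _ _ hx => hx⟩

theorem rho_of_mem {z : Z'} (hz : z ∈ Z) : c.rho z = 1 :=
  c.glueFun_of_mem (fun _ => (1 : ℝ)) (fun _ x => ‖x.1‖) hz

theorem rho_χ (τ : ι) (x : CB k) : c.rho (c.χ τ x) = ‖x.1‖ :=
  c.glueFun_χ (f := fun _ => (1 : ℝ)) (g := fun _ x => ‖x.1‖) (fun _ _ hx => hx) τ x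

theorem rho_nonneg (z : Z') : 0 ≤ c.rho z := by
  rcases c.cover z with h | ⟨τ, x, _, rfl⟩
  · rw [c.rho_of_mem h]; exact zero_le_one
  · rw [c.rho_χ]; exact norm_nonneg _

theorem rho_le_one (z : Z') : c.rho z ≤ 1 := by
  rcases c.cover z with h | ⟨τ, x, hx, rfl⟩
  · rw [c.rho_of_mem h]
  · rw [c.rho_χ]; exact hx.le

theorem rho_eq_one_iff {z : Z'} : c.rho z = 1 ↔ z ∈ Z := by
  refine ⟨fun h => ?_, c.rho_of_mem⟩
  rcases c.cover z with h1 | ⟨τ, x, hx, rfl⟩
  · exact h1
  · rw [c.rho_χ] at h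
    exact absurd h hx.ne

theorem rho_lt_one_iff {z : Z'} : c.rho z < 1 ↔ z ∉ Z := by
  rw [← c.rho_eq_one_iff]
  exact ⟨fun h => h.ne, fun h => lt_of_le_of_ne (c.rho_le_one z) h⟩

/-- The paths of the radial expansion on the cells. -/
def cellPath (τ : ι) : C(CB k, C(I, Z')) :=
  ContinuousMap.curry ((c.χ τ).comp ((exb k).comp ContinuousMap.prodSwap))

theorem cellPath_apply (τ : ι) (x : CB k) (t : I) : c.cellPath τ x t = c.χ τ (exb k (t, x)) :=
  rfl

theorem cellPath_of_norm (τ : ι) (x : CB k) (hx : ‖x.1‖ = 1) :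
    c.cellPath τ x = ContinuousMap.const I (c.χ τ x) := by
  ext t
  rw [cellPath_apply, exb_of_norm t hx, ContinuousMap.const_apply]

/-- The paths of the radial expansion. -/
def expandPath : C(Z', C(I, Z')) :=
  ⟨c.glueFun (fun z => ContinuousMap.const I (z : Z')) fun τ x => c.cellPath τ x,
    c.continuous_glueFun
      (ContinuousMap.continuous_const'.comp continuous_subtype_val)
      (fun τ => (c.cellPath τ).continuous) c.cellPath_of_norm⟩

theorem expandPath_of_mem {z : Z'} (hz : z ∈ Z) : c.expandPath z = ContinuousMap.const I z :=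
  c.glueFun_of_mem (fun z => ContinuousMap.const I (z : Z')) (fun τ x => c.cellPath τ x) hz

theorem expandPath_χ (τ : ι) (x : CB k) : c.expandPath (c.χ τ x) = c.cellPath τ x :=
  c.glueFun_χ (f := fun z => ContinuousMap.const I (z : Z')) (g := fun τ x => c.cellPath τ x)
    c.cellPath_of_norm τ x

/-- The radial expansion. -/
def expand : C(I × Z', Z') :=
  ⟨fun p => c.expandPath p.2 p.1,
    (continuous_eval (F := C(I, Z')) (X := I) (Y := Z')).comp
      ((c.expandPath.continuous.comp continuous_snd).prodMk continuous_fst)⟩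

theorem expand_of_mem (t : I) {z : Z'} (hz : z ∈ Z) : c.expand (t, z) = z := by
  change c.expandPath z t = z
  rw [c.expandPath_of_mem hz]
  rfl

theorem expand_χ (t : I) (τ : ι) (x : CB k) :
    c.expand (t, c.χ τ x) = c.χ τ (exb k (t, x)) := by
  change c.expandPath (c.χ τ x) t = _
  rw [c.expandPath_χ]
  rfl

theorem expand_zero (z : Z') : c.expand (0, z) = z := by
  rcases c.cover z with h | ⟨τ, x, _, rfl⟩
  · exact c.expand_of_mem 0 h
  · rw [c.expand_χ, exb_zero]

theorem rho_expand (t : I) (z : Z') : c.rho (c.expand (t, z)) = min ((1 + t) * c.rho z) 1 := by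
  rcases c.cover z with h | ⟨τ, x, _, rfl⟩
  · rw [c.expand_of_mem t h, c.rho_of_mem h, mul_one, min_eq_right]
    have := t.2.1
    linarith
  · rw [c.expand_χ, c.rho_χ, c.rho_χ, norm_exb]

/-- At time `1` the collar `{ρ ≥ 1/2}` is mapped to `Z`. -/
theorem expand_one_mem {z : Z'} (hz : 1 / 2 ≤ c.rho z) : c.expand (1, z) ∈ Z := by
  rw [← c.rho_eq_one_iff, c.rho_expand, min_eq_right]
  norm_num
  linarith

/-- The expansion increases the radius. -/
theorem rho_le_rho_expand (t : I) (z : Z') : c.rho z ≤ c.rho (c.expand (t, z)) := by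
  rw [c.rho_expand]
  refine le_min ?_ (c.rho_le_one z)
  have := t.2.1
  have h2 := c.rho_nonneg z
  nlinarith

/-- The open cells, as a map from a disjoint union of open balls. -/
def cells (p : Σ _ : ι, ball (0 : Fin k → ℝ) 1) : Z' :=
  c.χ p.1 ⟨p.2.1, ball_subset_closedBall p.2.2⟩

theorem range_cells : range c.cells = Zᶜ := by
  ext z
  constructor
  · rintro ⟨⟨τ, x⟩, rfl⟩
    exact c.int τ _ (mem_ball_zero_iff.1 x.2)
  · intro hz
    rcases c.cover z with h | ⟨τ, x, hx, rfl⟩
    · exact absurd h hz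
    · exact ⟨⟨τ, ⟨x.1, mem_ball_zero_iff.2 hx⟩⟩, rfl⟩

theorem cells_injective : Function.Injective c.cells := by
  rintro ⟨τ, x⟩ ⟨τ', y⟩ h
  obtain ⟨h1, h2⟩ := c.inj τ τ' _ _ (mem_ball_zero_iff.1 x.2) (mem_ball_zero_iff.1 y.2) h
  subst h1
  have h3 : x = y := Subtype.ext (congrArg (fun z : CB k => z.1) h2)
  rw [h3]

theorem continuous_cells : Continuous c.cells :=
  continuous_sigma fun τ => (c.χ τ).continuous.comp
    (Continuous.subtype_mk continuous_subtype_val _)

theorem cells_eq_χ {τ τ' : ι} {y : ball (0 : Fin k → ℝ) 1} {x : CB k}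
    (h : c.cells ⟨τ, y⟩ = c.χ τ' x) : τ = τ' ∧ y.1 = x.1 := by
  have hy : ‖y.1‖ < 1 := mem_ball_zero_iff.1 y.2
  rcases (mem_closedBall_zero_iff.1 x.2).lt_or_eq with hx | hx
  · obtain ⟨h1, h2⟩ := c.inj τ τ' _ _ hy hx h
    exact ⟨h1, congrArg (fun z : CB k => z.1) h2⟩
  · exact absurd (h.symm ▸ c.bdry τ' x hx) (c.int τ _ hy)

theorem isOpenMap_cells : IsOpenMap c.cells := by
  rw [isOpenMap_sigma]
  intro τ U hU
  rw [← isClosed_compl_iff]
  refine c.closed_of _ ?_ fun τ' => ?_
  · have h1 : ((fun a => c.cells ⟨τ, a⟩) '' U)ᶜ ∩ Z = Z := by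
      refine inter_eq_right.2 fun z hz => ?_
      rintro ⟨x, _, rfl⟩
      exact c.int τ _ (mem_ball_zero_iff.1 x.2) hz
    rw [h1]
    exact c.isClosed
  · obtain ⟨V, hV, rfl⟩ := isOpen_induced_iff.1 hU
    by_cases hσ : τ' = τ
    · subst hσ
      have h1 : c.χ τ' ⁻¹' ((fun a => c.cells ⟨τ', a⟩) '' (Subtype.val ⁻¹' V))ᶜ
          = ((fun x : CB k => x.1) ⁻¹' (V ∩ ball 0 1))ᶜ := by
        ext x
        refine not_congr ⟨?_, ?_⟩
        · rintro ⟨y, hy, h⟩
          rw [mem_preimage, ← (c.cells_eq_χ h).2]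
          exact ⟨hy, y.2⟩
        · rintro ⟨h1, h2⟩
          exact ⟨⟨x.1, h2⟩, h1, rfl⟩
      rw [h1, isClosed_compl_iff]
      exact (hV.inter isOpen_ball).preimage continuous_subtype_val
    · have h1 : c.χ τ' ⁻¹' ((fun a => c.cells ⟨τ, a⟩) '' (Subtype.val ⁻¹' V))ᶜ = univ := by
        refine eq_univ_of_forall fun x => ?_
        rintro ⟨y, _, h⟩
        exact hσ (c.cells_eq_χ h).1.symm
      rw [h1]
      exact isClosed_univ

/-- The open cells are open in `Z'`, and `Z'` without `Z` is the disjoint union of open balls. -/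
theorem isOpenEmbedding_cells : IsOpenEmbedding c.cells :=
  .of_continuous_injective_isOpenMap c.continuous_cells c.cells_injective c.isOpenMap_cells

end CellAttach

end

end Pool.Agent.Lib.MP_904b2a_gt
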