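import Pool.Agent.Lib.MP_904b2a_gt.Interfaces2
import Pool.Agent.Lib.MP_904b2a_gt.H1.Expand

/-!
# MP_904b2a_gt: relative cohomology of cell attachments (S4)

For `c : CellAttach k Z' Z ι`: `H^n(Z', Z; A) = ∏_τ H^n(D^k, S^{k-1}; A)` through the
characteristic maps.
-/

open scoped BigOperators
open Finset Set Metric Topology

namespace Pool.Agent.Lib.MP_904b2a_gt

noncomputable section

variable {A : Type*} [AddCommGroup A]

/-! ### Generalities on `HR.pb` -/

section Gen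

variable {X Y Z : Type*} [TopologicalSpace X] [TopologicalSpace Y] [TopologicalSpace Z]

theorem HR.pb_congr {n : ℕ} {f g : C(X, Y)} (hfg : f = g) {S : Set X} {T : Set Y}
    (hf : MapsTo f S T) (hg : MapsTo g S T) (u : HR n T A) : HR.pb f hf u = HR.pb g hg u := by
  subst hfg
  rfl

/-- A homeomorphism of pairs induces a bijection. -/
theorem HR.pb_bijective_of_homeomorph {n : ℕ} (e : X ≃ₜ Y) {S : Set X} {T : Set Y}
    (h : MapsTo (e : C(X, Y)) S T) (h' : MapsTo (e.symm : C(Y, X)) T S) :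
    Function.Bijective (HR.pb (n := n) (A := A) (e : C(X, Y)) h) := by
  refine Function.bijective_iff_has_inverse.mpr ⟨HR.pb (e.symm : C(Y, X)) h', fun u => ?_,
    fun u => ?_⟩
  · rw [HR.pb_comp]
    refine (HR.pb_congr ?_ _ (mapsTo_id T) u).trans (HR.pb_id u)
    ext x
    simp
  · rw [HR.pb_comp]
    refine (HR.pb_congr ?_ _ (mapsTo_id S) u).trans (HR.pb_id u)
    ext x
    simp

end Gen

/-! ### Disjoint unions -/

section Sigma

variable {ι : Type*} {Y : ι → Type*} [∀ τ, TopologicalSpace (Y τ)]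

/-- The inclusion of a summand. -/
abbrev sgm (τ : ι) : C(Y τ, Σ τ, Y τ) := ContinuousMap.sigmaMk τ

theorem sgm_comp_bijective (n : ℕ) :
    Function.Bijective (fun p : Σ τ, C(Simp n, Y τ) => (sgm p.1).comp p.2) := by
  constructor
  · rintro ⟨τ, f⟩ ⟨τ', g⟩ h
    have h' : (sgm τ).comp f = (sgm τ').comp g := h
    have h1 : τ = τ' := congrArg Sigma.fst (DFunLike.congr_fun h' (stdSimplex.vertex 0))
    subst h1
    congr 1
    ext x
    have h2 : (⟨τ, f x⟩ : Σ τ, Y τ) = ⟨τ, g x⟩ := DFunLike.congr_fun h' x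
    exact eq_of_heq (Sigma.mk.inj h2).2
  · intro f
    obtain ⟨τ, g, rfl⟩ := f.exists_lift_sigma
    exact ⟨⟨τ, g⟩, rfl⟩

/-- The simplices of a disjoint union. -/
def sgmEquiv (n : ℕ) : (Σ τ, C(Simp n, Y τ)) ≃ C(Simp n, Σ τ, Y τ) :=
  Equiv.ofBijective _ (sgm_comp_bijective n)

/-- Cochains of a disjoint union. -/
def glueC {n : ℕ} (φ : ∀ τ, Coch n (Y τ) A) : Coch n (Σ τ, Y τ) A :=
  fun σ => φ ((sgmEquiv n).symm σ).1 ((sgmEquiv n).symm σ).2

omit [AddCommGroup A] in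
theorem glueC_apply {n : ℕ} (φ : ∀ τ, Coch n (Y τ) A) (τ : ι) (σ : C(Simp n, Y τ)) :
    glueC φ ((sgm τ).comp σ) = φ τ σ := by
  have : (sgmEquiv n).symm ((sgm τ).comp σ) = ⟨τ, σ⟩ := by
    rw [Equiv.symm_apply_eq]
    rfl
  rw [glueC, this]

theorem pbC_glueC {n : ℕ} (φ : ∀ τ, Coch n (Y τ) A) (τ : ι) :
    pbC n (sgm τ) (glueC φ) = φ τ := by
  funext σ
  exact glueC_apply φ τ σ

theorem coch_ext {n : ℕ} {φ ψ : Coch n (Σ τ, Y τ) A}
    (h : ∀ τ, pbC n (sgm τ) φ = pbC n (sgm τ) ψ) : φ = ψ := by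
  funext σ
  obtain ⟨⟨τ, σ'⟩, rfl⟩ := (sgmEquiv n).surjective σ
  exact congrFun (h τ) σ'

theorem cob_glueC {n : ℕ} (φ : ∀ τ, Coch n (Y τ) A) :
    cob n (glueC φ) = glueC (fun τ => cob n (φ τ)) := by
  refine coch_ext fun τ => ?_
  rw [pbC_glueC, pbC_cob, pbC_glueC]

theorem glueC_mem_relCoch {n : ℕ} {φ : ∀ τ, Coch n (Y τ) A} {S : Set (Σ τ, Y τ)}
    (h : ∀ τ, φ τ ∈ relCoch A ((sgm τ) ⁻¹' S) n) : glueC φ ∈ relCoch A S n := by
  intro σ hσ
  obtain ⟨⟨τ, σ'⟩, rfl⟩ := (sgmEquiv n).surjective σ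
  change glueC φ ((sgm τ).comp σ') = 0
  rw [glueC_apply]
  exact h τ σ' hσ

/-- The relative cohomology of a disjoint union is the product. -/
theorem HR.sigma_bijective {n : ℕ} (S : Set (Σ τ, Y τ)) :
    Function.Bijective (fun (v : HR n S A) (τ : ι) =>
      HR.pb (sgm τ) (S := (sgm τ) ⁻¹' S) (T := S) (mapsTo_preimage _ _) v) := by
  constructor
  · intro v w hvw
    rw [← sub_eq_zero]
    have hu : ∀ τ, HR.pb (sgm τ) (S := (sgm τ) ⁻¹' S) (T := S) (mapsTo_preimage _ _) (v - w) = 0 :=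
      fun τ => by
        rw [map_sub, sub_eq_zero]
        exact congrFun hvw τ
    generalize v - w = u at hu
    obtain ⟨z, rfl⟩ := HR.mk_surjective n u
    refine HR.mk_eq_zero.mpr ?_
    have hu' : ∀ τ, pbC n (sgm τ) z.1 ∈ relCoboundaries A ((sgm τ) ⁻¹' S) n := fun τ =>
      HR.mk_eq_zero.mp (hu τ)
    cases n with
    | zero => exact coch_ext fun τ => hu' τ
    | succ n =>
      choose ψ hψ hz using hu'
      refine ⟨glueC ψ, glueC_mem_relCoch hψ, coch_ext fun τ => ?_⟩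
      rw [cob_glueC, pbC_glueC, hz]
  · intro v
    choose z hz using fun τ => HR.mk_surjective n (v τ)
    have h1 : glueC (fun τ => (z τ).1) ∈ relCocycles A S n := by
      refine mem_relCocycles.mpr ⟨glueC_mem_relCoch (fun τ => (mem_relCocycles.mp (z τ).2).1), ?_⟩
      rw [cob_glueC]
      refine coch_ext fun τ => ?_
      rw [pbC_glueC, map_zero]
      exact (mem_relCocycles.mp (z τ).2).2
    refine ⟨HR.mk n ⟨glueC (fun τ => (z τ).1), h1⟩, ?_⟩
    funext τ
    change HR.pb (sgm τ) (mapsTo_preimage _ _) (HR.mk n ⟨glueC (fun τ => (z τ).1), h1⟩) = v τ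
    rw [← hz τ, HR.pb_mk]
    congr 1
    exact Subtype.ext (pbC_glueC (fun τ => (z τ).1) τ)

end Sigma

/-! ### The neighbourhood of the attaching space -/

namespace CellAttach

variable {k : ℕ} {Z' : Type} [TopologicalSpace Z'] {Z : Set Z'} {ι : Type}

/-- A neighbourhood which deforms into `Z`. -/
def nb (c : CellAttach k Z' Z ι) : Set Z' := {z | 1 / 2 < c.rho z}

theorem isOpen_nb (c : CellAttach k Z' Z ι) : IsOpen c.nb :=
  isOpen_lt continuous_const c.rho.continuous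

theorem subset_nb (c : CellAttach k Z' Z ι) : Z ⊆ c.nb := by
  intro z hz
  change 1 / 2 < c.rho z
  rw [c.rho_of_mem hz]
  norm_num

theorem nb_union (c : CellAttach k Z' Z ι) : c.nb ∪ Zᶜ = univ := by
  rw [eq_univ_iff_forall]
  intro z
  by_cases hz : z ∈ Z
  · exact Or.inl (c.subset_nb hz)
  · exact Or.inr hz

/-- `H^n(N) = H^n(Z)` for the neighbourhood `N`. -/
theorem pb_nb_bijective (c : CellAttach k Z' Z ι) (n : ℕ) :
    Function.Bijective (H.pb (n := n) (A := A) (inclSub c.subset_nb)) := by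
  let g : C(c.nb, Z) := ⟨fun z => ⟨c.expand (1, z.1), c.expand_one_mem (le_of_lt z.2)⟩, by
    fun_prop⟩
  refine H.pb_bijective (g := g) ?_ ?_
  · have : g.comp (inclSub c.subset_nb) = ContinuousMap.id Z := by
      ext z
      exact c.expand_of_mem 1 z.2
    rw [this]
  · refine ContinuousMap.Homotopic.symm ⟨⟨⟨fun p => ⟨c.expand (p.1, p.2.1), ?_⟩, ?_⟩, ?_, ?_⟩⟩
    · exact lt_of_lt_of_le p.2.2 (c.rho_le_rho_expand _ _)
    · fun_prop
    · intro z
      exact Subtype.ext (c.expand_zero z.1)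
    · intro z
      rfl

theorem mapsTo_id_nb (c : CellAttach k Z' Z ι) : MapsTo (ContinuousMap.id Z') Z c.nb :=
  c.subset_nb

theorem hr_nb_bijective (c : CellAttach k Z' Z ι) (n : ℕ) :
    Function.Bijective (HR.pb (n := n) (A := A) (ContinuousMap.id Z') c.mapsTo_id_nb) :=
  HR.pb_id_bijective c.subset_nb (fun n => c.pb_nb_bijective n) n

/-- The complement of `Z` is a disjoint union of open balls. -/
def cellsHomeo (c : CellAttach k Z' Z ι) :
    (Σ _ : ι, ball (0 : Fin k → ℝ) 1) ≃ₜ (Zᶜ : Set Z') :=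
  c.isOpenEmbedding_cells.isEmbedding.toHomeomorph.trans (Homeomorph.setCongr c.range_cells)

theorem cellsHomeo_val (c : CellAttach k Z' Z ι) (p : Σ _ : ι, ball (0 : Fin k → ℝ) 1) :
    ((c.cellsHomeo p : (Zᶜ : Set Z')) : Z') = c.cells p := rfl

/-- The part of the open ball of radius more than one half. -/
def outer (k : ℕ) : Set (ball (0 : Fin k → ℝ) 1) := {y | 1 / 2 < ‖y.1‖}

/-- The characteristic maps on the open balls. -/
def chiB (c : CellAttach k Z' Z ι) (τ : ι) : C(ball (0 : Fin k → ℝ) 1, Z') :=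
  ⟨fun y => c.χ τ ⟨y.1, ball_subset_closedBall y.2⟩, by fun_prop⟩

theorem rho_chiB (c : CellAttach k Z' Z ι) (τ : ι) (y : ball (0 : Fin k → ℝ) 1) :
    c.rho (c.chiB τ y) = ‖y.1‖ := c.rho_χ τ _

theorem mapsTo_chiB (c : CellAttach k Z' Z ι) (τ : ι) : MapsTo (c.chiB τ) (outer k) c.nb := by
  intro y hy
  change 1 / 2 < c.rho (c.chiB τ y)
  rw [c.rho_chiB]
  exact hy

/-- The relative cohomology of `(Z', N)` is a product over the cells. -/
theorem hr_chiB_bijective (c : CellAttach k Z' Z ι) (n : ℕ) :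
    Function.Bijective (fun (v : HR n c.nb A) (τ : ι) =>
      HR.pb (c.chiB τ) (c.mapsTo_chiB τ) v) := by
  have h1 := HR.excision (A := A) (smallC c.isOpen_nb c.isClosed.isOpen_compl c.nb_union) n
  have hm : MapsTo (c.cellsHomeo : C((Σ _ : ι, ball (0 : Fin k → ℝ) 1), (Zᶜ : Set Z')))
      (c.cells ⁻¹' c.nb) ((incl Zᶜ) ⁻¹' c.nb) := fun p hp => hp
  have h2 := HR.pb_bijective_of_homeomorph (n := n) (A := A) c.cellsHomeo hm (fun z hz => by
      change c.cells (c.cellsHomeo.symm z) ∈ c.nb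
      rw [← cellsHomeo_val, Homeomorph.apply_symm_apply]
      exact hz)
  have h3 := HR.sigma_bijective (n := n) (A := A) (c.cells ⁻¹' c.nb)
  have hS : ∀ (τ : ι) (y : ball (0 : Fin k → ℝ) 1),
      y ∈ (sgm (Y := fun _ : ι => ball (0 : Fin k → ℝ) 1) τ) ⁻¹' (c.cells ⁻¹' c.nb) ↔
        y ∈ outer k := by
    intro τ y
    change 1 / 2 < c.rho (c.chiB τ y) ↔ _
    rw [c.rho_chiB]
    rfl
  have h4 : ∀ τ, MapsTo (ContinuousMap.id (ball (0 : Fin k → ℝ) 1)) (outer k)
      ((sgm (Y := fun _ : ι => ball (0 : Fin k → ℝ) 1) τ) ⁻¹' (c.cells ⁻¹' c.nb)) :=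
    fun τ y hy => (hS τ y).mpr hy
  have h5 : ∀ τ, Function.Bijective (HR.pb (n := n) (A := A)
      (ContinuousMap.id (ball (0 : Fin k → ℝ) 1)) (h4 τ)) := fun τ =>
    HR.pb_bijective_of_homeomorph (n := n) (A := A) (Homeomorph.refl _) (h4 τ)
      (fun y hy => (hS τ y).mp hy)
  have h6 : Function.Bijective (fun (v : ∀ τ, HR n ((sgm (Y := fun _ : ι =>
      ball (0 : Fin k → ℝ) 1) τ) ⁻¹' (c.cells ⁻¹' c.nb)) A) (τ : ι) =>
      HR.pb (ContinuousMap.id (ball (0 : Fin k → ℝ) 1)) (h4 τ) (v τ)) := by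
    constructor
    · intro v w h
      funext τ
      exact (h5 τ).1 (congrFun h τ)
    · intro v
      choose w hw using fun τ => (h5 τ).2 (v τ)
      exact ⟨w, funext hw⟩
  have h7 := h6.comp (h3.comp (h2.comp h1))
  convert h7 using 1
  funext v τ
  simp only [Function.comp]
  rw [HR.pb_comp, HR.pb_comp, HR.pb_comp]
  exact HR.pb_congr rfl _ _ v

/-- The ball, with one cell attached to the sphere. -/
def ballAttach (k : ℕ) : CellAttach k (CB k) (bSB k) Unit where
  χ _ := ContinuousMap.id _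
  isClosed := isClosed_eq (by fun_prop) continuous_const
  bdry _ x hx := hx
  int _ x hx := fun h => hx.ne h
  inj _ _ x x' _ _ h := ⟨rfl, h⟩
  cover x := by
    rcases (mem_closedBall_zero_iff.1 x.2).lt_or_eq with h | h
    · exact Or.inr ⟨(), x, h, rfl⟩
    · exact Or.inl h
  closed_of A _ h := h ()

theorem rho_ballAttach (k : ℕ) (x : CB k) : (ballAttach k).rho x = ‖x.1‖ :=
  (ballAttach k).rho_χ () x

theorem mapsTo_χ_nb (c : CellAttach k Z' Z ι) (τ : ι) :
    MapsTo (c.χ τ) (ballAttach k).nb c.nb := by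
  intro x hx
  have hx' : 1 / 2 < (ballAttach k).rho x := hx
  rw [rho_ballAttach] at hx'
  change 1 / 2 < c.rho (c.χ τ x)
  rw [c.rho_χ]
  exact hx'

/-- **The cell attachment theorem**: `H^n(Z', Z; A) = ∏_τ H^n(D^k, S^{k-1}; A)`. -/
theorem hr_bijective (c : CellAttach k Z' Z ι) (n : ℕ) :
    Function.Bijective (fun (v : HR n Z A) (τ : ι) => HR.pb (c.χ τ) (c.mapsTo τ) v) := by
  have h1 := c.hr_nb_bijective (A := A) n
  have h2 := c.hr_chiB_bijective (A := A) n
  have h3 := (ballAttach k).hr_nb_bijective (A := A) n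
  have h4 := (ballAttach k).hr_chiB_bijective (A := A) n
  have h5 : Function.Bijective (HR.pb (n := n) (A := A) ((ballAttach k).chiB ())
      ((ballAttach k).mapsTo_chiB ())) := by
    constructor
    · intro v w h
      exact h4.1 (funext fun _ => h)
    · intro v
      obtain ⟨w, hw⟩ := h4.2 (fun _ => v)
      exact ⟨w, congrFun hw ()⟩
  -- the map from the product over the outer parts to the product over the spheres
  have hc1 : ∀ (v : HR n c.nb A) (τ : ι),
      HR.pb ((ballAttach k).chiB ()) ((ballAttach k).mapsTo_chiB ())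
        (HR.pb (c.χ τ) (c.mapsTo_χ_nb τ) v) = HR.pb (c.chiB τ) (c.mapsTo_chiB τ) v := by
    intro v τ
    rw [HR.pb_comp]
    exact HR.pb_congr rfl _ _ v
  have hc2 : ∀ (v : HR n c.nb A) (τ : ι),
      HR.pb (ContinuousMap.id (CB k)) (ballAttach k).mapsTo_id_nb
        (HR.pb (c.χ τ) (c.mapsTo_χ_nb τ) v) =
      HR.pb (c.χ τ) (c.mapsTo τ) (HR.pb (ContinuousMap.id Z') c.mapsTo_id_nb v) := by
    intro v τ
    rw [HR.pb_comp, HR.pb_comp]
    exact HR.pb_congr rfl _ _ v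
  constructor
  · intro v w h
    obtain ⟨v', rfl⟩ := h1.2 v
    obtain ⟨w', rfl⟩ := h1.2 w
    congr 1
    apply h2.1
    funext τ
    have h6 := congrFun h τ
    dsimp only at h6 ⊢
    rw [← hc2, ← hc2] at h6
    rw [← hc1, ← hc1, h3.1 h6]
  · intro v
    choose w hw using fun τ => h3.2 (v τ)
    obtain ⟨u, hu⟩ := h2.2 (fun τ => HR.pb ((ballAttach k).chiB ())
      ((ballAttach k).mapsTo_chiB ()) (w τ))
    refine ⟨HR.pb (ContinuousMap.id Z') c.mapsTo_id_nb u, ?_⟩
    funext τ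
    have h6 := congrFun hu τ
    dsimp only at h6 ⊢
    rw [← hc1] at h6
    rw [← hc2, h5.1 h6, hw]

end CellAttach

/-- **Module CAT.** -/
theorem catStatement : CatStatement := fun _ _ _ _ _ c _ _ m => c.hr_bijective m

end

end Pool.Agent.Lib.MP_904b2a_gt
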