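import Pool.Agent.Lib.MP_904b2a_gt.H1.RelTop

/-!
# MP_904b2a_gt, module SPH-A, part 3: the singular complex of a sphere is an algebraic sphere
-/

open scoped BigOperators RealInnerProductSpace
open Metric

namespace Pool.Agent.Lib.MP_904b2a_gt.H1

open PSS H41

noncomputable section

variable {E : Type} [NormedAddCommGroup E] [InnerProductSpace ℝ E]

theorem norm_sph (x : sphere (0 : E) 1) : ‖(x : E)‖ = 1 := by
  simp

theorem sph_inner_self (x : sphere (0 : E) 1) : ⟪(x : E), (x : E)⟫ = 1 := by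
  rw [real_inner_self_eq_norm_sq, norm_sph, one_pow]

theorem eq_or_eq_neg_of_smul {x v : sphere (0 : E) 1} {c : ℝ} (h : (x : E) = c • (v : E)) :
    x = v ∨ x = -v := by
  have h1 : |c| = 1 := by
    have := congrArg norm h
    rwa [norm_smul, norm_sph, norm_sph, mul_one, Real.norm_eq_abs, eq_comm] at this
  rcases eq_or_eq_neg_of_abs_eq h1 with h2 | h2
  · left
    apply Subtype.ext
    rw [h, h2, one_smul]
  · right
    apply Subtype.ext
    rw [h, h2, neg_one_smul]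
    rfl

/-! ### The complement of a point -/

/-- The complement of a point is contractible, keeping the base point fixed. -/
theorem relAc_compl {v x₀ : sphere (0 : E) 1} (h : x₀ ≠ v)
    {P : (singP (sphere (0 : E) 1) x₀).Sub}
    (hP : ∀ n (σ : C(Simp n, sphere (0 : E) 1)), P.P n σ ↔ Set.range σ ⊆ {v}ᶜ) :
    RelAc P (bot (singP (sphere (0 : E) 1) x₀)) := by
  set φ := stereographic (norm_sph v) with hφ
  have hs : φ.source = {v}ᶜ := stereographic_source (norm_sph v)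
  have ht : φ.target = Set.univ := stereographic_target (norm_sph v)
  have hcs : Continuous φ.symm := by
    have := φ.continuousOn_symm
    rwa [ht, continuousOn_univ] at this
  have hcφ : Continuous (fun x : ({v}ᶜ : Set (sphere (0 : E) 1)) => φ x.1) := by
    have := φ.continuousOn
    rw [hs] at this
    exact this.domRestrict
  have hmem : ∀ y, φ.symm y ∈ ({v}ᶜ : Set (sphere (0 : E) 1)) := by
    intro y
    rw [← hs]
    exact φ.map_target (by rw [ht]; trivial)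
  have hinv : ∀ x ∈ ({v}ᶜ : Set (sphere (0 : E) 1)), φ.symm (φ x) = x := by
    intro x hx
    exact φ.left_inv (by rw [hs]; exact hx)
  let F : (incl ({v}ᶜ : Set (sphere (0 : E) 1))).Homotopy (ContinuousMap.const _ x₀) :=
    { toFun := fun p => φ.symm ((1 - (p.1 : ℝ)) • φ p.2.1 + (p.1 : ℝ) • φ x₀)
      continuous_toFun := by
        refine hcs.comp ?_
        have h1 : Continuous (fun p : unitInterval × ({v}ᶜ : Set (sphere (0 : E) 1)) =>
            (p.1 : ℝ)) := by fun_prop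
        have h2 : Continuous (fun p : unitInterval × ({v}ᶜ : Set (sphere (0 : E) 1)) =>
            φ p.2.1) := hcφ.comp continuous_snd
        exact ((continuous_const.sub h1).smul h2).add (h1.smul continuous_const)
      map_zero_left := fun x => by
        change φ.symm ((1 - ((0 : unitInterval) : ℝ)) • φ x.1 + ((0 : unitInterval) : ℝ) • φ x₀)
          = x.1
        rw [Set.Icc.coe_zero, sub_zero, one_smul, zero_smul, add_zero]
        exact hinv x.1 x.2
      map_one_left := fun x => by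
        change φ.symm ((1 - ((1 : unitInterval) : ℝ)) • φ x.1 + ((1 : unitInterval) : ℝ) • φ x₀)
          = x₀
        rw [Set.Icc.coe_one, sub_self, one_smul, zero_smul, zero_add]
        exact hinv x₀ h }
  refine relAc_homotopy (A := {x₀}) (B := {v}ᶜ) F ?_ ?_ ?_ hP (fun n σ => bot_iff)
  · intro t x
    exact hmem _
  · intro t x hx
    have hx' : x.1 = x₀ := hx
    change φ.symm ((1 - (t : ℝ)) • φ x.1 + (t : ℝ) • φ x₀) = x₀
    rw [hx', ← add_smul, sub_add_cancel, one_smul]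
    exact hinv x₀ h
  · intro x
    rfl

/-! ### The complement of two antipodal points -/

/-- The equator. -/
def eqt (v : sphere (0 : E) 1) : Set (sphere (0 : E) 1) := {x | ⟪(v : E), (x : E)⟫ = 0}

theorem eqt_ne {v x : sphere (0 : E) 1} (h : x ∈ eqt v) : x ≠ v := by
  rintro rfl
  have h' : ⟪(x : E), (x : E)⟫ = 0 := h
  rw [sph_inner_self] at h'
  exact one_ne_zero h'

theorem eqt_ne_neg {v x : sphere (0 : E) 1} (h : x ∈ eqt v) : x ≠ -v := by
  rintro rfl
  have h' : ⟪(v : E), -(v : E)⟫ = 0 := h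
  rw [inner_neg_right, sph_inner_self] at h'
  norm_num at h'

/-- The vector which is moved towards the equator. -/
def wv (v : sphere (0 : E) 1) (t : ℝ) (x : sphere (0 : E) 1) : E :=
  (x : E) - (t * ⟪(v : E), (x : E)⟫) • (v : E)

theorem wv_smul {v : sphere (0 : E) 1} {t : ℝ} {x : sphere (0 : E) 1} {c : ℝ}
    (h : wv v t x = c • (v : E)) : x = v ∨ x = -v := by
  refine eq_or_eq_neg_of_smul (c := c + t * ⟪(v : E), (x : E)⟫) ?_
  rw [add_smul, ← h, wv, sub_add_cancel]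

theorem wv_ne {v : sphere (0 : E) 1} {t : ℝ} {x : sphere (0 : E) 1} (h1 : x ≠ v)
    (h2 : x ≠ -v) : wv v t x ≠ 0 := by
  intro h
  rcases wv_smul (c := 0) (h.trans (zero_smul ℝ _).symm) with h' | h'
  · exact h1 h'
  · exact h2 h'

theorem norm_normalize {w : E} (h : w ≠ 0) : ‖w‖⁻¹ • w ∈ sphere (0 : E) 1 := by
  rw [mem_sphere_zero_iff_norm, norm_smul, norm_inv, norm_norm,
    inv_mul_cancel₀ (norm_ne_zero_iff.mpr h)]

/-- The complement of two antipodal points can be deformed to the equator. -/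
theorem relAc_two {v x₀ : sphere (0 : E) 1} {P Q : (singP (sphere (0 : E) 1) x₀).Sub}
    (hP : ∀ n (σ : C(Simp n, sphere (0 : E) 1)), P.P n σ ↔ Set.range σ ⊆ {-v}ᶜ ∩ {v}ᶜ)
    (hQ : ∀ n (σ : C(Simp n, sphere (0 : E) 1)), Q.P n σ ↔ Set.range σ ⊆ eqt v) :
    RelAc P Q := by
  have hne : ∀ (t : ℝ) (x : ({-v}ᶜ ∩ {v}ᶜ : Set (sphere (0 : E) 1))), wv v t x.1 ≠ 0 :=
    fun t x => wv_ne x.2.2 x.2.1
  have hwc : Continuous (fun p : unitInterval × ({-v}ᶜ ∩ {v}ᶜ : Set (sphere (0 : E) 1)) =>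
      wv v (p.1 : ℝ) p.2.1) := by
    unfold wv
    fun_prop
  have hc : Continuous (fun p : unitInterval × ({-v}ᶜ ∩ {v}ᶜ : Set (sphere (0 : E) 1)) =>
      (⟨‖wv v (p.1 : ℝ) p.2.1‖⁻¹ • wv v (p.1 : ℝ) p.2.1, norm_normalize (hne _ _)⟩ :
        sphere (0 : E) 1)) := by
    refine Continuous.subtype_mk ?_ _
    exact (hwc.norm.inv₀ (fun p => norm_ne_zero_iff.mpr (hne _ _))).smul hwc
  have hwn : ∀ (t : ℝ) (x : ({-v}ᶜ ∩ {v}ᶜ : Set (sphere (0 : E) 1))), wv v t x.1 = x.1.1 →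
      (⟨‖wv v t x.1‖⁻¹ • wv v t x.1, norm_normalize (hne _ _)⟩ : sphere (0 : E) 1) = x.1 := by
    intro t x h
    apply Subtype.ext
    dsimp only
    rw [h, norm_sph, inv_one, one_smul]
  let F : (incl ({-v}ᶜ ∩ {v}ᶜ : Set (sphere (0 : E) 1))).Homotopy
      ⟨fun x => ⟨‖wv v 1 x.1‖⁻¹ • wv v 1 x.1, norm_normalize (hne _ _)⟩,
        hc.comp (f := fun x : ({-v}ᶜ ∩ {v}ᶜ : Set (sphere (0 : E) 1)) =>
          ((1 : unitInterval), x)) (by fun_prop)⟩ :=
    { toFun := fun p => ⟨‖wv v (p.1 : ℝ) p.2.1‖⁻¹ • wv v (p.1 : ℝ) p.2.1,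
        norm_normalize (hne _ _)⟩
      continuous_toFun := hc
      map_zero_left := fun x => by
        refine hwn _ x ?_
        rw [Set.Icc.coe_zero, wv, zero_mul, zero_smul, sub_zero]
      map_one_left := fun x => rfl }
  refine relAc_homotopy (A := eqt v) (B := {-v}ᶜ ∩ {v}ᶜ) F ?_ ?_ ?_ hP hQ
  · intro t x
    have key : ∀ c : ℝ, ‖wv v (t : ℝ) x.1‖⁻¹ • wv v (t : ℝ) x.1 = c • (v : E) → False := by
      intro c hc'
      have h0 : ‖wv v (t : ℝ) x.1‖ ≠ 0 := norm_ne_zero_iff.mpr (hne _ _)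
      have : wv v (t : ℝ) x.1 = (‖wv v (t : ℝ) x.1‖ * c) • (v : E) := by
        rw [mul_smul, ← hc', smul_smul, mul_inv_cancel₀ h0, one_smul]
      rcases wv_smul this with h' | h'
      · exact x.2.2 h'
      · exact x.2.1 h'
    constructor
    · intro h
      have h' := congrArg Subtype.val (show F (t, x) = -v from h)
      refine key (-1) (h'.trans ?_)
      rw [neg_one_smul]
      rfl
    · intro h
      have h' := congrArg Subtype.val (show F (t, x) = v from h)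
      refine key 1 (h'.trans ?_)
      rw [one_smul]
  · intro t x hx
    have h0 : ⟪(v : E), (x.1 : E)⟫ = 0 := hx
    have : F (t, x) = x.1 := hwn _ x (by rw [wv, h0, mul_zero, zero_smul, sub_zero])
    rw [this]
    exact hx
  · intro x
    change ⟪(v : E), ‖wv v 1 x.1‖⁻¹ • wv v 1 x.1⟫ = 0
    rw [inner_smul_right, wv, one_mul, inner_sub_right, inner_smul_right, sph_inner_self, mul_one,
      sub_self, mul_zero]

/-! ### The induction -/

theorem isOpen_compl_pt (v : sphere (0 : E) 1) : IsOpen ({v}ᶜ : Set (sphere (0 : E) 1)) :=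
  isClosed_singleton.isOpen_compl

theorem ne_neg_self (v : sphere (0 : E) 1) : v ≠ -v := by
  intro h
  have h1 : (v : E) = -(v : E) := congrArg Subtype.val h
  have h2 := sph_inner_self v
  have h3 : ⟪(v : E), (v : E)⟫ = -⟪(v : E), (v : E)⟫ := by
    conv_lhs => rw [h1]
    rw [inner_neg_left]
    congr 1
    rw [← h1]
  linarith

/-- The last steps of the induction. -/
theorem last_steps {N : ℕ} {v x₀ : sphere (0 : E) 1} (h₀ : x₀ ∈ eqt v)
    (h : AS N (sS (x₀ := x₀) {-v}ᶜ (eqt_ne_neg h₀))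
      (sS (x₀ := x₀) ({-v}ᶜ ∩ {v}ᶜ) ⟨eqt_ne_neg h₀, eqt_ne h₀⟩)) :
    AlgSphere N (singP (sphere (0 : E) 1) x₀) := by
  have h1 : AS N (sS2 (x₀ := x₀) {-v}ᶜ {v}ᶜ (eqt_ne_neg h₀))
      (sS (x₀ := x₀) {v}ᶜ (eqt_ne h₀)) := by
    refine AS.exc (V := sS (x₀ := x₀) {v}ᶜ (eqt_ne h₀)) (fun n σ => ?_) (fun n σ => Iff.rfl) h
    exact Set.subset_inter_iff
  have h2 : AS N (sS2 (x₀ := x₀) {-v}ᶜ {v}ᶜ (eqt_ne_neg h₀)) (bot _) :=
    AS.ofQuot (bot_le _) (fun n σ hσ => Or.inr hσ)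
      (relAc_compl (eqt_ne h₀) (fun n σ => Iff.rfl)) h1
  have h3 : AS N (top (singP (sphere (0 : E) 1) x₀)) (bot _) := by
    refine AS.ofSub (bot_le _) (fun _ _ _ => trivial) ?_ h2
    refine relAc_small (isOpen_compl_pt (-v)) (isOpen_compl_pt v) ?_ (fun _ _ => trivial)
      (fun n σ => Iff.rfl)
    rw [Set.eq_univ_iff_forall]
    intro x
    by_cases hx : x = v
    · left
      rw [hx]
      exact ne_neg_self v
    · right
      exact hx
  exact h3.all (Model.self _)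

/-- There is a unit vector orthogonal to a given one. -/
theorem exists_orth [FiniteDimensional ℝ E] {N : ℕ} (hE : Module.finrank ℝ E = N + 2)
    (x₀ : sphere (0 : E) 1) : ∃ v : sphere (0 : E) 1, x₀ ∈ eqt v := by
  have : Fact (Module.finrank ℝ E = (N + 1) + 1) := ⟨hE⟩
  have h0 : (x₀ : E) ≠ 0 := by
    intro h
    have := norm_sph x₀
    rw [h, norm_zero] at this
    exact zero_ne_one this
  have h1 : Module.finrank ℝ (ℝ ∙ (x₀ : E))ᗮ = N + 1 :=
    Submodule.finrank_orthogonal_span_singleton h0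
  have : Nontrivial (ℝ ∙ (x₀ : E))ᗮ := Module.nontrivial_of_finrank_pos (R := ℝ) (by omega)
  obtain ⟨w, hw⟩ := exists_ne (0 : (ℝ ∙ (x₀ : E))ᗮ)
  have hw' : (w : E) ≠ 0 := fun h => hw (Subtype.ext h)
  refine ⟨⟨‖(w : E)‖⁻¹ • (w : E), norm_normalize hw'⟩, ?_⟩
  change ⟪‖(w : E)‖⁻¹ • (w : E), (x₀ : E)⟫ = 0
  have h2 := Submodule.mem_orthogonal_singleton_iff_inner_left.mp w.2
  rw [inner_smul_left, h2, mul_zero]

/-- The inclusion of the equator. -/
def eqtIncl (v : sphere (0 : E) 1) :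
    sphere (0 : (ℝ ∙ (v : E))ᗮ) 1 → sphere (0 : E) 1 :=
  fun y => ⟨(y : (ℝ ∙ (v : E))ᗮ), by
    have := norm_sph y
    rw [mem_sphere_zero_iff_norm]
    exact this⟩

theorem isEmbedding_eqtIncl (v : sphere (0 : E) 1) : Topology.IsEmbedding (eqtIncl v) := by
  have h1 : Topology.IsEmbedding (fun y : sphere (0 : (ℝ ∙ (v : E))ᗮ) 1 =>
      ((y : (ℝ ∙ (v : E))ᗮ) : E)) :=
    Topology.IsEmbedding.subtypeVal.comp Topology.IsEmbedding.subtypeVal
  exact Topology.IsEmbedding.of_comp (by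
    refine Continuous.subtype_mk ?_ _
    fun_prop) continuous_subtype_val h1

theorem range_eqtIncl (v : sphere (0 : E) 1) : Set.range (eqtIncl v) = eqt v := by
  ext x
  constructor
  · rintro ⟨y, rfl⟩
    exact Submodule.mem_orthogonal_singleton_iff_inner_right.mp (y : (ℝ ∙ (v : E))ᗮ).2
  · intro hx
    refine ⟨⟨⟨x, Submodule.mem_orthogonal_singleton_iff_inner_right.mpr hx⟩, ?_⟩, rfl⟩
    rw [mem_sphere_zero_iff_norm]
    exact norm_sph x

/-- In a plane the equator consists of two points. -/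
theorem eqt_two [FiniteDimensional ℝ E] (hE : Module.finrank ℝ E = 2) {v x₀ : sphere (0 : E) 1}
    (h₀ : x₀ ∈ eqt v) {x : sphere (0 : E) 1} (hx : x ∈ eqt v) : x = x₀ ∨ x = -x₀ := by
  have : Fact (Module.finrank ℝ E = 1 + 1) := ⟨hE⟩
  have hv0 : (v : E) ≠ 0 := by
    intro h
    have := norm_sph v
    rw [h, norm_zero] at this
    exact zero_ne_one this
  have h1 : Module.finrank ℝ (ℝ ∙ (v : E))ᗮ = 1 :=
    Submodule.finrank_orthogonal_span_singleton hv0
  let y₀ : (ℝ ∙ (v : E))ᗮ := ⟨x₀, Submodule.mem_orthogonal_singleton_iff_inner_right.mpr h₀⟩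
  have hy₀ : y₀ ≠ 0 := by
    intro h
    have h2 : (x₀ : E) = 0 := congrArg Subtype.val h
    have := norm_sph x₀
    rw [h2, norm_zero] at this
    exact zero_ne_one this
  obtain ⟨c, hc⟩ := (finrank_eq_one_iff_of_nonzero' y₀ hy₀).mp h1
    ⟨x, Submodule.mem_orthogonal_singleton_iff_inner_right.mpr hx⟩
  exact eq_or_eq_neg_of_smul (c := c) (congrArg Subtype.val hc).symm

/-- The base of the induction. -/
theorem eqt_isS0 [FiniteDimensional ℝ E] (hE : Module.finrank ℝ E = 2)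
    {v x₀ : sphere (0 : E) 1} (h₀ : x₀ ∈ eqt v) {K' : PSS}
    (M : Model (sS (x₀ := x₀) (eqt v) h₀) (bot (singP (sphere (0 : E) 1) x₀)) K') :
    IsS0 K' := by
  have key : ∀ n (σ : C(Simp n, sphere (0 : E) 1)), Set.range σ ⊆ eqt v →
      σ ≠ ContinuousMap.const _ x₀ → σ = ContinuousMap.const _ (-x₀) := by
    intro n σ hσ hne
    have h2 : ∀ t, σ t = x₀ ∨ σ t = -x₀ := fun t => eqt_two hE h₀ (hσ ⟨t, rfl⟩)
    have h3 : ∀ s t, σ s = σ t := by
      intro s t
      refine isPreconnected_univ.constant_of_mapsTo (T := ({x₀, -x₀} : Set (sphere (0 : E) 1)))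
        ?_ σ.continuous.continuousOn (fun t _ => ?_) (Set.mem_univ s) (Set.mem_univ t)
      · exact (Set.toFinite _).isDiscrete
      · exact h2 t
    refine ContinuousMap.ext fun t => ?_
    rcases h2 t with h4 | h4
    · refine absurd (ContinuousMap.ext fun s => ?_) hne
      rw [h3 s t, h4]
      rfl
    · exact h4
  have hnc : ∀ n, (ContinuousMap.const (Simp n) (-x₀) : C(Simp n, sphere (0 : E) 1)) ≠
      ContinuousMap.const _ x₀ := by
    intro n h
    exact ne_neg_self x₀ (DFunLike.congr_fun h (stdSimplex.vertex 0)).symm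
  refine M.isS0 (fun n => ⟨(ContinuousMap.const _ (-x₀) : C(Simp n, sphere (0 : E) 1)), ?_, ?_,
    ?_⟩) ?_
  · rintro _ ⟨t, rfl⟩
    change ⟪(v : E), -(x₀ : E)⟫ = 0
    have h5 : ⟪(v : E), (x₀ : E)⟫ = 0 := h₀
    rw [inner_neg_right, h5, neg_zero]
  · exact hnc n
  · intro σ hσ hne
    exact key n σ hσ hne
  · intro n i (σ : C(Simp (n + 1), sphere (0 : E) 1)) _ hσ hne h6
    rw [key _ σ hσ hne] at h6
    exact hnc n h6

/-- **Module SPH-A** (general form): the pointed singular complex of the unit sphere of a real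
inner product space of dimension `N + 2` is an algebraic `(N + 1)`-sphere. -/
theorem algSphere_sphere : ∀ (N : ℕ) (E : Type) [NormedAddCommGroup E] [InnerProductSpace ℝ E]
    [FiniteDimensional ℝ E] (_ : Module.finrank ℝ E = N + 2) (x₀ : sphere (0 : E) 1),
    AlgSphere (N + 1) (singP (sphere (0 : E) 1) x₀) := by
  intro N
  induction N with
  | zero =>
    intro E _ _ _ hE x₀
    obtain ⟨v, h₀⟩ := exists_orth (N := 0) hE x₀
    refine last_steps h₀ ?_
    have hle : ∀ n x, (sS (x₀ := x₀) (eqt v) h₀).P n x →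
        (sS (x₀ := x₀) ({-v}ᶜ ∩ {v}ᶜ) ⟨eqt_ne_neg h₀, eqt_ne h₀⟩).P n x :=
      fun n σ hσ => hσ.trans fun x hx => ⟨eqt_ne_neg hx, eqt_ne hx⟩
    have hle2 : ∀ n x, (sS (x₀ := x₀) ({-v}ᶜ ∩ {v}ᶜ) ⟨eqt_ne_neg h₀, eqt_ne h₀⟩).P n x →
        (sS (x₀ := x₀) {-v}ᶜ (eqt_ne_neg h₀)).P n x :=
      fun n σ hσ => hσ.trans Set.inter_subset_left
    refine AS.toQuot hle hle2 (relAc_two (fun _ _ => Iff.rfl) (fun _ _ => Iff.rfl)) ?_
    exact AS.one (bot_le _) (fun n x hx => hle2 n x (hle n x hx))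
      (relAc_compl (eqt_ne_neg h₀) (fun _ _ => Iff.rfl)) (fun K' M => eqt_isS0 hE h₀ M)
  | succ N ih =>
    intro E _ _ _ hE x₀
    obtain ⟨v, h₀⟩ := exists_orth (N := N + 1) hE x₀
    refine last_steps h₀ ?_
    have hle : ∀ n x, (sS (x₀ := x₀) (eqt v) h₀).P n x →
        (sS (x₀ := x₀) ({-v}ᶜ ∩ {v}ᶜ) ⟨eqt_ne_neg h₀, eqt_ne h₀⟩).P n x :=
      fun n σ hσ => hσ.trans fun x hx => ⟨eqt_ne_neg hx, eqt_ne hx⟩
    have hle2 : ∀ n x, (sS (x₀ := x₀) ({-v}ᶜ ∩ {v}ᶜ) ⟨eqt_ne_neg h₀, eqt_ne h₀⟩).P n x →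
        (sS (x₀ := x₀) {-v}ᶜ (eqt_ne_neg h₀)).P n x :=
      fun n σ hσ => hσ.trans Set.inter_subset_left
    have hv0 : (v : E) ≠ 0 := by
      intro h
      have := norm_sph v
      rw [h, norm_zero] at this
      exact zero_ne_one this
    have : Fact (Module.finrank ℝ E = (N + 2) + 1) := ⟨hE⟩
    have h1 : Module.finrank ℝ (ℝ ∙ (v : E))ᗮ = N + 2 :=
      Submodule.finrank_orthogonal_span_singleton hv0
    obtain ⟨y₀, hy₀⟩ : x₀ ∈ Set.range (eqtIncl v) := by
      rw [range_eqtIncl]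
      exact h₀
    have h2 := ih (ℝ ∙ (v : E))ᗮ h1 y₀
    have h3 : AS (N + 1) (sS (x₀ := x₀) (eqt v) h₀) (bot _) :=
      AS.of_model (modelE (isEmbedding_eqtIncl v) y₀ hy₀ (fun n σ => by
        rw [range_eqtIncl]
        exact Iff.rfl)) h2
    refine AS.susp (bot_le _) hle2 (relAc_compl (eqt_ne_neg h₀) (fun _ _ => Iff.rfl)) ?_
    exact AS.ofSub (bot_le _) hle (relAc_two (fun _ _ => Iff.rfl) (fun _ _ => Iff.rfl)) h3

/-- **Module SPH-A**: the pointed singular complex of `S^N` is an algebraic `N`-sphere. -/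
theorem algSphere_euclidean (N : ℕ) (hN : 1 ≤ N)
    (x₀ : sphere (0 : EuclideanSpace ℝ (Fin (N + 1))) 1) :
    AlgSphere N (singP (sphere (0 : EuclideanSpace ℝ (Fin (N + 1))) 1) x₀) := by
  obtain ⟨N, rfl⟩ : ∃ M, N = M + 1 := ⟨N - 1, by omega⟩
  exact algSphere_sphere N _ (by simp) x₀

end

end Pool.Agent.Lib.MP_904b2a_gt.H1
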