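import Pool.Agent.Lib.MP_904b2a_gt.H1.Skel

/-!
# MP_904b2a_gt, module CW: filtrations by subcomplexes of bounded height
-/

open Metric Set Topology

set_option linter.unusedSectionVars false

namespace Pool.Agent.Lib.MP_904b2a_gt

noncomputable section

section

variable {X : Type} [TopologicalSpace X] [T2Space X] {C : Set X} [CWComplex C]

open CWComplex

/-- The finitely many cells which meet the frontier of a cell. -/
def lowCells {n : ℕ} (j : cell C n) : (m : ℕ) → Finset (cell C m) :=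
  (CWComplex.cellFrontier_subset_finite_openCell n j).choose

theorem lowCells_spec {n : ℕ} (j : cell C n) :
    cellFrontier n j ⊆ ⋃ (m < n) (i ∈ lowCells j m), openCell m i :=
  (CWComplex.cellFrontier_subset_finite_openCell n j).choose_spec

/-- A height function which is at least the given one and does not increase on the cells
which meet the frontier of a cell. -/
def hgt (ht : ∀ n, cell C n → ℕ) : ∀ (n : ℕ), cell C n → ℕ
  | n => fun j => max (ht n j)
      (∑ m : Fin n, ∑ i ∈ lowCells j m.1, hgt ht m.1 i)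
termination_by n => n
decreasing_by exact m.2

theorem le_hgt (ht : ∀ n, cell C n → ℕ) (n : ℕ) (j : cell C n) : ht n j ≤ hgt ht n j := by
  rw [hgt]; exact le_max_left _ _

theorem hgt_low (ht : ∀ n, cell C n → ℕ) (n : ℕ) (j : cell C n) (m : ℕ) (hm : m < n)
    (i : cell C m) (hi : i ∈ lowCells j m) : hgt ht m i ≤ hgt ht n j := by
  rw [hgt.eq_def ht n]
  refine le_trans ?_ (le_max_right _ _)
  refine le_trans ?_ (Finset.single_le_sum (f := fun m : Fin n =>
    ∑ i ∈ lowCells j m.1, hgt ht m.1 i) (fun _ _ => Nat.zero_le _) (Finset.mem_univ ⟨m, hm⟩))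
  exact Finset.single_le_sum (f := fun i => hgt ht m i) (fun _ _ => Nat.zero_le _) hi

/-- The subcomplex of all cells of height at most `N`. -/
def hgtSub (C : Set X) [CWComplex C] (ht : ∀ n, cell C n → ℕ) (N : ℕ) :
    RelCWComplex.Subcomplex C :=
  CWComplex.Subcomplex.mk' C (⋃ (n : ℕ) (j : {j : cell C n | hgt ht n j ≤ N}), openCell n j.1)
    (fun n => {j : cell C n | hgt ht n j ≤ N})
    (by
      rintro n ⟨j, hj⟩
      rw [← RelCWComplex.cellFrontier_union_openCell_eq_closedCell]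
      refine union_subset ?_ ?_
      · refine (lowCells_spec j).trans ?_
        intro x hx
        simp only [mem_iUnion] at hx ⊢
        obtain ⟨m, hm, i, hi, hx⟩ := hx
        exact ⟨m, ⟨i, (hgt_low ht n j m hm i hi).trans hj⟩, hx⟩
      · intro x hx
        simp only [mem_iUnion]
        exact ⟨n, ⟨j, hj⟩, hx⟩)
    rfl

theorem mem_hgtSub {ht : ∀ n, cell C n → ℕ} {N : ℕ} {x : X} :
    x ∈ (hgtSub C ht N : Set X) ↔ ∃ n, ∃ j : cell C n, hgt ht n j ≤ N ∧ x ∈ openCell n j := by
  change x ∈ (⋃ (n : ℕ) (j : {j : cell C n | hgt ht n j ≤ N}), openCell n j.1) ↔ _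
  simp only [mem_iUnion]
  constructor
  · rintro ⟨n, ⟨j, hj⟩, hx⟩; exact ⟨n, j, hj, hx⟩
  · rintro ⟨n, j, hj, hx⟩; exact ⟨n, ⟨j, hj⟩, hx⟩

theorem mem_hgtSub_I {ht : ∀ n, cell C n → ℕ} {N n : ℕ} {j : cell C n} :
    j ∈ (hgtSub C ht N).I n ↔ hgt ht n j ≤ N := Iff.rfl

theorem hgtSub_mono {ht : ∀ n, cell C n → ℕ} {M N : ℕ} (h : M ≤ N) :
    (hgtSub C ht M : Set X) ⊆ hgtSub C ht N := by
  intro x hx
  obtain ⟨n, j, hj, hx⟩ := mem_hgtSub.1 hx
  exact mem_hgtSub.2 ⟨n, j, hj.trans h, hx⟩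

theorem iUnion_hgtSub {ht : ∀ n, cell C n → ℕ} : ⋃ N, (hgtSub C ht N : Set X) = C := by
  refine subset_antisymm (iUnion_subset fun N => RelCWComplex.Subcomplex.subset_complex _) ?_
  intro x hx
  rw [← CWComplex.iUnion_openCell_eq_complex (C := C)] at hx
  simp only [mem_iUnion] at hx ⊢
  obtain ⟨n, j, hx⟩ := hx
  exact ⟨hgt ht n j, mem_hgtSub.2 ⟨n, j, le_rfl, hx⟩⟩

end

/-- Module CW1. -/
theorem filtrationStatement : FiltrationStatement := by
  classical
  intro X _ _ _ r n ht
  let ht' : ∀ k, RelCWComplex.cell (univ : Set X) k → ℕ := fun k j =>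
    ∑ a : Fin r, if h : n a = k then ht a (cast (by rw [h]) j) else 0
  have key : ∀ a τ, ht a τ ≤ ht' (n a) τ := by
    intro a τ
    refine le_trans ?_ (Finset.single_le_sum (f := fun a' : Fin r => if h : n a' = n a then
      ht a' (cast (by rw [h]) τ) else 0) (fun _ _ => Nat.zero_le _) (Finset.mem_univ a))
    simp
  refine ⟨fun N => hgtSub univ ht' N, fun m => hgtSub_mono (Nat.le_succ m), iUnion_hgtSub,
    fun m a τ hτ => ?_⟩
  exact (key a τ).trans ((le_hgt ht' (n a) τ).trans (mem_hgtSub_I.1 hτ))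

end

end Pool.Agent.Lib.MP_904b2a_gt
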