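import Pool.Agent.Lib.MP_904b2a_gt.H1.Ext

/-!
# MP_904b2a_gt, module CW: the telescope of a filtration by subcomplexes
-/

open Metric Set Topology
open scoped unitInterval

set_option linter.unusedSectionVars false

namespace Pool.Agent.Lib.MP_904b2a_gt

noncomputable section

section

variable {X : Type} [TopologicalSpace X] {k : ℕ}

/-- The map on the whole space given by a map on the unit ball and a collar of the sphere. -/
def gam (χ : (Fin k → ℝ) → X) (H : X → C(I, X)) (y : Fin k → ℝ) : X :=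
  if ‖y‖ ≤ 1 then χ y else H (χ (rad y)) (projIcc 0 1 zero_le_one (‖y‖ - 1))

theorem gam_of_le (χ : (Fin k → ℝ) → X) (H : X → C(I, X)) {y : Fin k → ℝ} (hy : ‖y‖ ≤ 1) :
    gam χ H y = χ y := if_pos hy

theorem gam_of_ge (χ : (Fin k → ℝ) → X) (H : X → C(I, X)) {y : Fin k → ℝ} (hy : 1 ≤ ‖y‖)
    (h0 : ∀ x, ‖x‖ = 1 → H (χ x) 0 = χ x) :
    gam χ H y = H (χ (rad y)) (projIcc 0 1 zero_le_one (‖y‖ - 1)) := by
  rcases hy.lt_or_eq with hy | hy
  · exact if_neg (not_le.2 hy)
  · rw [gam_of_le χ H hy.symm.le, ← hy, sub_self, projIcc_left, rad_of_norm hy.symm]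
    exact (h0 y hy.symm).symm

theorem continuous_gam {χ : (Fin k → ℝ) → X} {H : X → C(I, X)} {S : Set X}
    (hχ : ContinuousOn χ (closedBall 0 1)) (hH : ContinuousOn H S)
    (hS : ∀ x, ‖x‖ = 1 → χ x ∈ S) (h0 : ∀ x, ‖x‖ = 1 → H (χ x) 0 = χ x) :
    Continuous (gam χ H) := by
  refine continuous_if_le continuous_norm continuous_const ?_ ?_ ?_
  · exact hχ.mono fun y hy => mem_closedBall_zero_iff.2 hy
  · have h1 : ContinuousOn (fun y : Fin k → ℝ => χ (rad y)) {y | 1 ≤ ‖y‖} := by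
      refine hχ.comp (continuousOn_rad fun y hy => lt_of_lt_of_le one_pos hy) fun y hy => ?_
      exact mem_closedBall_zero_iff.2 (norm_rad' (lt_of_lt_of_le one_pos hy)).le
    have h2 : ContinuousOn (fun y : Fin k → ℝ => H (χ (rad y))) {y | 1 ≤ ‖y‖} :=
      hH.comp h1 fun y hy => hS _ (norm_rad' (lt_of_lt_of_le one_pos hy))
    have h3 : Continuous fun y : Fin k → ℝ => projIcc (0 : ℝ) 1 zero_le_one (‖y‖ - 1) :=
      continuous_projIcc.comp (continuous_norm.sub continuous_const)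
    exact (continuous_eval (F := C(I, X)) (X := I) (Y := X)).comp_continuousOn
      (h2.prodMk h3.continuousOn)
  · intro y hy
    rw [hy, sub_self, projIcc_left, rad_of_norm hy]
    exact (h0 y hy).symm

/-- The scaling factor. -/
def scl (x : Fin k → ℝ) (t : I) : ℝ := (1 - t) + t * (2 / max ‖x‖ (1 / 2))

theorem continuous_scl : Continuous fun p : (Fin k → ℝ) × I => scl p.1 p.2 := by
  unfold scl
  refine (continuous_const.sub (continuous_subtype_val.comp continuous_snd)).add
    ((continuous_subtype_val.comp continuous_snd).mul (continuous_const.div ?_ ?_))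
  · exact (continuous_norm.comp continuous_fst).max continuous_const
  · intro p
    have : (1 / 2 : ℝ) ≤ max ‖p.1‖ (1 / 2) := le_max_right _ _
    positivity

theorem scl_pos (x : Fin k → ℝ) (t : I) : 0 < scl x t := by
  unfold scl
  have h1 := t.2.1
  have h2 := t.2.2
  have h3 : (0 : ℝ) < 2 / max ‖x‖ (1 / 2) := by
    have : (1 / 2 : ℝ) ≤ max ‖x‖ (1 / 2) := le_max_right _ _
    positivity
  rcases h1.eq_or_lt with h | h
  · rw [← h]; norm_num
  · have := mul_pos h h3
    linarith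

/-- The path of a point of a cell. -/
def gpath (Γ : C(Fin k → ℝ, X)) : C(Fin k → ℝ, C(I, X)) :=
  ContinuousMap.curry ⟨fun p : (Fin k → ℝ) × I => Γ (scl p.1 p.2 • p.1),
    Γ.continuous.comp (continuous_scl.smul continuous_fst)⟩

theorem gpath_apply (Γ : C(Fin k → ℝ, X)) (x : Fin k → ℝ) (t : I) :
    gpath Γ x t = Γ (scl x t • x) := rfl

theorem gpath_zero (Γ : C(Fin k → ℝ, X)) (x : Fin k → ℝ) : gpath Γ x 0 = Γ x := by
  rw [gpath_apply]
  simp [scl]

theorem scl_of_norm {x : Fin k → ℝ} (hx : ‖x‖ = 1) (t : I) : scl x t = 1 + t := by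
  rw [scl, hx, max_eq_left (by norm_num)]
  ring

theorem scl_one_of_le {x : Fin k → ℝ} (hx : ‖x‖ ≤ 1 / 2) : scl x 1 = 4 := by
  rw [scl, max_eq_right hx]
  norm_num

theorem scl_one_of_ge {x : Fin k → ℝ} (hx : 1 / 2 ≤ ‖x‖) : scl x 1 = 2 / ‖x‖ := by
  rw [scl, max_eq_left hx]
  norm_num

/-- The height on a cell. -/
def hfun (χ : (Fin k → ℝ) → X) (h : X → ℝ) (m : ℕ) (x : Fin k → ℝ) : ℝ :=
  m * min 1 (2 * (1 - ‖x‖)) +
    if ‖x‖ ≤ 1 / 4 then 0 else h (χ (rad x)) * min 1 (4 * ‖x‖ - 1)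

theorem continuous_hfun {χ : (Fin k → ℝ) → X} {h : X → ℝ} {S : Set X} (m : ℕ)
    (hχ : ContinuousOn χ (closedBall 0 1)) (hh : ContinuousOn h S)
    (hS : ∀ x, ‖x‖ = 1 → χ x ∈ S) : Continuous (hfun χ h m) := by
  refine Continuous.add ?_ ?_
  · exact continuous_const.mul (continuous_const.min
      (continuous_const.mul (continuous_const.sub continuous_norm)))
  · refine continuous_if_le continuous_norm continuous_const continuousOn_const ?_ ?_
    · have hpos : ∀ y ∈ {y : Fin k → ℝ | 1 / 4 ≤ ‖y‖}, 0 < ‖y‖ :=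
        fun y hy => lt_of_lt_of_le (by norm_num) hy
      have h1 : ContinuousOn (fun y : Fin k → ℝ => χ (rad y)) {y | 1 / 4 ≤ ‖y‖} := by
        refine hχ.comp (continuousOn_rad hpos) fun y hy => ?_
        exact mem_closedBall_zero_iff.2 (norm_rad' (hpos y hy)).le
      have h2 : ContinuousOn (fun y : Fin k → ℝ => h (χ (rad y))) {y | 1 / 4 ≤ ‖y‖} :=
        hh.comp h1 fun y hy => hS _ (norm_rad' (hpos y hy))
      refine h2.mul (Continuous.continuousOn ?_)
      exact continuous_const.min ((continuous_const.mul continuous_norm).sub continuous_const)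
    · intro x hx
      rw [hx]
      norm_num

theorem hfun_of_norm {χ : (Fin k → ℝ) → X} {h : X → ℝ} (m : ℕ) {x : Fin k → ℝ}
    (hx : ‖x‖ = 1) : hfun χ h m x = h (χ x) := by
  rw [hfun, hx, if_neg (by norm_num), rad_of_norm hx]
  norm_num

theorem le_hfun_of_le {χ : (Fin k → ℝ) → X} {h : X → ℝ} (m : ℕ) {x : Fin k → ℝ}
    (hx : ‖x‖ ≤ 1 / 2) (h0 : ∀ x, ‖x‖ = 1 → 0 ≤ h (χ x)) : (m : ℝ) ≤ hfun χ h m x := by
  rw [hfun, min_eq_left (by linarith), mul_one]
  refine le_add_of_nonneg_right ?_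
  split_ifs with h1
  · exact le_rfl
  · push Not at h1
    refine mul_nonneg (h0 _ (norm_rad' (by linarith))) (le_min (by norm_num) (by linarith))

theorem le_hfun_of_ge {χ : (Fin k → ℝ) → X} {h : X → ℝ} (m : ℕ) {x : Fin k → ℝ}
    (hx : 1 / 2 ≤ ‖x‖) (hx1 : ‖x‖ ≤ 1) : h (χ (rad x)) ≤ hfun χ h m x := by
  rw [hfun, if_neg (by linarith), min_eq_left (a := (1 : ℝ)) (b := 4 * ‖x‖ - 1) (by linarith),
    mul_one]
  refine le_add_of_nonneg_left (mul_nonneg (Nat.cast_nonneg m) (le_min (by norm_num) ?_))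
  linarith

theorem hfun_nonneg {χ : (Fin k → ℝ) → X} {h : X → ℝ} (m : ℕ) {x : Fin k → ℝ}
    (hx1 : ‖x‖ ≤ 1) (h0 : ∀ x, ‖x‖ = 1 → 0 ≤ h (χ x)) : 0 ≤ hfun χ h m x := by
  rcases le_total ‖x‖ (1 / 2) with hx | hx
  · exact (Nat.cast_nonneg m).trans (le_hfun_of_le m hx h0)
  · exact (h0 _ (norm_rad' (by linarith))).trans (le_hfun_of_ge m hx hx1)

end

section

variable {X : Type} [TopologicalSpace X] [T2Space X] [CWComplex (univ : Set X)]

open CWComplex

/-- A subcomplex which meets an open cell contains the closed cell. -/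
theorem closedCell_subset_of_mem' {C : Set X} [CWComplex C] (E : RelCWComplex.Subcomplex C)
    {n : ℕ} {j : cell C n} {x : X} (hx : x ∈ openCell n j) (hE : x ∈ (E : Set X)) :
    closedCell n j ⊆ E := by
  by_cases h : j ∈ E.I n
  · exact E.closedCell_subset_of_mem h
  · exact absurd hE (Set.disjoint_left.1 (E.disjoint_openCell_subcomplex_of_not_mem h) hx)

/-- The data of the section over the `k`-skeleton. -/
def Sec (Y : ℕ → RelCWComplex.Subcomplex (univ : Set X)) (k : ℕ) : Prop :=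
  ∃ (H : X → C(I, X)) (h : X → ℝ), ContinuousOn H (SK univ k) ∧ ContinuousOn h (SK univ k) ∧
    ∀ x ∈ SK univ k, H x 0 = x ∧ 0 ≤ h x ∧ H x 1 ∈ (Y ⌊h x⌋₊ : Set X) ∧
      ∀ m, x ∈ (Y m : Set X) → ∀ t, H x t ∈ (Y m : Set X)

theorem sec_zero (Y : ℕ → RelCWComplex.Subcomplex (univ : Set X)) : Sec Y 0 := by
  refine ⟨fun x => ContinuousMap.const I x, fun _ => 0, ?_, continuousOn_const, ?_⟩
  · rw [SK_zero]; exact continuousOn_empty _
  · intro x hx
    rw [SK_zero] at hx
    exact absurd hx (notMem_empty x)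

theorem mono_of_succ {Y : ℕ → RelCWComplex.Subcomplex (univ : Set X)}
    (h : ∀ m, (Y m : Set X) ⊆ Y (m + 1)) {m n : ℕ} (hmn : m ≤ n) : (Y m : Set X) ⊆ Y n := by
  induction n, hmn using Nat.le_induction with
  | base => exact subset_rfl
  | succ n _ ih => exact ih.trans (h n)

theorem sec_succ {Y : ℕ → RelCWComplex.Subcomplex (univ : Set X)}
    (hY : ∀ m, (Y m : Set X) ⊆ Y (m + 1)) (hU : (⋃ m, (Y m : Set X)) = univ) {k : ℕ}
    (hk : Sec Y k) : Sec Y (k + 1) := by
  classical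
  obtain ⟨H, h, hH, hh, hS⟩ := hk
  -- the level of a cell
  have hlev : ∀ j : cell (univ : Set X) k, ∃ m, closedCell k j ⊆ (Y m : Set X) := by
    intro j
    have h1 : map k j 0 ∈ (⋃ m, (Y m : Set X)) := by rw [hU]; exact mem_univ _
    obtain ⟨m, hm⟩ := mem_iUnion.1 h1
    exact ⟨m, closedCell_subset_of_mem' (Y m) (map_mem_openCell j (by simp)) hm⟩
  choose lev hlev using hlev
  have hχ : ∀ j : cell (univ : Set X) k, ContinuousOn (map k j) (closedBall 0 1) :=
    fun j => RelCWComplex.continuousOn k j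
  have hbd : ∀ (j : cell (univ : Set X) k) x, ‖x‖ = 1 → map k j x ∈ SK (univ : Set X) k :=
    fun j x hx => map_mem_SK j hx
  have h0 : ∀ (j : cell (univ : Set X) k) x, ‖x‖ = 1 → H (map k j x) 0 = map k j x :=
    fun j x hx => (hS _ (hbd j x hx)).1
  let Γ : cell (univ : Set X) k → C(Fin k → ℝ, X) := fun j =>
    ⟨gam (map k j) H, continuous_gam (hχ j) hH (hbd j) (h0 j)⟩
  obtain ⟨H', hH', hH1, hH2⟩ := exists_ext_cont H (fun j => gpath (Γ j)) hH
    (fun j => (gpath (Γ j)).continuous.continuousOn) (by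
      intro j x hx
      ext t
      rw [gpath_apply, scl_of_norm hx t]
      have h1 : (0 : ℝ) < 1 + t := by have := t.2.1; linarith
      have h2 : ‖(1 + (t : ℝ)) • x‖ = 1 + t := by
        rw [norm_smul, hx, mul_one, Real.norm_of_nonneg h1.le]
      change gam (map k j) H ((1 + (t : ℝ)) • x) = _
      rw [gam_of_ge _ _ (by rw [h2]; have := t.2.1; linarith) (h0 j), rad_smul h1,
        rad_of_norm hx, h2]
      congr 2
      rw [add_sub_cancel_left, projIcc_val])
  obtain ⟨h', hh', hh1, hh2⟩ := exists_ext_cont h (fun j => hfun (map k j) h (lev j)) hh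
    (fun j => (continuous_hfun (lev j) (hχ j) hh (hbd j)).continuousOn)
    (fun j x hx => hfun_of_norm (lev j) hx)
  refine ⟨H', h', hH', hh', fun x hx => ?_⟩
  rcases cases_SK hx with hx | ⟨j, y, hy, rfl⟩
  · rw [hH1 x hx, hh1 x hx]
    exact hS x hx
  · rw [hH2 j y hy.le, hh2 j y hy.le]
    have hnn : ∀ x, ‖x‖ = 1 → 0 ≤ h (map k j x) := fun x hx => (hS _ (hbd j x hx)).2.1
    -- points of `Γ` stay in every subcomplex which contains the cell
    have hstay : ∀ m, closedCell k j ⊆ (Y m : Set X) → ∀ z, Γ j z ∈ (Y m : Set X) := by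
      intro m hm z
      rcases le_total ‖z‖ 1 with hz | hz
      · change gam (map k j) H z ∈ _
        rw [gam_of_le _ _ hz]
        exact hm (map_mem_closedCell j hz)
      · change gam (map k j) H z ∈ _
        rw [gam_of_ge _ _ hz (h0 j)]
        have hr : ‖rad z‖ = 1 := norm_rad' (lt_of_lt_of_le one_pos hz)
        exact (hS _ (hbd j _ hr)).2.2.2 m (hm (map_mem_closedCell j hr.le)) _
    refine ⟨?_, hfun_nonneg (lev j) hy.le hnn, ?_, ?_⟩
    · rw [gpath_zero]
      exact gam_of_le _ _ hy.le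
    · rcases le_total ‖y‖ (1 / 2) with hy2 | hy2
      · rw [gpath_apply]
        refine mono_of_succ hY ?_ (hstay (lev j) (hlev j) _)
        exact Nat.le_floor (le_hfun_of_le (lev j) hy2 hnn)
      · rw [gpath_apply, scl_one_of_ge hy2]
        have hy0 : 0 < ‖y‖ := by linarith
        have h1 : ‖(2 / ‖y‖) • y‖ = 2 := by
          rw [norm_smul, Real.norm_of_nonneg (by positivity), div_mul_cancel₀ _ hy0.ne']
        change gam (map k j) H ((2 / ‖y‖) • y) ∈ _
        rw [gam_of_ge _ _ (by rw [h1]; norm_num) (h0 j), rad_smul (by positivity), h1]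
        have h2 : projIcc (0 : ℝ) 1 zero_le_one (2 - 1) = 1 := by
          norm_num
        rw [h2]
        have hr : ‖rad y‖ = 1 := norm_rad' hy0
        refine mono_of_succ hY ?_ (hS _ (hbd j _ hr)).2.2.1
        exact Nat.floor_le_floor (le_hfun_of_ge (lev j) hy2 hy.le)
    · intro m hm t
      rw [gpath_apply]
      exact hstay m (closedCell_subset_of_mem' (Y m) (map_mem_openCell j hy) hm) _

end

/-- Module CW2. -/
theorem sectionStatement : SectionStatement := by
  intro X _ _ _ d hd Y hY hU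
  have h1 : ∀ k, Sec Y k := fun k => by
    induction k with
    | zero => exact sec_zero Y
    | succ k ih => exact sec_succ hY hU ih
  have h2 : SK (univ : Set X) (d + 1) = univ := by
    refine eq_univ_of_forall fun x => ?_
    have h3 : x ∈ (univ : Set X) := mem_univ x
    rw [← CWComplex.iUnion_openCell_eq_complex (C := (univ : Set X))] at h3
    simp only [mem_iUnion] at h3
    obtain ⟨n, j, hx⟩ := h3
    by_cases hn : d < n
    · exact ((hd n hn).false j).elim
    · exact mem_SK.2 ⟨n, by omega, j, hx⟩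
  obtain ⟨H, h, hH, hh, hS⟩ := h1 (d + 1)
  rw [h2] at hH hh hS
  have hHc : Continuous H := continuousOn_univ.1 hH
  have hhc : Continuous h := continuousOn_univ.1 hh
  have hc : Continuous fun p : I × X => H p.2 p.1 :=
    (continuous_eval (F := C(I, X)) (X := I) (Y := X)).comp
      ((hHc.comp continuous_snd).prodMk continuous_fst)
  refine ⟨⟨fun x => H x 1, hc.comp (continuous_const.prodMk continuous_id)⟩, ⟨h, hhc⟩, ?_,
    fun x => (hS x (mem_univ x)).2.1, fun x => (hS x (mem_univ x)).2.2.1⟩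
  refine ContinuousMap.Homotopic.symm ⟨⟨⟨fun p => H p.2 p.1, hc⟩, fun x => ?_, fun x => rfl⟩⟩
  exact (hS x (mem_univ x)).1

end

end Pool.Agent.Lib.MP_904b2a_gt
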