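import Pool.Agent.Lib.MP_904b2a_gt.H83.PChern

/-!
# MP_904b2a_gt, stage 2: from families of projections to vector bundles (`TransferStatement`)
-/

open scoped BigOperators Matrix ComplexOrder
open Module Bundle Set

namespace Pool.Agent.Lib.MP_904b2a_gt.Tr

noncomputable section

/-! ### Pseudo-inverses -/

section Pinv

variable {ι κ : Type} [Fintype ι] [DecidableEq ι] [Fintype κ] {r : ℕ}

/-- The pseudo-inverse of a matrix with linearly independent columns. -/
def pinv (M : Matrix ι (Fin r) ℂ) : Matrix (Fin r) ι ℂ := (Mᴴ * M)⁻¹ * Mᴴ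

theorem det_ne_zero {M : Matrix ι (Fin r) ℂ} (hM : Function.Injective fun w => M *ᵥ w) :
    (Mᴴ * M).det ≠ 0 := by
  intro h
  obtain ⟨v, hv, h2⟩ := Matrix.exists_mulVec_eq_zero_iff.mpr h
  rw [Matrix.conjTranspose_mul_self_mulVec_eq_zero] at h2
  exact hv (hM (h2.trans (Matrix.mulVec_zero M).symm))

theorem pinv_mul {M : Matrix ι (Fin r) ℂ} (hM : Function.Injective fun w => M *ᵥ w) :
    pinv M * M = 1 := by
  rw [pinv, Matrix.mul_assoc]
  exact Matrix.nonsing_inv_mul _ (isUnit_iff_ne_zero.mpr (det_ne_zero hM))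

theorem proj_herm (M : Matrix ι (Fin r) ℂ) : (M * pinv M)ᴴ = M * pinv M := by
  rw [pinv, ← Matrix.mul_assoc, Matrix.conjTranspose_mul, Matrix.conjTranspose_mul,
    Matrix.conjTranspose_conjTranspose, Matrix.conjTranspose_nonsing_inv,
    Matrix.conjTranspose_mul, Matrix.conjTranspose_conjTranspose, ← Matrix.mul_assoc]

theorem proj_idem {M : Matrix ι (Fin r) ℂ} (hM : Function.Injective fun w => M *ᵥ w) :
    (M * pinv M) * (M * pinv M) = M * pinv M := by
  rw [Matrix.mul_assoc, ← Matrix.mul_assoc (pinv M) M, pinv_mul hM, Matrix.one_mul]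

theorem proj_trace {M : Matrix ι (Fin r) ℂ} (hM : Function.Injective fun w => M *ᵥ w) :
    (M * pinv M).trace = r := by
  rw [Matrix.trace_mul_comm, pinv_mul hM, Matrix.trace_one, Fintype.card_fin]

theorem proj_mulVec {M : Matrix ι (Fin r) ℂ} (hM : Function.Injective fun w => M *ᵥ w)
    (w : Fin r → ℂ) : (M * pinv M) *ᵥ (M *ᵥ w) = M *ᵥ w := by
  rw [Matrix.mulVec_mulVec, Matrix.mul_assoc, pinv_mul hM, Matrix.mul_one]

/-- An orthogonal projection is determined by its range. -/
theorem proj_unique {P Q : Matrix ι ι ℂ} (hP : Pᴴ = P) (hQ : Qᴴ = Q) (hP2 : P * P = P)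
    (hQ2 : Q * Q = Q) (h : ∀ v, P *ᵥ v = v ↔ Q *ᵥ v = v) : P = Q := by
  have h1 : Q * P = P := by
    apply Matrix.toLin'.injective
    apply LinearMap.ext
    intro v
    rw [Matrix.toLin'_apply, Matrix.toLin'_apply, ← Matrix.mulVec_mulVec]
    refine (h _).mp ?_
    rw [Matrix.mulVec_mulVec, hP2]
  have h2 : P * Q = Q := by
    apply Matrix.toLin'.injective
    apply LinearMap.ext
    intro v
    rw [Matrix.toLin'_apply, Matrix.toLin'_apply, ← Matrix.mulVec_mulVec]
    refine (h _).mpr ?_
    rw [Matrix.mulVec_mulVec, hQ2]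
  have h3 := congrArg Matrix.conjTranspose h1
  rw [Matrix.conjTranspose_mul, hP, hQ, h2] at h3
  exact h3.symm

end Pinv

/-! ### Matrices in local trivialisations -/

section Mat

variable {r : ℕ} {X : Type} [TopologicalSpace X] {V : CVB r X}

/-- The trivialisation around `x₀`. -/
abbrev tr (V : CVB r X) (x₀ : X) : Trivialization (Fin r → ℂ) (π (Fin r → ℂ) V.fib) :=
  trivializationAt (Fin r → ℂ) V.fib x₀

variable {ι κ : Type}

/-- The matrix of a map to a trivial bundle. -/
def mat (T : TMap V ι) (x₀ x : X) : Matrix ι (Fin r) ℂ :=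
  LinearMap.toMatrix' (T.app x ∘ₗ (tr V x₀).symmₗ ℂ x)

theorem mat_mulVec (T : TMap V ι) (x₀ x : X) (w : Fin r → ℂ) :
    mat T x₀ x *ᵥ w = T.app x ((tr V x₀).symmₗ ℂ x w) := by
  rw [mat, LinearMap.toMatrix'_mulVec]
  rfl

theorem continuousOn_mat (T : TMap V ι) (x₀ : X) :
    ContinuousOn (mat T x₀) (tr V x₀).baseSet := by
  refine continuousOn_pi.mpr fun a => continuousOn_pi.mpr fun k => ?_
  have h1 : ContinuousOn (fun x : X => (TotalSpace.mk' (Fin r → ℂ) x
      ((tr V x₀).symm x (Pi.single k 1)) : V.Tot)) (tr V x₀).baseSet := by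
    have h2 := (tr V x₀).continuousOn_symm
    exact h2.comp (f := fun x : X => (x, (Pi.single k 1 : Fin r → ℂ)))
      (by fun_prop) (fun x hx => ⟨hx, mem_univ _⟩)
  have h3 : ContinuousOn (fun x : X => T.app x ((tr V x₀).symm x (Pi.single k 1)) a)
      (tr V x₀).baseSet := by
    have h4 : Continuous (fun q : V.Tot => T.app q.1 q.2 a) := (continuous_apply a).comp T.cont
    exact h4.comp_continuousOn h1
  refine h3.congr fun x hx => ?_
  rw [mat, LinearMap.toMatrix'_apply]
  simp only [LinearMap.comp_apply]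
  rw [Trivialization.symmₗ_apply _ hx]

theorem mat_injective {T : TMap V ι} {x₀ x : X} (hx : x ∈ (tr V x₀).baseSet)
    (h : Function.Injective (T.app x)) : Function.Injective fun w => mat T x₀ x *ᵥ w := by
  intro w w' hw
  dsimp only at hw
  rw [mat_mulVec, mat_mulVec] at hw
  have h1 := h hw
  have h2 := congrArg ((tr V x₀).linearMapAt ℂ x) h1
  rwa [Trivialization.linearMapAt_symmₗ _ hx, Trivialization.linearMapAt_symmₗ _ hx] at h2

theorem exists_mat {x₀ x : X} (hx : x ∈ (tr V x₀).baseSet) (v : V.fib x) :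
    ∃ w : Fin r → ℂ, (tr V x₀).symmₗ ℂ x w = v :=
  ⟨_, Trivialization.symmₗ_linearMapAt (R := ℂ) (tr V x₀) hx v⟩

end Mat

/-! ### The family of projections onto the image of an embedding -/

section Fam

variable {r : ℕ} {X : Type} [TopologicalSpace X] {V : CVB r X}
variable {ι κ : Type} [Fintype ι] [DecidableEq ι] [Fintype κ]

/-- The projection onto the image, computed in the trivialisation around `x₀`. -/
def prj (F : TMap V ι) (x₀ x : X) : Matrix ι ι ℂ := mat F x₀ x * pinv (mat F x₀ x)

/-- The matrix of `T ∘ F⁻¹ ∘ P`, computed in the trivialisation around `x₀`. -/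
def cmp (F : TMap V ι) (T : TMap V κ) (x₀ x : X) : Matrix κ ι ℂ :=
  mat T x₀ x * pinv (mat F x₀ x)

theorem cmp_app {F : TMap V ι} (T : TMap V κ) {x₀ x : X} (hx : x ∈ (tr V x₀).baseSet)
    (hF : Function.Injective (F.app x)) (v : V.fib x) :
    cmp F T x₀ x *ᵥ F.app x v = T.app x v := by
  obtain ⟨w, rfl⟩ := exists_mat hx v
  rw [← mat_mulVec, ← mat_mulVec, cmp, Matrix.mulVec_mulVec, Matrix.mul_assoc,
    pinv_mul (mat_injective hx hF), Matrix.mul_one]

theorem prj_app {F : TMap V ι} {x₀ x : X} (hx : x ∈ (tr V x₀).baseSet)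
    (hF : Function.Injective (F.app x)) (v : V.fib x) :
    prj F x₀ x *ᵥ F.app x v = F.app x v := cmp_app F hx hF v

theorem prj_mem {F : TMap V ι} {x₀ x : X} (u : ι → ℂ) :
    ∃ v : V.fib x, prj F x₀ x *ᵥ u = F.app x v := by
  refine ⟨(tr V x₀).symmₗ ℂ x (pinv (mat F x₀ x) *ᵥ u), ?_⟩
  rw [← mat_mulVec, prj, Matrix.mulVec_mulVec]

theorem prj_fix {F : TMap V ι} {x₀ x : X} (hx : x ∈ (tr V x₀).baseSet)
    (hF : Function.Injective (F.app x)) (u : ι → ℂ) :
    prj F x₀ x *ᵥ u = u ↔ ∃ v, F.app x v = u := by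
  constructor
  · intro h
    obtain ⟨v, hv⟩ := prj_mem (F := F) (x₀ := x₀) (x := x) u
    exact ⟨v, by rw [← hv, h]⟩
  · rintro ⟨v, rfl⟩
    exact prj_app hx hF v

theorem prj_eq {F : TMap V ι} {x₀ x₁ x : X} (hx : x ∈ (tr V x₀).baseSet)
    (hx' : x ∈ (tr V x₁).baseSet) (hF : Function.Injective (F.app x)) :
    prj F x₀ x = prj F x₁ x := by
  refine proj_unique (proj_herm _) (proj_herm _) (proj_idem (mat_injective hx hF))
    (proj_idem (mat_injective hx' hF)) fun v => ?_
  exact (prj_fix hx hF v).trans (prj_fix hx' hF v).symm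

theorem cmp_mul_prj {F : TMap V ι} (T : TMap V κ) {x₀ x : X} (hx : x ∈ (tr V x₀).baseSet)
    (hF : Function.Injective (F.app x)) : cmp F T x₀ x * prj F x₀ x = cmp F T x₀ x := by
  rw [cmp, prj, Matrix.mul_assoc, ← Matrix.mul_assoc (pinv _) (mat F x₀ x),
    pinv_mul (mat_injective hx hF), Matrix.one_mul]

theorem cmp_eq {F : TMap V ι} (T : TMap V κ) {x₀ x₁ x : X} (hx : x ∈ (tr V x₀).baseSet)
    (hx' : x ∈ (tr V x₁).baseSet) (hF : Function.Injective (F.app x)) :
    cmp F T x₀ x = cmp F T x₁ x := by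
  apply Matrix.toLin'.injective
  apply LinearMap.ext
  intro u
  rw [Matrix.toLin'_apply, Matrix.toLin'_apply, ← cmp_mul_prj T hx hF, ← cmp_mul_prj T hx' hF,
    ← Matrix.mulVec_mulVec, ← Matrix.mulVec_mulVec, prj_eq hx hx' hF]
  obtain ⟨v, hv⟩ := prj_mem (F := F) (x₀ := x₁) (x := x) u
  rw [hv, cmp_app T hx hF, cmp_app T hx' hF]

theorem continuousOn_pinv {S : Set X} {M : X → Matrix ι (Fin r) ℂ} (hM : ContinuousOn M S)
    (hi : ∀ x ∈ S, Function.Injective fun w => M x *ᵥ w) :
    ContinuousOn (fun x => pinv (M x)) S := by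
  rw [continuousOn_iff_continuous_domRestrict] at hM ⊢
  have h1 : Continuous (fun x : S => (M x.1)ᴴ * M x.1) :=
    (hM.matrix_conjTranspose).matrix_mul hM
  have h2 : Continuous (fun x : S => ((M x.1)ᴴ * M x.1)⁻¹) := by
    have : (fun x : S => ((M x.1)ᴴ * M x.1)⁻¹) =
        fun x : S => (((M x.1)ᴴ * M x.1).det)⁻¹ • ((M x.1)ᴴ * M x.1).adjugate := by
      funext x
      rw [Matrix.inv_def, Ring.inverse_eq_inv']
    rw [this]
    exact (h1.matrix_det.inv₀ (fun x => det_ne_zero (hi x.1 x.2))).smul h1.matrix_adjugate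
  exact h2.matrix_mul hM.matrix_conjTranspose

theorem continuousOn_cmp {F : TMap V ι} (hF : ∀ x, Function.Injective (F.app x))
    (T : TMap V κ) (x₀ : X) : ContinuousOn (cmp F T x₀) (tr V x₀).baseSet := by
  have h1 := continuousOn_mat T x₀
  have h2 := continuousOn_pinv (continuousOn_mat F x₀)
    (fun x hx => mat_injective hx (hF x))
  rw [continuousOn_iff_continuous_domRestrict] at h1 h2 ⊢
  exact h1.matrix_mul h2

/-- The global comparison matrix. -/
def gcmp (F : TMap V ι) (T : TMap V κ) (x : X) : Matrix κ ι ℂ := cmp F T x x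

theorem continuous_gcmp {F : TMap V ι} (hF : ∀ x, Function.Injective (F.app x))
    (T : TMap V κ) : Continuous (gcmp F T) := by
  rw [continuous_iff_continuousAt]
  intro x₀
  have hmem : (tr V x₀).baseSet ∈ nhds x₀ :=
    (tr V x₀).open_baseSet.mem_nhds (FiberBundle.mem_baseSet_trivializationAt' x₀)
  refine ((continuousOn_cmp hF T x₀).continuousAt hmem).congr ?_
  filter_upwards [hmem] with x hx
  exact cmp_eq T hx (FiberBundle.mem_baseSet_trivializationAt' x) (hF x)

theorem gcmp_app {F : TMap V ι} (hF : ∀ x, Function.Injective (F.app x)) (T : TMap V κ) (x : X)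
    (v : V.fib x) : gcmp F T x *ᵥ F.app x v = T.app x v :=
  cmp_app T (FiberBundle.mem_baseSet_trivializationAt' x) (hF x) v

/-- The family of projections onto the image of an embedding. -/
def fam (F : TMap V ι) (hF : ∀ x, Function.Injective (F.app x)) : PF r X ι where
  P := gcmp F F
  cont := continuous_gcmp hF F
  herm _ := proj_herm _
  idem x := proj_idem (mat_injective (FiberBundle.mem_baseSet_trivializationAt' x) (hF x))
  tr x := proj_trace (mat_injective (FiberBundle.mem_baseSet_trivializationAt' x) (hF x))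

theorem fam_fix {F : TMap V ι} (hF : ∀ x, Function.Injective (F.app x)) (x : X) (u : ι → ℂ) :
    (fam F hF).P x *ᵥ u = u ↔ ∃ v, F.app x v = u :=
  prj_fix (FiberBundle.mem_baseSet_trivializationAt' x) (hF x) u

end Fam

/-! ### The transfer -/

section Transfer

variable (PC : H83.PChern)

variable {r s t : ℕ} {X Y : Type} [TopologicalSpace X] [TopologicalSpace Y]

/-- Two embeddings give the same classes. -/
theorem c_fam_eq {V : CVB r X} {ι κ : Type} [Fintype ι] [DecidableEq ι] [Fintype κ]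
    [DecidableEq κ] {F : TMap V ι} (hF : ∀ x, Function.Injective (F.app x)) {G : TMap V κ}
    (hG : ∀ x, Function.Injective (G.app x)) (i : ℕ) :
    PC.c (fam F hF) i = PC.c (fam G hG) i := by
  rw [PC.map (fam F hF) (fam G hG) (ContinuousMap.id X) (gcmp F G) (continuous_gcmp hF G) ?_ ?_ i,
    H.pb_id']
  · intro x v hv
    obtain ⟨v, rfl⟩ := (fam_fix hF x v).mp hv
    rw [gcmp_app hF]
    exact (fam_fix hG x _).mpr ⟨v, rfl⟩
  · intro x v hv h0
    obtain ⟨v, rfl⟩ := (fam_fix hF x v).mp hv
    rw [gcmp_app hF] at h0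
    have : v = 0 := hG x (h0.trans (map_zero _).symm)
    rw [this, map_zero]

open Classical in
/-- The classes of vector bundles. -/
def chern {r : ℕ} {X : Type} [TopologicalSpace X] (V : CVB r X) (i : ℕ) : H (2 * i) X ℤ :=
  if h : V.Embeddable then PC.c (fam h.choose_spec.choose h.choose_spec.choose_spec) i else 0

theorem chern_eq {V : CVB r X} {ι : Type} [Fintype ι] [DecidableEq ι] {F : TMap V ι}
    (hF : ∀ x, Function.Injective (F.app x)) (i : ℕ) : chern PC V i = PC.c (fam F hF) i := by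
  have h : V.Embeddable := CVB.embeddable_of_TMap F hF
  rw [chern, dif_pos h]
  exact c_fam_eq PC _ hF i

/-- Composition of a bundle map with a map to a trivial bundle. -/
def compT {V : CVB r X} {W : CVB s Y} {f : C(X, Y)} (F : BMap V W f) {ι : Type}
    (G : TMap W ι) : TMap V ι where
  app x := G.app (f x) ∘ₗ F.app x
  cont := G.cont.comp F.cont

theorem finrank_fib (V : CVB r X) (x : X) : Module.finrank ℂ (V.fib x) = r := by
  have e1 : V.fib x ≃ₗ[ℂ] (Fin r → ℂ) :=
    (VectorBundle.continuousLinearEquivAt ℂ (Fin r → ℂ) V.fib x).toLinearEquiv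
  rw [e1.finrank_eq, finrank_fin_fun]

theorem dsum_fix {ι κ : Type} [Fintype ι] [DecidableEq ι] [Fintype κ] [DecidableEq κ]
    {p : PF r X ι} {q : PF s X κ} {x : X} {v : ι ⊕ κ → ℂ} (h : (p.dsum q).P x *ᵥ v = v) :
    p.P x *ᵥ (v ∘ Sum.inl) = v ∘ Sum.inl ∧ q.P x *ᵥ (v ∘ Sum.inr) = v ∘ Sum.inr := by
  have h1 : (p.dsum q).P x *ᵥ v =
      Sum.elim (p.P x *ᵥ (v ∘ Sum.inl)) (q.P x *ᵥ (v ∘ Sum.inr)) := by
    change Matrix.fromBlocks (p.P x) 0 0 (q.P x) *ᵥ v = _
    rw [Matrix.fromBlocks_mulVec]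
    simp
  rw [h1] at h
  constructor
  · funext a
    exact congrFun h (Sum.inl a)
  · funext a
    exact congrFun h (Sum.inr a)

/-- **Stage 2, transfer.** -/
theorem transferStatement : H83.TransferStatement := by
  intro PC
  refine ⟨⟨fun V i => chern PC V i, ?_, ?_, ?_, ?_, ?_⟩⟩
  · intro X _ r V hV
    obtain ⟨n, F, hF⟩ := hV
    rw [chern_eq PC hF]
    exact PC.c_zero _
  · intro X _ r V hV i hi
    obtain ⟨n, F, hF⟩ := hV
    rw [chern_eq PC hF]
    exact PC.c_gt _ i hi
  · intro X Y _ _ r V W f F hW hb i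
    obtain ⟨n, G, hG⟩ := hW
    have hF : ∀ x, Function.Injective ((compT F G).app x) := fun x =>
      (hG (f x)).comp (hb x).1
    rw [chern_eq PC hF, chern_eq PC hG]
    refine PC.map (fam (compT F G) hF) (fam G hG) f (fun _ => 1) continuous_const ?_ ?_ i
    · intro x v hv
      obtain ⟨v, rfl⟩ := (fam_fix hF x v).mp hv
      rw [Matrix.one_mulVec]
      exact (fam_fix hG (f x) _).mpr ⟨F.app x v, rfl⟩
    · intro x v _ h0
      rwa [Matrix.one_mulVec] at h0
  · intro X _ r s t V V₁ V₂ F₁ F₂ hV hb k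
    rcases isEmpty_or_nonempty X with hX | ⟨⟨x₀⟩⟩
    · have hz : ∀ (m : ℕ) (u : H m X ℤ), u = 0 := by
        intro m u
        obtain ⟨z, rfl⟩ := H.mk_surjective m u
        have : z = 0 := Subtype.ext (funext fun σ => isEmptyElim (σ (stdSimplex.vertex 0)))
        rw [this, map_zero]
      rw [hz _ (chern PC V k)]
      exact (hz _ _).symm
    · -- the ranks
      have ht : t = r + s := by
        have e : (V₁.fib x₀ × V₂.fib x₀) ≃ₗ[ℂ] V.fib x₀ := by
          refine LinearEquiv.ofBijective ((F₁.app x₀).coprod (F₂.app x₀)) ?_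
          exact hb x₀
        have f1 : Module.Finite ℂ (V₁.fib x₀) := Module.Finite.equiv
          (VectorBundle.continuousLinearEquivAt ℂ (Fin r → ℂ) V₁.fib x₀).toLinearEquiv.symm
        have f2 : Module.Finite ℂ (V₂.fib x₀) := Module.Finite.equiv
          (VectorBundle.continuousLinearEquivAt ℂ (Fin s → ℂ) V₂.fib x₀).toLinearEquiv.symm
        have h1 := e.finrank_eq
        rw [Module.finrank_prod, finrank_fib, finrank_fib, finrank_fib] at h1
        exact h1.symm
      subst ht
      obtain ⟨n, G, hG⟩ := hV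
      have h1 : ∀ x, Function.Injective (F₁.app x) := by
        intro x v w hvw
        have h2 : (fun v : V₁.fib x × V₂.fib x => F₁.app x v.1 + F₂.app x v.2) (v, 0) =
            (fun v : V₁.fib x × V₂.fib x => F₁.app x v.1 + F₂.app x v.2) (w, 0) := by
          dsimp only
          rw [hvw]
        exact congrArg Prod.fst ((hb x).1 h2)
      have h2 : ∀ x, Function.Injective (F₂.app x) := by
        intro x v w hvw
        have h2 : (fun v : V₁.fib x × V₂.fib x => F₁.app x v.1 + F₂.app x v.2) (0, v) =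
            (fun v : V₁.fib x × V₂.fib x => F₁.app x v.1 + F₂.app x v.2) (0, w) := by
          dsimp only
          rw [hvw]
        exact congrArg Prod.snd ((hb x).1 h2)
      have hG1 : ∀ x, Function.Injective ((compT F₁ G).app x) := fun x => (hG x).comp (h1 x)
      have hG2 : ∀ x, Function.Injective ((compT F₂ G).app x) := fun x => (hG x).comp (h2 x)
      have hw := PC.whitney (fam (compT F₁ G) hG1) (fam (compT F₂ G) hG2) k
      have hm : PC.c ((fam (compT F₁ G) hG1).dsum (fam (compT F₂ G) hG2)) k =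
          PC.c (fam G hG) k := by
        rw [PC.map _ (fam G hG) (ContinuousMap.id X)
          (fun _ => Matrix.fromCols (1 : Matrix (Fin n) (Fin n) ℂ) 1) continuous_const ?_ ?_ k,
          H.pb_id']
        · intro x v hv
          obtain ⟨h3, h4⟩ := dsum_fix hv
          obtain ⟨v1, hv1⟩ := (fam_fix hG1 x _).mp h3
          obtain ⟨v2, hv2⟩ := (fam_fix hG2 x _).mp h4
          refine (fam_fix hG x _).mpr ⟨F₁.app x v1 + F₂.app x v2, ?_⟩
          rw [Matrix.fromCols_mulVec, Matrix.one_mulVec, Matrix.one_mulVec, ← hv1, ← hv2]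
          exact (G.app x).map_add (F₁.app x v1) (F₂.app x v2)
        · intro x v hv h0
          obtain ⟨h3, h4⟩ := dsum_fix hv
          obtain ⟨v1, hv1⟩ := (fam_fix hG1 x _).mp h3
          obtain ⟨v2, hv2⟩ := (fam_fix hG2 x _).mp h4
          rw [Matrix.fromCols_mulVec, Matrix.one_mulVec, Matrix.one_mulVec, ← hv1, ← hv2] at h0
          have h5 : G.app x (F₁.app x v1 + F₂.app x v2) = G.app x 0 :=
            ((G.app x).map_add (F₁.app x v1) (F₂.app x v2)).trans
              (h0.trans (map_zero (G.app x)).symm)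
          have h6 : (v1, v2) = (0 : V₁.fib x × V₂.fib x) := by
            refine (hb x).1 ?_
            change F₁.app x v1 + F₂.app x v2 = F₁.app x 0 + F₂.app x 0
            rw [map_zero, map_zero, add_zero]
            exact hG x h5
          have h7 : v1 = 0 := congrArg Prod.fst h6
          have h8 : v2 = 0 := congrArg Prod.snd h6
          funext a
          rcases a with a | a
          · have := congrFun hv1 a
            rw [h7, map_zero] at this
            exact this.symm
          · have := congrFun hv2 a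
            rw [h8, map_zero] at this
            exact this.symm
      rw [chern_eq PC hG, ← hm, hw]
      refine Finset.sum_congr rfl fun i _ => ?_
      rw [chern_eq PC hG1, chern_eq PC hG2]
  · intro V F hF u
    have hF1 : ∀ x, Function.Injective (F.app x) := fun x => (hF x).1
    obtain ⟨n, hn⟩ := PC.taut u
    refine ⟨n, ?_⟩
    rw [hn, chern_eq PC hF1]
    congr 1
    symm
    rw [PC.map (fam F hF1) PF.taut (ContinuousMap.id CP1) (fun _ => 1) continuous_const ?_ ?_ 1,
      H.pb_id']
    · intro x v hv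
      obtain ⟨w, hw⟩ := (fam_fix hF1 x v).mp hv
      have h1 : v ∈ Set.range (fun v : Fin 2 → ℂ => x.1.mulVec v) := by
        rw [← (hF x).2]
        exact ⟨w, hw⟩
      obtain ⟨v', rfl⟩ := h1
      rw [Matrix.one_mulVec]
      exact PF.taut.mul_mulVec_self x v'
    · intro x v _ h0
      rwa [Matrix.one_mulVec] at h0

end Transfer

end

end Pool.Agent.Lib.MP_904b2a_gt.Tr
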