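import Pool.Agent.Lib.MP_904b2a_gt.H1.Skel

/-!
# MP_904b2a_gt, module CW: extension of continuous maps from a skeleton to the next one
-/

open Metric Set Topology

set_option linter.unusedSectionVars false

namespace Pool.Agent.Lib.MP_904b2a_gt

noncomputable section

section

variable {X : Type} [TopologicalSpace X] [T2Space X] {C : Set X} [CWComplex C]

open CWComplex

theorem cell_inj {k : ℕ} {i j : cell C k} {x y : Fin k → ℝ} (hx : ‖x‖ < 1) (hy : ‖y‖ < 1)
    (h : map k i x = map k j y) : i = j ∧ x = y := by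
  obtain ⟨h1, h2⟩ := (skelAttach C k).inj i j ⟨x, mem_closedBall_zero_iff.2 hx.le⟩
    ⟨y, mem_closedBall_zero_iff.2 hy.le⟩ hx hy (Subtype.ext h)
  exact ⟨h1, congrArg Subtype.val h2⟩

/-- A map on the `k`-skeleton and maps on the `k`-cells which agree on the boundaries. -/
theorem exists_ext {W : Type*} {k : ℕ} (f : X → W) (g : cell C k → (Fin k → ℝ) → W)
    (h : ∀ j x, ‖x‖ = 1 → g j x = f (map k j x)) :
    ∃ F : X → W, (∀ x ∈ SK C k, F x = f x) ∧
      ∀ (j : cell C k) x, ‖x‖ ≤ 1 → F (map k j x) = g j x := by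
  classical
  let F : X → W := fun x =>
    if x ∈ SK C k then f x
    else if hx : ∃ p : cell C k × (Fin k → ℝ), ‖p.2‖ < 1 ∧ map k p.1 p.2 = x then
      g hx.choose.1 hx.choose.2
    else f x
  refine ⟨F, fun x hx => if_pos hx, fun j x hx => ?_⟩
  rcases hx.lt_or_eq with hx | hx
  · have h1 : map k j x ∉ SK C k := openCell_disjoint_SK le_rfl (map_mem_openCell j hx)
    have h2 : ∃ p : cell C k × (Fin k → ℝ), ‖p.2‖ < 1 ∧ map k p.1 p.2 = map k j x :=
      ⟨(j, x), hx, rfl⟩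
    have h3 : F (map k j x) = g h2.choose.1 h2.choose.2 := by
      simp only [F]
      rw [if_neg h1, dif_pos h2]
    obtain ⟨h4, h5⟩ := cell_inj h2.choose_spec.1 hx h2.choose_spec.2
    rw [h3, h4, h5]
  · have h1 : map k j x ∈ SK C k := map_mem_SK j hx
    have h3 : F (map k j x) = f (map k j x) := if_pos h1
    rw [h3, h j x hx]

/-- Continuous version. -/
theorem exists_ext_cont {W : Type*} [TopologicalSpace W] {k : ℕ} (f : X → W)
    (g : cell C k → (Fin k → ℝ) → W)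
    (hf : ContinuousOn f (SK C k)) (hg : ∀ j, ContinuousOn (g j) (closedBall 0 1))
    (h : ∀ j x, ‖x‖ = 1 → g j x = f (map k j x)) :
    ∃ F : X → W, ContinuousOn F (SK C (k + 1)) ∧ (∀ x ∈ SK C k, F x = f x) ∧
      ∀ (j : cell C k) x, ‖x‖ ≤ 1 → F (map k j x) = g j x := by
  obtain ⟨F, h1, h2⟩ := exists_ext f g h
  refine ⟨F, continuousOn_SK_succ (hf.congr h1) fun j => ?_, h1, h2⟩
  exact (hg j).congr fun x hx => h2 j x (mem_closedBall_zero_iff.1 hx)

/-- Every point of the next skeleton is in the old one or in an open cell. -/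
theorem cases_SK {k : ℕ} {x : X} (hx : x ∈ SK C (k + 1)) :
    x ∈ SK C k ∨ ∃ (j : cell C k) (y : Fin k → ℝ), ‖y‖ < 1 ∧ map k j y = x := by
  rcases mem_SK_succ.1 hx with h | ⟨j, y, hy, h⟩
  · exact Or.inl h
  · exact Or.inr ⟨j, y, mem_ball_zero_iff.1 hy, h⟩

end

/-! ## Radial coordinates -/

/-- The radial projection to the unit sphere. -/
def rad {k : ℕ} (y : Fin k → ℝ) : Fin k → ℝ := ‖y‖⁻¹ • y

theorem norm_rad {k : ℕ} {y : Fin k → ℝ} (hy : y ≠ 0) : ‖rad y‖ = 1 := by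
  rw [rad, norm_smul, norm_inv, norm_norm, inv_mul_cancel₀ (norm_ne_zero_iff.2 hy)]

theorem norm_rad' {k : ℕ} {y : Fin k → ℝ} (hy : 0 < ‖y‖) : ‖rad y‖ = 1 :=
  norm_rad (norm_pos_iff.1 hy)

theorem rad_of_norm {k : ℕ} {y : Fin k → ℝ} (hy : ‖y‖ = 1) : rad y = y := by
  rw [rad, hy, inv_one, one_smul]

theorem rad_smul {k : ℕ} {y : Fin k → ℝ} {c : ℝ} (hc : 0 < c) : rad (c • y) = rad y := by
  rw [rad, rad, norm_smul, Real.norm_of_nonneg hc.le, smul_smul, mul_inv]
  congr 1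
  field_simp

theorem continuousOn_rad {k : ℕ} {S : Set (Fin k → ℝ)} (hS : ∀ y ∈ S, 0 < ‖y‖) :
    ContinuousOn (rad (k := k)) S :=
  ContinuousOn.smul (continuous_norm.continuousOn.inv₀ fun y hy => (hS y hy).ne')
    continuousOn_id

end

end Pool.Agent.Lib.MP_904b2a_gt
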