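import Pool.Agent.Lib.MP_904b2a_gt.Interfaces

/-!
# MP_904b2a_gt, module CW: glueing continuous maps on a space with attached cells
-/

open Metric Set Topology

namespace Pool.Agent.Lib.MP_904b2a_gt

noncomputable section

namespace CellAttach

variable {k : ℕ} {Z' : Type} [TopologicalSpace Z'] {Z : Set Z'} {ι : Type}
  (c : CellAttach k Z' Z ι) {W : Type*}

/-- The points outside `Z` lie in a unique open cell. -/
theorem exists_cell {z : Z'} (hz : z ∉ Z) : ∃ p : ι × CB k, ‖p.2.1‖ < 1 ∧ c.χ p.1 p.2 = z := by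
  obtain h | ⟨τ, x, hx, h⟩ := c.cover z
  · exact absurd h hz
  · exact ⟨(τ, x), hx, h⟩

open Classical in
/-- The map glued from a map on `Z` and maps on the cells. -/
def glueFun (f : Z → W) (g : ι → CB k → W) (z : Z') : W :=
  if hz : z ∈ Z then f ⟨z, hz⟩
  else g (c.exists_cell hz).choose.1 (c.exists_cell hz).choose.2

theorem glueFun_of_mem (f : Z → W) (g : ι → CB k → W) {z : Z'} (hz : z ∈ Z) :
    c.glueFun f g z = f ⟨z, hz⟩ := by
  rw [glueFun, dif_pos hz]

theorem glueFun_χ {f : Z → W} {g : ι → CB k → W}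
    (h : ∀ τ (x : CB k) (hx : ‖x.1‖ = 1), g τ x = f ⟨c.χ τ x, c.bdry τ x hx⟩) (τ : ι)
    (x : CB k) : c.glueFun f g (c.χ τ x) = g τ x := by
  rcases (mem_closedBall_zero_iff.1 x.2).lt_or_eq with hx | hx
  · have hz := c.int τ x hx
    rw [glueFun, dif_neg hz]
    have h1 := (c.exists_cell hz).choose_spec
    obtain ⟨h2, h3⟩ := c.inj _ _ _ _ h1.1 hx h1.2
    rw [h3, h2]
  · rw [glueFun_of_mem c f g (c.bdry τ x hx), h τ x hx]

theorem continuous_glueFun [TopologicalSpace W] {f : Z → W} {g : ι → CB k → W}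
    (hf : Continuous f) (hg : ∀ τ, Continuous (g τ))
    (h : ∀ τ (x : CB k) (hx : ‖x.1‖ = 1), g τ x = f ⟨c.χ τ x, c.bdry τ x hx⟩) :
    Continuous (c.glueFun f g) := by
  rw [continuous_iff_isClosed]
  intro A hA
  refine c.closed_of _ ?_ fun τ => ?_
  · have h1 : c.glueFun f g ⁻¹' A ∩ Z = Subtype.val '' (f ⁻¹' A) := by
      ext z
      constructor
      · rintro ⟨hz1, hz2⟩
        refine ⟨⟨z, hz2⟩, ?_, rfl⟩
        rw [mem_preimage, glueFun_of_mem c f g hz2] at hz1
        exact hz1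
      · rintro ⟨⟨z, hz⟩, h1, rfl⟩
        refine ⟨?_, hz⟩
        rw [mem_preimage, glueFun_of_mem c f g hz]
        exact h1
    rw [h1]
    exact c.isClosed.isClosedEmbedding_subtypeVal.isClosedMap _ (hA.preimage hf)
  · have h1 : c.χ τ ⁻¹' (c.glueFun f g ⁻¹' A) = g τ ⁻¹' A := by
      ext x
      rw [mem_preimage, mem_preimage, mem_preimage, glueFun_χ c h]
    rw [h1]
    exact hA.preimage (hg τ)

end CellAttach

/-- Module CW3. -/
theorem glueStatement : GlueStatement := by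
  intro k Z' _ Z ι c W _ f g h
  exact ⟨⟨c.glueFun f fun τ => g τ, c.continuous_glueFun f.continuous
    (fun τ => (g τ).continuous) h⟩, fun z => c.glueFun_of_mem f (fun τ => g τ) z.2,
    fun τ x => c.glueFun_χ h τ x⟩

end

end Pool.Agent.Lib.MP_904b2a_gt
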