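import Pool.Agent.Lib.MP_904b2a_gt.Coh

/-!
# MP_904b2a_gt, LEMMA A, part 1: algebra and cochains (steps 1, 2, 5 of BlueprintLemmaA)
-/

open scoped BigOperators
open Finset

namespace Pool.Agent.Lib.MP_904b2a_gt.LA

noncomputable section

/-! ### The group `Ah` -/

/-- The integer sequences which, for every `m`, are divisible by `m` on a set of the
ultrafilter. -/
def J : AddSubgroup (ℕ → ℤ) where
  carrier := {a | ∀ m : ℕ, 1 ≤ m → ∀ᶠ k in (Filter.hyperfilter ℕ : Filter ℕ), (m : ℤ) ∣ a k}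
  zero_mem' := fun m _ => Filter.Eventually.of_forall fun k => dvd_zero _
  add_mem' := fun ha hb m hm => (ha m hm).mp ((hb m hm).mono fun k h1 h2 => dvd_add h2 h1)
  neg_mem' := fun ha m hm => (ha m hm).mono fun k h => by
    rw [Pi.neg_apply]
    exact (dvd_neg).mpr h

theorem mem_J {a : ℕ → ℤ} : a ∈ J ↔
    ∀ m : ℕ, 1 ≤ m → ∀ᶠ k in (Filter.hyperfilter ℕ : Filter ℕ), (m : ℤ) ∣ a k := Iff.rfl

/-- The coefficient group. -/
def Ah : Type := (ℕ → ℤ) ⧸ J

instance : AddCommGroup Ah := inferInstanceAs (AddCommGroup ((ℕ → ℤ) ⧸ J))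

/-- The class of a sequence. -/
def mkA : (ℕ → ℤ) →+ Ah := QuotientAddGroup.mk' J

theorem mkA_surjective : Function.Surjective mkA := QuotientAddGroup.mk'_surjective J

/-- The diagonal. -/
def iA : ℤ →+ Ah := mkA.comp (Pi.constAddMonoidHom ℕ ℤ)

theorem iA_apply (z : ℤ) : iA z = mkA (fun _ => z) := rfl

theorem mkA_eq_zero {a : ℕ → ℤ} : mkA a = 0 ↔ a ∈ J := QuotientAddGroup.eq_zero_iff a

theorem mkA_eq {a b : ℕ → ℤ} : mkA a = mkA b ↔ a - b ∈ J := by
  rw [← sub_eq_zero, ← map_sub, mkA_eq_zero]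

theorem iA_injective : Function.Injective iA := by
  rw [injective_iff_map_eq_zero]
  intro z hz
  rw [iA_apply, mkA_eq_zero, mem_J] at hz
  have h := (hz (z.natAbs + 1) (by omega)).exists
  obtain ⟨_, h⟩ := h
  by_contra hne
  have h2 := Int.natAbs_dvd_natAbs.mpr h
  have h3 := Nat.le_of_dvd (Int.natAbs_pos.mpr hne) h2
  rw [Int.natAbs_natCast] at h3
  omega

/-- The quotient `E = Ah/ℤ`. -/
def EE : Type := Ah ⧸ iA.range

instance : AddCommGroup EE := inferInstanceAs (AddCommGroup (Ah ⧸ iA.range))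

/-- The projection. -/
def pA : Ah →+ EE := QuotientAddGroup.mk' iA.range

theorem pA_surjective : Function.Surjective pA := QuotientAddGroup.mk'_surjective _

theorem pA_eq_zero {a : Ah} : pA a = 0 ↔ ∃ z, iA z = a :=
  (QuotientAddGroup.eq_zero_iff a).trans Iff.rfl

theorem pA_iA (z : ℤ) : pA (iA z) = 0 := pA_eq_zero.mpr ⟨z, rfl⟩

/-- `E` is torsion free. -/
theorem EE_torsionFree {k : ℤ} (hk : k ≠ 0) {e : EE} (h : k • e = 0) : e = 0 := by
  obtain ⟨a, rfl⟩ := pA_surjective e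
  obtain ⟨a, rfl⟩ := mkA_surjective a
  rw [← map_zsmul, pA_eq_zero] at h
  obtain ⟨z, hz⟩ := h
  rw [iA_apply, ← map_zsmul, mkA_eq, mem_J] at hz
  have hk' : 1 ≤ k.natAbs := Int.natAbs_pos.mpr hk
  obtain ⟨j, hj⟩ := (hz k.natAbs hk').exists
  have h1 : k ∣ z := by
    have h2 : k ∣ z - k • a j := by
      have : ((k.natAbs : ℕ) : ℤ) ∣ z - (k • a) j := hj
      rw [Int.natCast_natAbs, abs_dvd] at this
      exact this
    rw [smul_eq_mul] at h2
    have h3 := dvd_add h2 (dvd_mul_right k (a j))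
    rwa [sub_add_cancel] at h3
  obtain ⟨z', rfl⟩ := h1
  rw [pA_eq_zero]
  refine ⟨z', ?_⟩
  rw [iA_apply]
  refine mkA_eq.mpr (mem_J.mpr fun m hm => ?_)
  refine (hz (m * k.natAbs) (Nat.mul_pos hm hk')).mono fun j hj => ?_
  have h3 : ((m * k.natAbs : ℕ) : ℤ) ∣ k * z' - k * a j := hj
  rw [← mul_sub, Nat.cast_mul, Int.natCast_natAbs, mul_comm (m : ℤ)] at h3
  have h4 : |k| * (m : ℤ) ∣ |k| * (z' - a j) := by
    rcases abs_choice k with h | h
    · rw [h] at h3 ⊢
      exact h3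
    · rw [h] at h3 ⊢
      rw [neg_mul (b := z' - a j)]
      exact (dvd_neg).mpr h3
  exact (mul_dvd_mul_iff_left (abs_ne_zero.mpr hk)).mp h4

/-- `E` is divisible. -/
theorem EE_divisible {k : ℤ} (hk : k ≠ 0) (e : EE) : ∃ f : EE, k • f = e := by
  obtain ⟨a, rfl⟩ := pA_surjective e
  obtain ⟨a, rfl⟩ := mkA_surjective a
  -- the residue of `a j` modulo `k` is constant on a set of the ultrafilter
  obtain ⟨r, hr⟩ : ∃ r : ℤ, ∀ᶠ j in (Filter.hyperfilter ℕ : Filter ℕ), a j % k = r := by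
    have hfin : (Set.Finite {r : ℤ | 0 ≤ r ∧ r < |k|}) := (Set.finite_Ico (0 : ℤ) |k|)
    have h1 : ∀ᶠ j in (Filter.hyperfilter ℕ : Filter ℕ),
        ∃ r ∈ {r : ℤ | 0 ≤ r ∧ r < |k|}, a j % k = r :=
      Filter.Eventually.of_forall fun j =>
        ⟨a j % k, ⟨Int.emod_nonneg _ hk, Int.emod_lt_abs _ hk⟩, rfl⟩
    rw [Ultrafilter.eventually_exists_mem_iff hfin] at h1
    obtain ⟨r, _, h⟩ := h1
    exact ⟨r, h⟩
  refine ⟨pA (mkA (fun j => a j / k)), ?_⟩
  rw [← map_zsmul, ← sub_eq_zero, ← map_sub, pA_eq_zero]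
  refine ⟨-r, ?_⟩
  rw [iA_apply, ← map_zsmul, ← map_sub]
  refine mkA_eq.mpr (mem_J.mpr fun m _ => hr.mono fun j hj => ?_)
  have h2 : -r - (k * (a j / k) - a j) = 0 := by
    have h3 := Int.emod_add_mul_ediv (a j) k
    rw [← hj]
    linarith
  change (m : ℤ) ∣ -r - (k * (a j / k) - a j)
  rw [h2]
  exact dvd_zero _

/-! ### The filtration of a torsion free divisible group -/

/-- A torsion free divisible group is an increasing union of free groups. -/
theorem exists_filtration {E : Type} [AddCommGroup E]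
    (h1 : ∀ {k : ℤ}, k ≠ 0 → ∀ {e : E}, k • e = 0 → e = 0)
    (h2 : ∀ {k : ℤ}, k ≠ 0 → ∀ e : E, ∃ f : E, k • f = e) :
    ∃ F : ℕ → AddSubgroup E, Monotone F ∧ (∀ e, ∃ m, e ∈ F m) ∧
      ∀ (m : ℕ) (A : Type) [AddCommGroup A] (p : A →+ E), Function.Surjective p →
        ∃ s : F m →+ A, ∀ x, p (s x) = x := by
  obtain ⟨s, hs, hmax⟩ := exists_maximal_linearIndepOn ℤ (id : E → E)
  have hmax' : ∀ e : E, ∃ k : ℤ, k ≠ 0 ∧ k • e ∈ Submodule.span ℤ s := by
    intro e
    by_cases he : e ∈ s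
    · exact ⟨1, one_ne_zero, by rw [one_smul]; exact Submodule.subset_span he⟩
    · obtain ⟨a, ha, h⟩ := hmax e he
      rw [Set.image_id] at h
      exact ⟨a, ha, h⟩
  let F : ℕ → AddSubgroup E := fun m =>
    (Submodule.span ℤ s).toAddSubgroup.comap (zsmulAddGroupHom (m.factorial : ℤ))
  have hF : ∀ m e, e ∈ F m ↔ (m.factorial : ℤ) • e ∈ Submodule.span ℤ s := fun m e => Iff.rfl
  refine ⟨F, ?_, ?_, ?_⟩
  · refine monotone_nat_of_le_succ fun m e he => ?_
    rw [hF] at he ⊢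
    rw [Nat.factorial_succ, Nat.cast_mul, mul_smul]
    exact Submodule.smul_mem _ _ he
  · intro e
    obtain ⟨k, hk, h⟩ := hmax' e
    refine ⟨k.natAbs, ?_⟩
    rw [hF]
    obtain ⟨c, hc⟩ : k ∣ (k.natAbs.factorial : ℤ) := by
      have h3 : k.natAbs ∣ k.natAbs.factorial :=
        Nat.dvd_factorial (Int.natAbs_pos.mpr hk) le_rfl
      have h4 : ((k.natAbs : ℕ) : ℤ) ∣ (k.natAbs.factorial : ℤ) := by exact_mod_cast h3
      rwa [Int.natCast_natAbs, abs_dvd] at h4
    rw [hc, mul_comm, mul_smul]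
    exact Submodule.smul_mem _ _ h
  · intro m A _ p hp
    have hm : (m.factorial : ℤ) ≠ 0 := by exact_mod_cast m.factorial_ne_zero
    -- multiplication by `m!` identifies `F m` with the span
    let g : F m →ₗ[ℤ] Submodule.span ℤ s :=
      { toFun := fun x => ⟨(m.factorial : ℤ) • (x : E), x.2⟩
        map_add' := fun x y => Subtype.ext (by
          change (m.factorial : ℤ) • ((x : E) + y) = (m.factorial : ℤ) • (x : E) +
            (m.factorial : ℤ) • (y : E)
          rw [smul_add])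
        map_smul' := fun k x => Subtype.ext (by
          change (m.factorial : ℤ) • (k • (x : E)) = k • ((m.factorial : ℤ) • (x : E))
          rw [smul_comm]) }
    have hg : Function.Bijective g := by
      constructor
      · rw [injective_iff_map_eq_zero]
        intro x hx
        have h3 : (m.factorial : ℤ) • (x : E) = 0 := congrArg Subtype.val hx
        exact Subtype.ext (h1 hm h3)
      · intro y
        obtain ⟨f, hf⟩ := h2 hm (y : E)
        refine ⟨⟨f, ?_⟩, Subtype.ext hf⟩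
        rw [hF, hf]
        exact y.2
    have hs' : LinearIndependent ℤ (fun x : s => (x : E)) := hs
    have hproj : Module.Projective ℤ (Submodule.span ℤ s) := by
      have hb := Module.Basis.span hs'
      have h5 : Set.range (fun x : s => (x : E)) = s := Subtype.range_coe
      rw [h5] at hb
      exact Module.Projective.of_basis hb
    have hproj2 : Module.Projective ℤ (F m) :=
      Module.Projective.of_equiv (LinearEquiv.ofBijective g hg).symm
    obtain ⟨t, ht⟩ := Module.projective_lifting_property (R := ℤ) (P := F m)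
      p.toIntLinearMap (F m).subtype.toIntLinearMap hp
    exact ⟨t.toAddMonoidHom, fun x => LinearMap.congr_fun ht x⟩

/-! ### Cochains -/

section Coch

variable {X : Type*} [TopologicalSpace X] {A B : Type*} [AddCommGroup A] [AddCommGroup B]

theorem cmC_apply {n : ℕ} (h : A →+ B) (φ : Coch n X A) (σ : C(Simp n, X)) :
    cmC n h φ σ = h (φ σ) := rfl

theorem cmC_injective {n : ℕ} {h : A →+ B} (hh : Function.Injective h) :
    Function.Injective (cmC n h : Coch n X A → Coch n X B) :=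
  fun _ _ e => funext fun σ => hh (congrFun e σ)

theorem exists_cmC {n : ℕ} {h : A →+ B} (hh : Function.Surjective h) (φ : Coch n X B) :
    ∃ ψ : Coch n X A, cmC n h ψ = φ := by
  choose ψ hψ using fun σ => hh (φ σ)
  exact ⟨ψ, funext hψ⟩

theorem exists_iA {n : ℕ} {φ : Coch n X Ah} (h : cmC n pA φ = 0) :
    ∃ θ : Coch n X ℤ, cmC n iA θ = φ := by
  choose θ hθ using fun σ => pA_eq_zero.mp (congrFun h σ)
  exact ⟨θ, funext hθ⟩

theorem cmC_pA_iA {n : ℕ} (θ : Coch n X ℤ) : cmC n pA (cmC n iA θ) = 0 :=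
  funext fun σ => pA_iA (θ σ)

/-- Step 1. -/
theorem exists_eta {n : ℕ} (γ : Coch (n + 1) X ℤ)
    (h : ∀ m : ℕ, 1 ≤ m → cmC (n + 1) (Int.castAddHom (ZMod m)) γ ∈
      coboundaries X (ZMod m) (n + 1)) :
    ∃ η : Coch n X Ah, cob n η = cmC (n + 1) iA γ := by
  have h1 : ∀ m : ℕ, ∃ ψ : Coch n X ℤ, ∀ τ, (m.factorial : ℤ) ∣ cob n ψ τ - γ τ := by
    intro m
    obtain ⟨ψ, hψ⟩ := h m.factorial m.factorial_pos
    obtain ⟨ψ', hψ'⟩ := exists_cmC (h := Int.castAddHom (ZMod m.factorial))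
      (ZMod.intCast_surjective) ψ
    refine ⟨ψ', fun τ => ?_⟩
    rw [← hψ', ← cmC_cob] at hψ
    have h2 := congrFun hψ τ
    rw [cmC_apply, cmC_apply] at h2
    have h3 : ((cob n ψ' τ : ℤ) : ZMod m.factorial) = ((γ τ : ℤ) : ZMod m.factorial) := h2
    have h4 : (((cob n ψ' τ - γ τ : ℤ)) : ZMod m.factorial) = 0 := by
      rw [Int.cast_sub, h3, sub_self]
    exact (ZMod.intCast_zmod_eq_zero_iff_dvd _ _).mp h4
  choose ψ hψ using h1
  refine ⟨fun σ => mkA (fun m => ψ m σ), ?_⟩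
  funext τ
  rw [cob_apply, cmC_apply, iA_apply]
  have h3 : ∑ i ∈ range (n + 2), (-1 : ℤ) ^ i • mkA (fun m => ψ m (τ.comp (smap (fv n i)))) =
      mkA (fun m => cob n (ψ m) τ) := by
    simp only [← map_zsmul, ← map_sum]
    congr 1
    funext m
    rw [Finset.sum_apply, cob_apply]
    rfl
  rw [h3, mkA_eq, mem_J]
  intro m hm
  have h4 : ∀ᶠ k in (Filter.hyperfilter ℕ : Filter ℕ), m ≤ k := by
    exact Nat.hyperfilter_le_atTop (Filter.eventually_ge_atTop m)
  refine h4.mono fun k hk => ?_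
  refine dvd_trans ?_ (hψ k τ)
  exact_mod_cast Nat.dvd_factorial hm hk

/-- Steps 1 and 2: division by `D`. -/
theorem exists_div {n : ℕ} (c : H (n + 1) X ℤ)
    (hc : ∀ m : ℕ, 1 ≤ m → H.cm (Int.castAddHom (ZMod m)) c = 0) {D : ℤ} (hD : D ≠ 0) :
    ∃ (η : Coch n X Ah) (γ : cocycles X ℤ (n + 1)), cob n η = cmC (n + 1) iA γ ∧
      D • H.mk (n + 1) γ = c := by
  obtain ⟨γ, rfl⟩ := H.mk_surjective _ c
  obtain ⟨η, hη⟩ := exists_eta γ.1 (fun m hm => by
    have := hc m hm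
    rw [H.cm_mk, H.mk_eq_zero] at this
    exact this)
  choose f hf using fun σ => EE_divisible hD (pA (η σ))
  obtain ⟨η', hη'⟩ := exists_cmC pA_surjective (f : Coch n X EE)
  have h1 : D • cmC n pA η' = cmC n pA η := by
    rw [hη']
    funext σ
    exact hf σ
  have h2 : cmC (n + 1) pA (cob n η') = 0 := by
    have h3 : D • cmC (n + 1) pA (cob n η') = 0 := by
      rw [cmC_cob, ← map_zsmul, h1, ← cmC_cob, hη, cmC_pA_iA]
    funext σ
    exact EE_torsionFree hD (congrFun h3 σ)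
  obtain ⟨γ', hγ'⟩ := exists_iA h2
  have h4 : γ' ∈ cocycles X ℤ (n + 1) := by
    change cob (n + 1) γ' = 0
    apply cmC_injective iA_injective
    rw [cmC_cob, hγ', cob_cob, map_zero]
  refine ⟨η', ⟨γ', h4⟩, hγ'.symm, ?_⟩
  obtain ⟨θ, hθ⟩ := exists_iA (φ := D • η' - η) (by rw [map_sub, map_zsmul, h1, sub_self])
  rw [← map_zsmul, H.mk_eq_mk]
  refine ⟨θ, ?_⟩
  apply cmC_injective iA_injective
  rw [cmC_cob, hθ, map_sub, map_zsmul, hη]
  change _ = cmC (n + 1) iA (D • γ' - γ.1)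
  rw [map_sub, map_zsmul, hγ']

/-- Step 5. -/
theorem eq_zero_of_lift {n : ℕ} {η : Coch (n + 1) X Ah} {γ : cocycles X ℤ (n + 2)}
    (hη : cob (n + 1) η = cmC (n + 2) iA γ) {F : AddSubgroup EE} (s : F →+ Ah)
    (hs : ∀ x, pA (s x) = x) {ε : Coch (n + 1) X F} (hε : cob (n + 1) ε = 0) {ζ : Coch n X EE}
    (h : cmC (n + 1) pA η - cmC (n + 1) F.subtype ε = cob n ζ) : H.mk (n + 2) γ = 0 := by
  obtain ⟨ζ', rfl⟩ := exists_cmC pA_surjective ζ
  obtain ⟨θ, hθ⟩ := exists_iA (φ := η - cmC (n + 1) s ε - cob n ζ') (by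
    rw [map_sub, map_sub, cmC_cob, ← h]
    have h1 : cmC (n + 1) pA (cmC (n + 1) s ε) = cmC (n + 1) F.subtype ε :=
      funext fun σ => hs (ε σ)
    rw [h1, sub_self])
  rw [H.mk_eq_zero]
  refine ⟨θ, ?_⟩
  apply cmC_injective iA_injective
  rw [cmC_cob, hθ, map_sub, map_sub, cob_cob, sub_zero, ← cmC_cob, hε, map_zero, sub_zero, hη]

end Coch

end

end Pool.Agent.Lib.MP_904b2a_gt.LA
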