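import Pool.Agent.Lib.MP_904b2a_gt.Interfaces

/-!
# MP_904b2a_gt, module CW: the skeleta of a CW complex
-/

open Metric Set Topology

set_option linter.unusedSectionVars false

namespace Pool.Agent.Lib.MP_904b2a_gt

noncomputable section

section

variable {X : Type} [TopologicalSpace X] [T2Space X] {C : Set X} [CWComplex C]

open CWComplex

/-- The `k`-skeleton (cells of dimension `< k`). -/
abbrev SK (C : Set X) [CWComplex C] (k : ℕ) : Set X := (skeletonLT C k : Set X)

theorem SK_mono {m n : ℕ} (h : m ≤ n) : SK C m ⊆ SK C n :=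
  RelCWComplex.skeletonLT_mono (by exact_mod_cast h)

theorem mem_SK {k : ℕ} {x : X} : x ∈ SK C k ↔ ∃ m < k, ∃ j : cell C m, x ∈ openCell m j := by
  rw [SetLike.mem_coe, CWComplex.mem_skeletonLT_iff]
  simp only [ENat.natCast_lt_natCast, exists_prop]

theorem SK_zero : SK C 0 = ∅ := by
  change ((skeletonLT C ((0 : ℕ) : ℕ∞)) : Set X) = ∅
  rw [Nat.cast_zero]
  exact CWComplex.skeletonLT_zero_eq_empty

theorem mem_SK_succ {k : ℕ} {x : X} :
    x ∈ SK C (k + 1) ↔ x ∈ SK C k ∨ ∃ j : cell C k, x ∈ openCell k j := by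
  rw [mem_SK, mem_SK]
  constructor
  · rintro ⟨m, hm, j, hj⟩
    rcases Nat.lt_succ_iff_lt_or_eq.1 hm with h | rfl
    · exact Or.inl ⟨m, h, j, hj⟩
    · exact Or.inr ⟨j, hj⟩
  · rintro (⟨m, hm, j, hj⟩ | ⟨j, hj⟩)
    · exact ⟨m, by omega, j, hj⟩
    · exact ⟨k, by omega, j, hj⟩

theorem closedCell_subset_SK {m k : ℕ} (h : m < k) (j : cell C m) : closedCell m j ⊆ SK C k := by
  refine (RelCWComplex.closedCell_subset_skeletonLT m j).trans ?_
  have h1 : ((m : ℕ∞) + 1) = ((m + 1 : ℕ) : ℕ∞) := by push_cast; rfl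
  rw [h1]
  exact SK_mono h

theorem openCell_disjoint_SK {m k : ℕ} (h : k ≤ m) {j : cell C m} {x : X}
    (hx : x ∈ openCell m j) : x ∉ SK C k := by
  intro h1
  have h2 := RelCWComplex.disjoint_skeletonLT_openCell (C := C) (n := (k : ℕ∞)) (m := m) (j := j)
    (by exact_mod_cast h)
  exact Set.disjoint_left.1 h2 h1 hx

theorem frontier_subset_SK {k : ℕ} (j : cell C k) : cellFrontier k j ⊆ SK C k :=
  RelCWComplex.cellFrontier_subset_skeletonLT k j

theorem isClosed_SK (k : ℕ) : IsClosed (SK C k) := (skeletonLT C (k : ℕ∞)).closed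

theorem SK_subset (k : ℕ) : SK C k ⊆ C := RelCWComplex.Subcomplex.subset_complex _

theorem map_mem_openCell {k : ℕ} (j : cell C k) {x : Fin k → ℝ} (hx : ‖x‖ < 1) :
    map k j x ∈ openCell k j := mem_image_of_mem _ (mem_ball_zero_iff.2 hx)

theorem map_mem_closedCell {k : ℕ} (j : cell C k) {x : Fin k → ℝ} (hx : ‖x‖ ≤ 1) :
    map k j x ∈ closedCell k j := mem_image_of_mem _ (mem_closedBall_zero_iff.2 hx)

theorem map_mem_frontier {k : ℕ} (j : cell C k) {x : Fin k → ℝ} (hx : ‖x‖ = 1) :
    map k j x ∈ cellFrontier k j := mem_image_of_mem _ (mem_sphere_zero_iff_norm.2 hx)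

theorem map_mem_SK {k : ℕ} (j : cell C k) {x : Fin k → ℝ} (hx : ‖x‖ = 1) :
    map k j x ∈ SK C k := frontier_subset_SK j (map_mem_frontier j hx)

/-- The weak topology, for subsets of a skeleton. -/
theorem isClosed_of_SK_succ {k : ℕ} {A : Set X} (hA : A ⊆ SK C (k + 1))
    (h1 : IsClosed (A ∩ SK C k)) (h2 : ∀ j : cell C k, IsClosed (A ∩ closedCell k j)) :
    IsClosed A := by
  refine CWComplex.isClosed_of_disjoint_openCell_or_isClosed_inter_closedCell
    (hA.trans (SK_subset _)) fun n _ j => ?_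
  rcases lt_trichotomy n k with h | rfl | h
  · right
    have h3 : A ∩ closedCell n j = A ∩ SK C k ∩ closedCell n j := by
      rw [inter_assoc, inter_eq_right.2 (closedCell_subset_SK h j)]
    rw [h3]
    exact h1.inter RelCWComplex.isClosed_closedCell
  · exact Or.inr (h2 j)
  · left
    exact Set.disjoint_left.2 fun x hx hx' => openCell_disjoint_SK h hx' (hA hx)

/-- A function on a skeleton is continuous if it is continuous on the previous one and on the
cells. -/
theorem continuousOn_SK_succ {W : Type*} [TopologicalSpace W] {k : ℕ} {f : X → W}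
    (h1 : ContinuousOn f (SK C k))
    (h2 : ∀ j : cell C k, ContinuousOn (fun x => f (map k j x)) (closedBall 0 1)) :
    ContinuousOn f (SK C (k + 1)) := by
  rw [continuousOn_iff_isClosed]
  intro t ht
  refine ⟨f ⁻¹' t ∩ SK C (k + 1), ?_, by rw [inter_assoc, inter_self]⟩
  refine isClosed_of_SK_succ inter_subset_right ?_ fun j => ?_
  · rw [inter_assoc, inter_eq_right.2 (SK_mono (Nat.le_succ k))]
    obtain ⟨u, hu, hu'⟩ := continuousOn_iff_isClosed.1 h1 t ht
    rw [hu']
    exact hu.inter (isClosed_SK k)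
  · rw [inter_assoc, inter_eq_right.2 (closedCell_subset_SK (Nat.lt_succ_self k) j)]
    obtain ⟨u, hu, hu'⟩ := continuousOn_iff_isClosed.1 (h2 j) t ht
    have h3 : f ⁻¹' t ∩ closedCell k j = map k j '' (u ∩ closedBall 0 1) := by
      rw [← hu']
      ext x
      constructor
      · rintro ⟨h3, y, hy, rfl⟩
        exact ⟨y, ⟨h3, hy⟩, rfl⟩
      · rintro ⟨y, ⟨h3, hy⟩, rfl⟩
        exact ⟨h3, mem_image_of_mem _ hy⟩
    rw [h3]
    refine IsCompact.isClosed ?_
    exact ((isCompact_closedBall 0 1).inter_left hu).image_of_continuousOn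
      ((RelCWComplex.continuousOn k j).mono inter_subset_right)

/-- The characteristic map, as a map into the skeleton. -/
def chi (C : Set X) [CWComplex C] (k : ℕ) (j : cell C k) : C(CB k, SK C (k + 1)) :=
  ⟨fun x => ⟨map k j x.1, closedCell_subset_SK (Nat.lt_succ_self k) j
    (map_mem_closedCell j (mem_closedBall_zero_iff.1 x.2))⟩,
    Continuous.subtype_mk ((RelCWComplex.continuousOn k j).domRestrict) _⟩

/-- The `(k+1)`-skeleton is obtained from the `k`-skeleton by attaching the `k`-cells. -/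
def skelAttach (C : Set X) [CWComplex C] (k : ℕ) :
    CellAttach k (SK C (k + 1)) {z | z.1 ∈ SK C k} (cell C k) where
  χ := chi C k
  isClosed := (isClosed_SK k).preimage continuous_subtype_val
  bdry τ x hx := map_mem_SK τ hx
  int τ x hx := openCell_disjoint_SK le_rfl (map_mem_openCell τ hx)
  inj τ τ' x x' hx hx' h := by
    have h1 : map k τ x.1 = map k τ' x'.1 := congrArg Subtype.val h
    have h2 : (⟨k, τ⟩ : Σ n, cell C n) = ⟨k, τ'⟩ := by
      by_contra hne
      exact Set.disjoint_left.1 (RelCWComplex.disjoint_openCell_of_ne hne)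
        (map_mem_openCell τ hx) (h1 ▸ map_mem_openCell τ' hx')
    obtain rfl : τ = τ' := by simpa using h2
    refine ⟨rfl, Subtype.ext ?_⟩
    refine (map k τ).injOn ?_ ?_ h1
    · rw [RelCWComplex.source_eq]; exact mem_ball_zero_iff.2 hx
    · rw [RelCWComplex.source_eq]; exact mem_ball_zero_iff.2 hx'
  cover z := by
    rcases mem_SK_succ.1 z.2 with h | ⟨j, y, hy, h⟩
    · exact Or.inl h
    · exact Or.inr ⟨j, ⟨y, ball_subset_closedBall hy⟩, mem_ball_zero_iff.1 hy,
        Subtype.ext h⟩
  closed_of A h1 h2 := by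
    have h3 : IsClosed (Subtype.val '' A) := by
      refine isClosed_of_SK_succ (by rintro _ ⟨z, _, rfl⟩; exact z.2) ?_ fun j => ?_
      · have h4 : Subtype.val '' A ∩ SK C k = Subtype.val '' (A ∩ {z | z.1 ∈ SK C k}) := by
          ext x
          constructor
          · rintro ⟨⟨z, hz, rfl⟩, h4⟩
            exact ⟨z, ⟨hz, h4⟩, rfl⟩
          · rintro ⟨z, ⟨hz, h4⟩, rfl⟩
            exact ⟨⟨z, hz, rfl⟩, h4⟩
        rw [h4]
        exact (isClosed_SK (k + 1)).isClosedEmbedding_subtypeVal.isClosedMap _ h1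
      · have h4 : Subtype.val '' A ∩ closedCell k j
            = (fun x : CB k => ((chi C k j x : SK C (k + 1)) : X)) '' (chi C k j ⁻¹' A) := by
          ext x
          constructor
          · rintro ⟨⟨z, hz, rfl⟩, y, hy, h4⟩
            refine ⟨⟨y, hy⟩, ?_, h4⟩
            have : chi C k j ⟨y, hy⟩ = z := Subtype.ext h4
            rw [mem_preimage, this]
            exact hz
          · rintro ⟨y, hy, rfl⟩
            exact ⟨⟨_, hy, rfl⟩, map_mem_closedCell j (mem_closedBall_zero_iff.1 y.2)⟩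
        rw [h4]
        refine IsCompact.isClosed (IsCompact.image ?_ ?_)
        · exact (h2 j).isCompact
        · exact continuous_subtype_val.comp (chi C k j).continuous
    have h4 : A = Subtype.val ⁻¹' (Subtype.val '' A) :=
      (Set.preimage_image_eq A Subtype.val_injective).symm
    rw [h4]
    exact h3.preimage continuous_subtype_val

end

end

end Pool.Agent.Lib.MP_904b2a_gt
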