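import Pool.Agent.Lib.MP_904b2a_gt.H1.Attach
import Pool.Agent.Lib.MP_904b2a_gt.H1.Skel
import Pool.Agent.Lib.MP_904b2a_gt.H1.LAalg

/-!
# MP_904b2a_gt, LEMMA A, part 2: the height function (steps 3, 4) and the conclusion
-/

open scoped BigOperators
open Finset Set Topology

namespace Pool.Agent.Lib.MP_904b2a_gt.LA

noncomputable section

open CWComplex

section Skel

variable {X : Type} [TopologicalSpace X] [T2Space X]

/-- The nested subtype, as a homeomorphism. -/
def nestHomeo {P Q : Set X} (h : P ⊆ Q) : P ≃ₜ {z : Q | z.1 ∈ P} where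
  toFun x := ⟨⟨x.1, h x.2⟩, x.2⟩
  invFun z := ⟨z.1.1, z.2⟩
  left_inv _ := rfl
  right_inv _ := rfl
  continuous_toFun := by fun_prop
  continuous_invFun := by fun_prop

variable {C : Set X} [CWComplex C] {A : Type} [AddCommGroup A]

/-- Restriction to the previous skeleton is injective in the other degrees. -/
theorem inj_succ (hR : R1Statement) {n k : ℕ} (h : n ≠ k) :
    Function.Injective (H.pb (n := n) (A := A) (inclSub (SK_mono (C := C) (Nat.le_succ k)))) := by
  have h1 := hR k _ _ _ (skelAttach C k) A n h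
  rw [injective_iff_map_eq_zero] at h1 ⊢
  intro u hu
  apply h1
  have h2 : H.pb (nestHomeo (SK_mono (C := C) (Nat.le_succ k)) :
        C(SK C k, {z : SK C (k + 1) | z.1 ∈ SK C k}))
      (H.pb (incl {z : SK C (k + 1) | z.1 ∈ SK C k}) u) = 0 := by
    rw [H.pb_comp]
    exact hu
  exact (H.pb_bijective_of_homeomorph _).1 (h2.trans (map_zero _).symm)

theorem H.eq_zero_of_isEmpty {Y : Type} [TopologicalSpace Y] [IsEmpty Y] {n : ℕ} (u : H n Y A) :
    u = 0 := by
  obtain ⟨z, rfl⟩ := H.mk_surjective n u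
  have : z = 0 := Subtype.ext (funext fun σ => isEmptyElim (σ (stdSimplex.vertex 0)))
  rw [this, map_zero]

/-- The cohomology of the skeleton vanishes above its dimension. -/
theorem skel_vanish (hR : R1Statement) {n : ℕ} : ∀ k, k ≤ n → ∀ u : H n (SK C k) A, u = 0 := by
  intro k
  induction k with
  | zero =>
    intro _ u
    have : IsEmpty (SK C 0) := by
      rw [SK_zero]
      exact Set.isEmpty_coe_sort.mpr rfl
    exact H.eq_zero_of_isEmpty u
  | succ k ih =>
    intro hk u
    apply inj_succ hR (C := C) (A := A) (show n ≠ k by omega)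
    rw [map_zero]
    exact ih (by omega) _

theorem inj_of_le (hR : R1Statement) {n k l : ℕ} (h : n < k) (hkl : k ≤ l) :
    Function.Injective (H.pb (n := n) (A := A) (inclSub (SK_mono (C := C) hkl))) := by
  induction l, hkl using Nat.le_induction with
  | base =>
    intro u v huv
    have h1 : inclSub (SK_mono (C := C) (le_refl k)) = ContinuousMap.id _ := rfl
    rwa [h1, H.pb_id, H.pb_id] at huv
  | succ l hkl ih =>
    intro u v huv
    apply inj_succ hR (C := C) (A := A) (show n ≠ l by omega)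
    apply ih
    rw [H.pb_comp, H.pb_comp]
    exact huv

/-- A finite dimensional complex is its skeleton. -/
theorem SK_eq_of_dim {d l : ℕ} (hd : ∀ n, d < n → IsEmpty (RelCWComplex.cell C n)) (h : d < l) :
    SK C l = C := by
  refine Subset.antisymm (SK_subset l) fun x hx => ?_
  rw [← CWComplex.iUnion_openCell_eq_complex (C := C)] at hx
  simp only [mem_iUnion] at hx
  obtain ⟨m, j, hj⟩ := hx
  have hm : ¬ d < m := fun h' => (hd m h').false j
  exact mem_SK.mpr ⟨m, by omega, j, hj⟩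

/-- Restriction of classes of degree `n` of a finite dimensional complex to the cells of dimension
at most `n` is injective. -/
theorem inj_complex (hR : R1Statement) {n d : ℕ}
    (hd : ∀ n, d < n → IsEmpty (RelCWComplex.cell C n)) :
    Function.Injective (H.pb (n := n) (A := A) (inclSub (SK_subset (C := C) (n + 1)))) := by
  have h1 := inj_of_le hR (C := C) (A := A) (n := n) (k := n + 1) (l := n + d + 1)
    (by omega) (by omega)
  have h2 : C ⊆ SK C (n + d + 1) := (SK_eq_of_dim hd (by omega)).symm.subset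
  have h3 : Function.Injective (H.pb (n := n) (A := A) (inclSub (SK_subset (C := C)
      (n + d + 1)))) := by
    intro u v huv
    have h4 := congrArg (H.pb (inclSub h2)) huv
    rw [H.pb_comp, H.pb_comp] at h4
    have h5 : (inclSub (SK_subset (C := C) (n + d + 1))).comp (inclSub h2) =
      ContinuousMap.id C := rfl
    rwa [h5, H.pb_id, H.pb_id] at h4
  intro u v huv
  apply h3
  apply h1
  rw [H.pb_comp, H.pb_comp]
  exact huv

end Skel

section Height

variable {X : Type} [TopologicalSpace X] [T2Space X] [CWComplex (univ : Set X)]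

theorem SK_sub (Y : RelCWComplex.Subcomplex (univ : Set X)) (k : ℕ) :
    SK (Y : Set X) k ⊆ SK (univ : Set X) k := by
  intro x hx
  obtain ⟨m, hm, j, hj⟩ := mem_SK.mp hx
  exact mem_SK.mpr ⟨m, hm, j.1, hj⟩

/-- **The height function.** -/
theorem exists_height (hB : BallStatement) (hR : R1Statement) {n d : ℕ}
    (hd : ∀ n, d < n → IsEmpty (RelCWComplex.cell (univ : Set X) n)) {E : Type}
    [AddCommGroup E] (F : ℕ → AddSubgroup E) (hmono : Monotone F) (hF : ∀ e, ∃ m, e ∈ F m)
    (e : H n X E) :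
    ∃ ht : RelCWComplex.cell (univ : Set X) n → ℕ, ∀ (m : ℕ)
      (Y : RelCWComplex.Subcomplex (univ : Set X)), (∀ τ ∈ Y.I n, ht τ ≤ m) →
        H.cm (QuotientAddGroup.mk' (F m)) (H.pb (incl (Y : Set X)) e) = 0 := by
  classical
  obtain ⟨-, eB, heB⟩ := hB n
  -- the class `w`
  have h1 : H.pb (incl {z : SK (univ : Set X) (n + 1) | z.1 ∈ SK (univ : Set X) n})
      (H.pb (incl (SK (univ : Set X) (n + 1))) e) = 0 := by
    have h2 : H.pb (nestHomeo (SK_mono (C := (univ : Set X)) (Nat.le_succ n)) :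
        C(SK (univ : Set X) n, {z : SK (univ : Set X) (n + 1) | z.1 ∈ SK (univ : Set X) n}))
        (H.pb (incl {z : SK (univ : Set X) (n + 1) | z.1 ∈ SK (univ : Set X) n})
          (H.pb (incl (SK (univ : Set X) (n + 1))) e)) = 0 := skel_vanish hR n le_rfl _
    exact (H.pb_bijective_of_homeomorph _).1 (h2.trans (map_zero _).symm)
  obtain ⟨w, hw⟩ := (HR.exact_H _).mp h1
  let φ : RelCWComplex.cell (univ : Set X) n → E := fun τ =>
    eB E (HR.pb ((skelAttach (univ : Set X) n).χ τ) ((skelAttach (univ : Set X) n).mapsTo τ) w)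
  refine ⟨fun τ => Nat.find (hF (φ τ)), fun m Y hY => ?_⟩
  have hφ : ∀ τ ∈ Y.I n, φ τ ∈ F m := fun τ hτ =>
    hmono (hY τ hτ) (Nat.find_spec (hF (φ τ)))
  have hdY : ∀ n, d < n → IsEmpty (RelCWComplex.cell (Y : Set X) n) := fun n hn =>
    ⟨fun j => (hd n hn).false j.1⟩
  set q := QuotientAddGroup.mk' (F m) with hq
  -- the inclusion of the skeleta
  let f : C(SK (Y : Set X) (n + 1), SK (univ : Set X) (n + 1)) := inclSub (SK_sub Y (n + 1))
  have hf : MapsTo f {z | z.1 ∈ SK (Y : Set X) n} {z | z.1 ∈ SK (univ : Set X) n} :=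
    fun z hz => SK_sub Y n hz
  have h3 : HR.cm q (HR.pb f hf w) = 0 := by
    apply ((skelAttach (Y : Set X) n).hr_bijective n).1
    funext τ
    apply (eB _).injective
    dsimp only
    rw [map_zero, map_zero, HR.pb_cm, heB, HR.pb_comp]
    have h4 : f.comp ((skelAttach (Y : Set X) n).χ τ) = (skelAttach (univ : Set X) n).χ τ.1 := rfl
    rw [HR.pb_congr h4 _ ((skelAttach (univ : Set X) n).mapsTo τ.1)]
    exact (QuotientAddGroup.eq_zero_iff _).mpr (hφ τ.1 τ.2)
  apply inj_complex hR hdY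
  rw [map_zero, H.pb_cm, H.pb_comp]
  have h5 : (incl (Y : Set X)).comp (inclSub (SK_subset (C := (Y : Set X)) (n + 1))) =
    (incl (SK (univ : Set X) (n + 1))).comp f := rfl
  rw [h5, ← H.pb_comp, ← hw, ← HR.toH_pb f hf, ← HR.toH_cm, h3, map_zero]

end Height

/-- **LEMMA A** from BALL and R1. -/
theorem lemmaAStatement_of (hB : BallStatement) (hR : R1Statement) : LemmaAStatement := by
  intro X _ _ _ d hd n hn c hc D hD
  obtain ⟨l, rfl⟩ : ∃ l, n = l + 1 := ⟨n - 1, by omega⟩
  obtain ⟨F, hmono, hF, hsec⟩ := exists_filtration (E := EE)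
    (fun hk _ h => EE_torsionFree hk h) (fun hk e => EE_divisible hk e)
  obtain ⟨η, γ, hη, hγ⟩ := exists_div c hc hD
  have hco : cmC (l + 1) pA η ∈ cocycles X EE (l + 1) := by
    change cob (l + 1) _ = 0
    rw [← cmC_cob, hη, cmC_pA_iA]
  obtain ⟨ht, hht⟩ := exists_height hB hR hd F hmono hF (H.mk (l + 1) ⟨cmC (l + 1) pA η, hco⟩)
  refine ⟨H.mk (l + 2) γ, ht, hγ, fun m Y hY => ?_⟩
  have h1 := hht m Y hY
  rw [H.pb_mk, H.cm_mk, H.mk_eq_zero] at h1
  obtain ⟨ζ', hζ'⟩ := h1
  obtain ⟨ζ, rfl⟩ := exists_cmC (h := QuotientAddGroup.mk' (F m))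
    (QuotientAddGroup.mk'_surjective _) ζ'
  have h2 : ∀ σ, (pbC (l + 1) (incl (Y : Set X)) (cmC (l + 1) pA η) - cob l ζ) σ ∈ F m := by
    intro σ
    rw [← QuotientAddGroup.eq_zero_iff]
    change QuotientAddGroup.mk' (F m) _ = 0
    rw [Pi.sub_apply, map_sub, sub_eq_zero]
    rw [← cmC_cob] at hζ'
    exact (congrFun hζ' σ).symm
  obtain ⟨s, hs⟩ := hsec m Ah pA pA_surjective
  rw [H.pb_mk]
  refine eq_zero_of_lift (η := pbC (l + 1) (incl (Y : Set X)) η) ?_ s hs
    (ε := fun σ => ⟨_, h2 σ⟩) ?_ (ζ := ζ) ?_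
  · rw [← pbC_cob, hη]
    rfl
  · apply cmC_injective (F m).subtype_injective
    rw [cmC_cob, map_zero]
    have h3 : cmC (l + 1) (F m).subtype (fun σ => ⟨_, h2 σ⟩) =
      pbC (l + 1) (incl (Y : Set X)) (cmC (l + 1) pA η) - cob l ζ := rfl
    rw [h3, map_sub, cob_cob, sub_zero, ← pbC_cob, ← cmC_cob, hη, cmC_pA_iA, map_zero]
  · have h3 : cmC (l + 1) (F m).subtype (fun σ => ⟨_, h2 σ⟩) =
      pbC (l + 1) (incl (Y : Set X)) (cmC (l + 1) pA η) - cob l ζ := rfl
    rw [h3]
    change pbC (l + 1) (incl (Y : Set X)) (cmC (l + 1) pA η) - _ = _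
    abel

end

end Pool.Agent.Lib.MP_904b2a_gt.LA
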