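import Pool.Agent.Lib.MP_904b2a_gt.PSS
import Pool.Agent.Lib.MP_904b2a_gt.H41.Tuples

/-!
# MP_904b2a_gt, module SPH-A, part 1: models of pairs of simplicial subsets

`K` is a pointed simplicial set, `Q ≤ P` simplicial subsets. A model of `(P, Q)` is a pointed
simplicial set `K'` with a map from `P` to `K'` which identifies `K'` with `P/Q`.
-/

open scoped BigOperators

namespace Pool.Agent.Lib.MP_904b2a_gt.H1

open PSS H41

noncomputable section

variable {K : PSS}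

/-! ### Reduced chains -/

theorem ch_pt (K : PSS) (n : ℕ) : K.ch n (K.pt n) = 0 := by
  simp [PSS.ch]

theorem ch_of_ne (K : PSS) {n : ℕ} {x : K.K n} (h : x ≠ K.pt n) :
    K.ch n x = Finsupp.single ⟨x, h⟩ 1 := by
  simp [PSS.ch, h]

theorem dZ_ch (K : PSS) {n i : ℕ} (hi : i ≤ n + 1) (x : K.K (n + 1)) :
    K.dZ n i (K.ch (n + 1) x) = K.ch n (K.d n i x) := by
  by_cases h : x = K.pt (n + 1)
  · rw [h, ch_pt, map_zero, K.d_pt n i hi, ch_pt]
  · rw [ch_of_ne K h, PSS.dZ, Finsupp.linearCombination_single, one_smul]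

theorem bd_ch (K : PSS) (n : ℕ) (x : K.K (n + 1)) :
    K.bd n (K.ch (n + 1) x) = ∑ i ∈ Finset.range (n + 2), (-1 : ℤ) ^ i • K.ch n (K.d n i x) := by
  rw [PSS.bd, LinearMap.sum_apply]
  refine Finset.sum_congr rfl fun i hi => ?_
  rw [LinearMap.smul_apply, dZ_ch K (by have := Finset.mem_range.mp hi; omega)]

/-- The unreduced boundary. -/
def ubd (K : PSS) (n : ℕ) : (K.K (n + 1) →₀ ℤ) →ₗ[ℤ] (K.K n →₀ ℤ) :=
  gbd (α := K.K) K.d n

theorem ubd_single (K : PSS) (n : ℕ) (x : K.K (n + 1)) :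
    ubd K n (Finsupp.single x 1) =
      ∑ i ∈ Finset.range (n + 2), (-1 : ℤ) ^ i • Finsupp.single (K.d n i x) (1 : ℤ) :=
  gbd_single (α := K.K) K.d n x

theorem ubd_ubd (K : PSS) (n : ℕ) (c : K.K (n + 2) →₀ ℤ) : ubd K n (ubd K (n + 1) c) = 0 :=
  gbd_gbd (α := K.K) K.d (fun n i j x hij hj => K.d_d n i j x hij hj) n c

/-- The chains supported in a simplicial subset. -/
def sp (P : K.Sub) (n : ℕ) : Submodule ℤ (K.K n →₀ ℤ) :=
  Finsupp.supported ℤ ℤ {x | P.P n x}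

theorem single_mem_sp {P : K.Sub} {n : ℕ} {x : K.K n} (h : P.P n x) :
    Finsupp.single x (1 : ℤ) ∈ sp P n :=
  single_mem_supported (S := {x | P.P n x}) h

theorem ubd_mem {P : K.Sub} {n : ℕ} {c : K.K (n + 1) →₀ ℤ} (hc : c ∈ sp P (n + 1)) :
    ubd K n c ∈ sp P n := by
  refine mem_of_supported (ubd K n) (fun x hx => ?_) hc
  rw [ubd_single]
  refine Submodule.sum_mem _ fun i hi => Submodule.smul_mem _ _ (single_mem_sp ?_)
  exact P.d_mem n i x (by have := Finset.mem_range.mp hi; omega) hx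

/-- The relative homology of `(P, Q)` vanishes. -/
def RelAc (P Q : K.Sub) : Prop :=
  (∀ c ∈ sp P 0, ∃ b ∈ sp P 1, ubd K 0 b - c ∈ sp Q 0) ∧
    ∀ n, ∀ c ∈ sp P (n + 1), ubd K n c ∈ sp Q n →
      ∃ b ∈ sp P (n + 2), ubd K (n + 1) b - c ∈ sp Q (n + 1)

/-! ### Models -/

/-- `K'` is a model of `P/(P ∩ Q)`. -/
structure Model (P Q : K.Sub) (K' : PSS) where
  m : ∀ n, K.K n → K'.K n
  surj : ∀ n y, ∃ x, P.P n x ∧ m n x = y
  pt_iff : ∀ n x, P.P n x → (m n x = K'.pt n ↔ Q.P n x)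
  inj : ∀ n x x', P.P n x → P.P n x' → m n x = m n x' → m n x ≠ K'.pt n → x = x'
  map_d : ∀ n i x, i ≤ n + 1 → P.P (n + 1) x → m n (K.d n i x) = K'.d n i (m (n + 1) x)
  map_s : ∀ n i x, i ≤ n → P.P n x → m (n + 1) (K.s n i x) = K'.s n i (m n x)

namespace Model

variable {P Q R : K.Sub} {K' K'' : PSS}

/-- A section of the map of a model. -/
def sec (M : Model P Q K') (n : ℕ) (y : K'.K n) : K.K n := (M.surj n y).choose

theorem sec_mem (M : Model P Q K') (n : ℕ) (y : K'.K n) : P.P n (M.sec n y) :=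
  (M.surj n y).choose_spec.1

theorem m_sec (M : Model P Q K') (n : ℕ) (y : K'.K n) : M.m n (M.sec n y) = y :=
  (M.surj n y).choose_spec.2

/-- The map on chains. -/
def mu (M : Model P Q K') (n : ℕ) : (K.K n →₀ ℤ) →ₗ[ℤ] (K'.B n →₀ ℤ) :=
  Finsupp.linearCombination ℤ (fun x => K'.ch n (M.m n x))

theorem mu_single (M : Model P Q K') (n : ℕ) (x : K.K n) :
    M.mu n (Finsupp.single x 1) = K'.ch n (M.m n x) := by
  simp [mu]

/-- A section of the map on chains. -/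
def lift (M : Model P Q K') (n : ℕ) : (K'.B n →₀ ℤ) →ₗ[ℤ] (K.K n →₀ ℤ) :=
  Finsupp.linearCombination ℤ (fun y => Finsupp.single (M.sec n y.1) 1)

theorem lift_single (M : Model P Q K') (n : ℕ) (y : K'.B n) :
    M.lift n (Finsupp.single y 1) = Finsupp.single (M.sec n y.1) 1 := by
  simp [lift]

theorem lift_mem (M : Model P Q K') (n : ℕ) (z : K'.B n →₀ ℤ) : M.lift n z ∈ sp P n := by
  refine mem_of_supported (M.lift n) (S := Set.univ) (fun y _ => ?_) (by simp)
  rw [lift_single]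
  exact single_mem_sp (M.sec_mem n _)

theorem mu_lift (M : Model P Q K') (n : ℕ) (z : K'.B n →₀ ℤ) : M.mu n (M.lift n z) = z := by
  have : (M.mu n).comp (M.lift n) = LinearMap.id := by
    refine lext fun y => ?_
    rw [LinearMap.comp_apply, lift_single, mu_single, m_sec, ch_of_ne K' y.2]
    rfl
  exact LinearMap.congr_fun this z

theorem sub_lift_mu_mem (M : Model P Q K') (n : ℕ) {c : K.K n →₀ ℤ} (hc : c ∈ sp P n) :
    c - M.lift n (M.mu n c) ∈ sp Q n := by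
  have := mem_of_supported (LinearMap.id - (M.lift n).comp (M.mu n)) (P := sp Q n)
    (S := {x | P.P n x}) (fun x hx => ?_) hc
  · exact this
  · rw [LinearMap.sub_apply, LinearMap.comp_apply, mu_single]
    by_cases h : M.m n x = K'.pt n
    · rw [h, ch_pt, map_zero, sub_zero]
      exact single_mem_sp ((M.pt_iff n x hx).mp h)
    · rw [ch_of_ne K' h, lift_single]
      have : M.sec n (M.m n x) = x := by
        refine M.inj n _ _ (M.sec_mem n _) hx (M.m_sec n _) ?_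
        rwa [M.m_sec]
      simp only [this]
      rw [LinearMap.id_apply, sub_self]
      exact zero_mem _

theorem mu_eq_zero_of_mem (M : Model P Q K') (n : ℕ) {c : K.K n →₀ ℤ} (hc : c ∈ sp P n)
    (h : c ∈ sp Q n) : M.mu n c = 0 := by
  rw [mu, Finsupp.linearCombination_apply, Finsupp.sum]
  refine Finset.sum_eq_zero fun x hx => ?_
  have h1 : P.P n x := (Finsupp.mem_supported _ _).mp hc hx
  have h2 : Q.P n x := (Finsupp.mem_supported _ _).mp h hx
  rw [(M.pt_iff n x h1).mpr h2, ch_pt, smul_zero]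

theorem mem_of_mu_eq_zero (M : Model P Q K') (n : ℕ) {c : K.K n →₀ ℤ} (hc : c ∈ sp P n)
    (h : M.mu n c = 0) : c ∈ sp Q n := by
  have := M.sub_lift_mu_mem n hc
  rwa [h, map_zero, sub_zero] at this

theorem bd_mu (M : Model P Q K') (n : ℕ) {c : K.K (n + 1) →₀ ℤ} (hc : c ∈ sp P (n + 1)) :
    K'.bd n (M.mu (n + 1) c) = M.mu n (ubd K n c) := by
  rw [← sub_eq_zero]
  have := mem_of_supported ((K'.bd n).comp (M.mu (n + 1)) - (M.mu n).comp (ubd K n)) (P := ⊥)
    (S := {x | P.P (n + 1) x}) (fun x hx => ?_) hc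
  · exact (Submodule.mem_bot ℤ).mp this
  · rw [Submodule.mem_bot, LinearMap.sub_apply, LinearMap.comp_apply, LinearMap.comp_apply,
      mu_single, bd_ch, ubd_single, map_sum, ← Finset.sum_sub_distrib]
    refine Finset.sum_eq_zero fun i hi => ?_
    rw [map_smul, mu_single, M.map_d n i x (by have := Finset.mem_range.mp hi; omega) hx, sub_self]

theorem acyclic (M : Model P Q K') (h : RelAc P Q) : K'.Acyclic := by
  refine ⟨fun z => ?_, fun n z hz => ?_⟩
  · obtain ⟨b, hb, hb2⟩ := h.1 (M.lift 0 z) (M.lift_mem 0 z)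
    refine ⟨M.mu 1 b, ?_⟩
    have h3 := M.mu_eq_zero_of_mem 0 (Submodule.sub_mem _ (ubd_mem hb) (M.lift_mem 0 z)) hb2
    rw [map_sub, sub_eq_zero, mu_lift] at h3
    rw [M.bd_mu 0 hb, h3]
  · have h1 : ubd K n (M.lift (n + 1) z) ∈ sp Q n := by
      refine M.mem_of_mu_eq_zero n (ubd_mem (M.lift_mem _ z)) ?_
      rw [← M.bd_mu n (M.lift_mem _ z), mu_lift, hz]
    obtain ⟨b, hb, hb2⟩ := h.2 n (M.lift (n + 1) z) (M.lift_mem _ z) h1
    refine ⟨M.mu (n + 2) b, ?_⟩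
    have h3 := M.mu_eq_zero_of_mem (n + 1)
      (Submodule.sub_mem _ (ubd_mem hb) (M.lift_mem (n + 1) z)) hb2
    rw [map_sub, sub_eq_zero, mu_lift] at h3
    rw [M.bd_mu (n + 1) hb, h3]

/-- Comparison of two models. -/
theorem m_sec_m (M : Model P Q K') (M' : Model P Q K'') {n : ℕ} {x : K.K n} (hx : P.P n x) :
    M'.m n (M.sec n (M.m n x)) = M'.m n x := by
  by_cases h : M.m n x = K'.pt n
  · have h1 : Q.P n x := (M.pt_iff n x hx).mp h
    have h2 : Q.P n (M.sec n (M.m n x)) :=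
      (M.pt_iff n _ (M.sec_mem n _)).mp (by rw [M.m_sec, h])
    rw [(M'.pt_iff n x hx).mpr h1, (M'.pt_iff n _ (M.sec_mem n _)).mpr h2]
  · rw [M.inj n _ _ (M.sec_mem n (M.m n x)) hx (M.m_sec n _) (by rwa [M.m_sec])]

/-- Two models of the same pair are isomorphic. -/
def isoOf (M : Model P Q K') (M' : Model P Q K'') : Iso K' K'' where
  e n :=
    { toFun := fun y => M'.m n (M.sec n y)
      invFun := fun y => M.m n (M'.sec n y)
      left_inv := fun y => by
        dsimp only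
        rw [m_sec_m M' M (M.sec_mem n y), m_sec]
      right_inv := fun y => by
        dsimp only
        rw [m_sec_m M M' (M'.sec_mem n y), m_sec] }
  map_pt n := by
    change M'.m n (M.sec n (K'.pt n)) = K''.pt n
    rw [M'.pt_iff n _ (M.sec_mem n _), ← M.pt_iff n _ (M.sec_mem n _), m_sec]
  map_d n i y hi := by
    change M'.m n (M.sec n (K'.d n i y)) = K''.d n i (M'.m (n + 1) (M.sec (n + 1) y))
    rw [← M'.map_d n i _ hi (M.sec_mem _ y), ← m_sec_m M M' (P.d_mem n i _ hi (M.sec_mem _ y)),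
      M.map_d n i _ hi (M.sec_mem _ y), m_sec]
  map_s n i y hi := by
    change M'.m (n + 1) (M.sec (n + 1) (K'.s n i y)) = K''.s n i (M'.m n (M.sec n y))
    rw [← M'.map_s n i _ hi (M.sec_mem _ y), ← m_sec_m M M' (P.s_mem n i _ hi (M.sec_mem _ y)),
      M.map_s n i _ hi (M.sec_mem _ y), m_sec]

theorem m_pt (M : Model P Q K') (n : ℕ) : M.m n (K.pt n) = K'.pt n :=
  (M.pt_iff n _ (P.pt_mem n)).mpr (Q.pt_mem n)

/-- The simplicial subset of a model given by a simplicial subset `Q`. -/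
def sub (M : Model P R K') (Q : K.Sub) : K'.Sub where
  P n y := ∃ x, P.P n x ∧ Q.P n x ∧ M.m n x = y
  pt_mem n := ⟨K.pt n, P.pt_mem n, Q.pt_mem n, M.m_pt n⟩
  d_mem n i y hi := by
    rintro ⟨x, h1, h2, rfl⟩
    exact ⟨K.d n i x, P.d_mem n i x hi h1, Q.d_mem n i x hi h2, M.map_d n i x hi h1⟩
  s_mem n i y hi := by
    rintro ⟨x, h1, h2, rfl⟩
    exact ⟨K.s n i x, P.s_mem n i x hi h1, Q.s_mem n i x hi h2, M.map_s n i x hi h1⟩

theorem sub_iff (M : Model P R K') {Q : K.Sub} (hRQ : ∀ n x, R.P n x → Q.P n x) {n : ℕ}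
    {x : K.K n} (hx : P.P n x) : (M.sub Q).P n (M.m n x) ↔ Q.P n x := by
  refine ⟨?_, fun h => ⟨x, hx, h, rfl⟩⟩
  rintro ⟨x', h1, h2, h3⟩
  by_cases h : M.m n x = K'.pt n
  · exact hRQ n x ((M.pt_iff n x hx).mp h)
  · rwa [M.inj n x x' hx h1 h3.symm h]

theorem quot_d (K : PSS) (L : K.Sub) {n i : ℕ} (hi : i ≤ n + 1) (y : K.K (n + 1)) :
    (K.quot L).d n i (L.q (n + 1) y) = L.q n (K.d n i y) := by
  by_cases hy : L.P (n + 1) y
  · rw [L.q_of_mem hy, L.q_of_mem (L.d_mem n i y hi hy)]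
    rfl
  · rw [L.q_of_not_mem ⟨y, hy⟩]
    simp [PSS.quot, hi]

theorem quot_s (K : PSS) (L : K.Sub) {n i : ℕ} (hi : i ≤ n) (y : K.K n) :
    (K.quot L).s n i (L.q n y) = L.q (n + 1) (K.s n i y) := by
  by_cases hy : L.P n y
  · rw [L.q_of_mem hy, L.q_of_mem (L.s_mem n i y hi hy)]
    rfl
  · rw [L.q_of_not_mem ⟨y, hy⟩]
    simp [PSS.quot, hi]

theorem q_eq_none (L : K.Sub) {n : ℕ} {y : K.K n} : L.q n y = none ↔ L.P n y := by
  constructor
  · intro h
    by_contra hy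
    rw [L.q_of_not_mem ⟨y, hy⟩] at h
    exact absurd h (by simp)
  · exact L.q_of_mem

theorem q_inj (L : K.Sub) {n : ℕ} {y y' : K.K n} (h : L.q n y = L.q n y')
    (h' : L.q n y ≠ none) : y = y' := by
  have hy : ¬ L.P n y := fun hy => h' (q_eq_none L |>.mpr hy)
  have hy' : ¬ L.P n y' := fun hy => h' (h.trans ((q_eq_none L).mpr hy))
  rw [L.q_of_not_mem ⟨y, hy⟩, L.q_of_not_mem ⟨y', hy'⟩] at h
  have := Option.some_injective _ h
  exact congrArg Subtype.val this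

/-- The quotient of a model of `(P, R)` by `Q` is a model of `(P, Q)`. -/
def quot (M : Model P R K') (Q : K.Sub) (hRQ : ∀ n x, R.P n x → Q.P n x) :
    Model P Q (K'.quot (M.sub Q)) where
  m n x := (M.sub Q).q n (M.m n x)
  surj n y := by
    rcases y with _ | y
    · exact ⟨K.pt n, P.pt_mem n, q_eq_none _ |>.mpr ((M.sub_iff hRQ (P.pt_mem n)).mpr
        (Q.pt_mem n))⟩
    · refine ⟨M.sec n y.1, M.sec_mem n _, ?_⟩
      rw [m_sec]
      exact (M.sub Q).q_of_not_mem y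
  pt_iff n x hx := (q_eq_none _).trans (M.sub_iff hRQ hx)
  inj n x x' hx hx' h h' := by
    have h1 := q_inj _ h h'
    refine M.inj n x x' hx hx' h1 fun h2 => h' ?_
    refine (q_eq_none _).mpr ((M.sub_iff hRQ hx).mpr (hRQ n x ?_))
    exact (M.pt_iff n x hx).mp h2
  map_d n i x hi hx := by
    rw [quot_d _ _ hi, M.map_d n i x hi hx]
  map_s n i x hi hx := by
    rw [quot_s _ _ hi, M.map_s n i x hi hx]

open Classical in
/-- The map of `restr`. -/
def rM (M : Model P R K') (Q : K.Sub) (n : ℕ) (x : K.K n) : {y : K'.K n // (M.sub Q).P n y} :=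
  if h : (M.sub Q).P n (M.m n x) then ⟨M.m n x, h⟩ else ⟨K'.pt n, (M.sub Q).pt_mem n⟩

theorem rM_val (M : Model P R K') {Q : K.Sub} (hRQ : ∀ n x, R.P n x → Q.P n x)
    (hQP : ∀ n x, Q.P n x → P.P n x) {n : ℕ} {x : K.K n} (hx : Q.P n x) :
    (M.rM Q n x).1 = M.m n x := by
  rw [rM, dif_pos ((M.sub_iff hRQ (hQP n x hx)).mpr hx)]

/-- The simplicial subset of a model of `(P, R)` given by `Q` is a model of `(Q, R)`. -/
def restr (M : Model P R K') (Q : K.Sub) (hRQ : ∀ n x, R.P n x → Q.P n x)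
    (hQP : ∀ n x, Q.P n x → P.P n x) : Model Q R (M.sub Q).toPSS where
  m n x := M.rM Q n x
  surj n y := by
    obtain ⟨y, x, h1, h2, rfl⟩ := y
    exact ⟨x, h2, Subtype.ext (M.rM_val hRQ hQP h2)⟩
  pt_iff n x hx := by
    rw [← M.pt_iff n x (hQP n x hx), ← M.rM_val hRQ hQP hx]
    exact Subtype.ext_iff
  inj n x x' hx hx' h h' := by
    have h1 : M.m n x = M.m n x' := by
      rw [← M.rM_val hRQ hQP hx, ← M.rM_val hRQ hQP hx']
      exact congrArg Subtype.val h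
    refine M.inj n x x' (hQP n x hx) (hQP n x' hx') h1 fun h2 => h' ?_
    refine Subtype.ext ?_
    rw [M.rM_val hRQ hQP hx]
    exact h2
  map_d n i x hi hx := by
    have h1 := Q.d_mem n i x hi hx
    change M.rM Q n (K.d n i x) = if h : i ≤ n + 1 then
      (⟨K'.d n i (M.rM Q (n + 1) x).1, (M.sub Q).d_mem n i _ h (M.rM Q (n + 1) x).2⟩ :
        {y : K'.K n // (M.sub Q).P n y}) else ⟨K'.pt n, (M.sub Q).pt_mem n⟩
    rw [dif_pos hi]
    refine Subtype.ext ?_
    rw [M.rM_val hRQ hQP h1]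
    dsimp only
    rw [M.rM_val hRQ hQP hx]
    exact M.map_d n i x hi (hQP _ x hx)
  map_s n i x hi hx := by
    have h1 := Q.s_mem n i x hi hx
    change M.rM Q (n + 1) (K.s n i x) = if h : i ≤ n then
      (⟨K'.s n i (M.rM Q n x).1, (M.sub Q).s_mem n i _ h (M.rM Q n x).2⟩ :
        {y : K'.K (n + 1) // (M.sub Q).P (n + 1) y})
        else ⟨K'.pt (n + 1), (M.sub Q).pt_mem (n + 1)⟩
    rw [dif_pos hi]
    refine Subtype.ext ?_
    rw [M.rM_val hRQ hQP h1]
    dsimp only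
    rw [M.rM_val hRQ hQP hx]
    exact M.map_s n i x hi (hQP _ x hx)

open Classical in
/-- Excision: a model of `(U, U ∩ V)` is a model of `(U ∪ V, V)`. -/
def exc {U V W T : K.Sub} (M : Model U W K') (hW : ∀ n x, W.P n x ↔ U.P n x ∧ V.P n x)
    (hT : ∀ n x, T.P n x ↔ U.P n x ∨ V.P n x) : Model T V K' where
  m n x := if V.P n x then K'.pt n else M.m n x
  surj n y := by
    obtain ⟨x, hx, rfl⟩ := M.surj n y
    refine ⟨x, (hT n x).mpr (Or.inl hx), ?_⟩
    split_ifs with h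
    · exact ((M.pt_iff n x hx).mpr ((hW n x).mpr ⟨hx, h⟩)).symm
    · rfl
  pt_iff n x hx := by
    by_cases h : V.P n x
    · simp [h]
    · have hU : U.P n x := ((hT n x).mp hx).resolve_right h
      simp only [h, if_false, iff_false]
      rw [M.pt_iff n x hU, hW]
      exact fun h' => h h'.2
  inj n x x' hx hx' h h' := by
    by_cases hV : V.P n x
    · simp [hV] at h'
    · by_cases hV' : V.P n x'
      · simp only [hV, if_false] at h h'
        simp only [hV', if_true] at h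
        exact absurd h h'
      · simp only [hV, hV', if_false] at h h'
        exact M.inj n x x' (((hT n x).mp hx).resolve_right hV)
          (((hT n x').mp hx').resolve_right hV') h h'
  map_d n i x hi hx := by
    by_cases hV : V.P (n + 1) x
    · simp only [hV, V.d_mem n i x hi hV, if_true]
      exact (K'.d_pt n i hi).symm
    · have hU : U.P (n + 1) x := ((hT _ x).mp hx).resolve_right hV
      simp only [hV, if_false]
      rw [← M.map_d n i x hi hU]
      split_ifs with h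
      · exact ((M.pt_iff n _ (U.d_mem n i x hi hU)).mpr
          ((hW n _).mpr ⟨U.d_mem n i x hi hU, h⟩)).symm
      · rfl
  map_s n i x hi hx := by
    by_cases hV : V.P n x
    · simp only [hV, V.s_mem n i x hi hV, if_true]
      exact (K'.s_pt n i hi).symm
    · have hU : U.P n x := ((hT _ x).mp hx).resolve_right hV
      simp only [hV, if_false]
      rw [← M.map_s n i x hi hU]
      split_ifs with h
      · exact ((M.pt_iff _ _ (U.s_mem n i x hi hU)).mpr
          ((hW _ _).mpr ⟨U.s_mem n i x hi hU, h⟩)).symm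
      · rfl

end Model

/-- The whole simplicial set. -/
def top (K : PSS) : K.Sub where
  P _ _ := True
  pt_mem _ := trivial
  d_mem _ _ _ _ _ := trivial
  s_mem _ _ _ _ _ := trivial

/-- The base point. -/
def bot (K : PSS) : K.Sub where
  P n x := x = K.pt n
  pt_mem _ := rfl
  d_mem n i x hi h := by rw [h, K.d_pt n i hi]
  s_mem n i x hi h := by rw [h, K.s_pt n i hi]

/-- `K` is a model of itself. -/
def Model.self (K : PSS) : Model (top K) (bot K) K where
  m _ x := x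
  surj _ y := ⟨y, trivial, rfl⟩
  pt_iff _ _ _ := Iff.rfl
  inj _ _ _ _ _ h _ := h
  map_d _ _ _ _ _ := rfl
  map_s _ _ _ _ _ := rfl

theorem bot_le (Q : K.Sub) (n : ℕ) (x : K.K n) (h : (bot K).P n x) : Q.P n x := by
  rw [show x = K.pt n from h]
  exact Q.pt_mem n

/-- Models exist. -/
theorem exists_model (P Q : K.Sub) : ∃ K', Nonempty (Model P Q K') := by
  have M1 := (Model.self K).restr P (bot_le P) (fun _ _ _ => trivial)
  exact ⟨_, ⟨M1.quot Q (bot_le Q)⟩⟩

/-- `P/Q` is an algebraic `N`-sphere. -/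
def AS (N : ℕ) (P Q : K.Sub) : Prop := ∃ K', Nonempty (Model P Q K') ∧ AlgSphere N K'

theorem AS.of_model {N : ℕ} {P Q : K.Sub} {K' : PSS} (M : Model P Q K') (h : AlgSphere N K') :
    AS N P Q := ⟨K', ⟨M⟩, h⟩

theorem AS.all {N : ℕ} {P Q : K.Sub} (h : AS N P Q) {K' : PSS} (M : Model P Q K') :
    AlgSphere N K' := by
  obtain ⟨K'', ⟨M'⟩, h'⟩ := h
  exact AlgSphere.iso K'' K' (M'.isoOf M) h'

theorem AS.susp {N : ℕ} {P Q R : K.Sub} (hRQ : ∀ n x, R.P n x → Q.P n x)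
    (hQP : ∀ n x, Q.P n x → P.P n x) (hac : RelAc P R) (h : AS N Q R) : AS (N + 1) P Q := by
  obtain ⟨E, ⟨M⟩⟩ := exists_model P R
  exact AS.of_model (M.quot Q hRQ)
    (AlgSphere.susp E (M.sub Q) (M.acyclic hac) (h.all (M.restr Q hRQ hQP)))

theorem AS.one {P Q R : K.Sub} (hRQ : ∀ n x, R.P n x → Q.P n x)
    (hQP : ∀ n x, Q.P n x → P.P n x) (hac : RelAc P R)
    (h : ∀ K', Model Q R K' → IsS0 K') : AS 1 P Q := by
  obtain ⟨E, ⟨M⟩⟩ := exists_model P R
  exact AS.of_model (M.quot Q hRQ)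
    (AlgSphere.one E (M.sub Q) (M.acyclic hac) (h _ (M.restr Q hRQ hQP)))

theorem AS.ofSub {N : ℕ} {P Q R : K.Sub} (hRQ : ∀ n x, R.P n x → Q.P n x)
    (hQP : ∀ n x, Q.P n x → P.P n x) (hac : RelAc P Q) (h : AS N Q R) : AS N P R := by
  obtain ⟨E, ⟨M⟩⟩ := exists_model P R
  exact AS.of_model M
    (AlgSphere.ofSub E (M.sub Q) ((M.quot Q hRQ).acyclic hac) (h.all (M.restr Q hRQ hQP)))

theorem AS.ofQuot {N : ℕ} {P Q R : K.Sub} (hRQ : ∀ n x, R.P n x → Q.P n x)
    (hQP : ∀ n x, Q.P n x → P.P n x) (hac : RelAc Q R) (h : AS N P Q) : AS N P R := by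
  obtain ⟨E, ⟨M⟩⟩ := exists_model P R
  exact AS.of_model M
    (AlgSphere.ofQuot E (M.sub Q) ((M.restr Q hRQ hQP).acyclic hac) (h.all (M.quot Q hRQ)))

theorem AS.toQuot {N : ℕ} {P Q R : K.Sub} (hRQ : ∀ n x, R.P n x → Q.P n x)
    (hQP : ∀ n x, Q.P n x → P.P n x) (hac : RelAc Q R) (h : AS N P R) : AS N P Q := by
  obtain ⟨E, ⟨M⟩⟩ := exists_model P R
  exact AS.of_model (M.quot Q hRQ)
    (AlgSphere.toQuot E (M.sub Q) ((M.restr Q hRQ hQP).acyclic hac) (h.all M))

theorem AS.exc {N : ℕ} {U V W T : K.Sub} (hW : ∀ n x, W.P n x ↔ U.P n x ∧ V.P n x)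
    (hT : ∀ n x, T.P n x ↔ U.P n x ∨ V.P n x) (h : AS N U W) : AS N T V := by
  obtain ⟨E, ⟨M⟩⟩ := exists_model U W
  exact AS.of_model (M.exc hW hT) (h.all M)

/-- The zero-sphere criterion for models. -/
theorem Model.isS0 {P Q : K.Sub} {K' : PSS} (M : Model P Q K')
    (h : ∀ n, ∃ x, P.P n x ∧ ¬ Q.P n x ∧ ∀ x', P.P n x' → ¬ Q.P n x' → x' = x)
    (hd : ∀ n i x, i ≤ n + 1 → P.P (n + 1) x → ¬ Q.P (n + 1) x → ¬ Q.P n (K.d n i x)) :
    IsS0 K' := by
  refine ⟨fun n => ?_, fun n i y hi hy => ?_⟩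
  · obtain ⟨x, h1, h2, h3⟩ := h n
    refine ⟨M.m n x, fun h' => h2 ((M.pt_iff n x h1).mp h'), fun y hy => ?_⟩
    have hs : ¬ Q.P n (M.sec n y) := fun h' => hy
      ((M.m_sec n y).symm.trans ((M.pt_iff n _ (M.sec_mem n y)).mpr h'))
    rw [← h3 _ (M.sec_mem n y) hs, M.m_sec]
  · obtain ⟨x, hx, rfl⟩ := M.surj _ y
    rw [← M.map_d n i x hi hx]
    intro h'
    refine hd n i x hi hx (fun h2 => hy ((M.pt_iff _ x hx).mpr h2)) ?_
    exact (M.pt_iff n _ (P.d_mem n i x hi hx)).mp h'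

end

end Pool.Agent.Lib.MP_904b2a_gt.H1
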