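import Pool.Agent.Lib.MP_904b2a_gt.H1.Pairs
import Pool.Agent.Lib.MP_904b2a_gt.H41.Cochains
import Pool.Agent.Lib.MP_904b2a_gt.Coh

/-!
# MP_904b2a_gt, module SPH-A, part 2: relative acyclicity from homotopies and from small simplices
-/

open scoped BigOperators

namespace Pool.Agent.Lib.MP_904b2a_gt.H1

open PSS H41

noncomputable section

/-! ### The prism operator on chains -/

section Prism

variable {B X : Type*} [TopologicalSpace B] [TopologicalSpace X] {f₀ f₁ : C(B, X)}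

/-- The prism operator on chains. -/
def PH (F : f₀.Homotopy f₁) (n : ℕ) : Ch n B →ₗ[ℤ] Ch (n + 1) X :=
  Finsupp.linearCombination ℤ (fun σ => ∑ j ∈ Finset.range (n + 1), (-1 : ℤ) ^ j •
    Finsupp.single (prismH F n j σ) (1 : ℤ))

theorem PH_single (F : f₀.Homotopy f₁) (n : ℕ) (σ : C(Simp n, B)) :
    PH F n (Finsupp.single σ 1) = ∑ j ∈ Finset.range (n + 1), (-1 : ℤ) ^ j •
      Finsupp.single (prismH F n j σ) (1 : ℤ) := by
  simp [PH]

theorem cob_sing (n : ℕ) (τ : C(Simp (n + 1), X)) :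
    cob n (fun σ : C(Simp n, X) => (Finsupp.single σ (1 : ℤ) : Ch n X)) τ =
      sbd n (Finsupp.single τ 1) := by
  rw [cob_apply, sbd_single]

theorem sbd_PH_zero (F : f₀.Homotopy f₁) (c : Ch 0 B) :
    sbd 0 (PH F 0 c) = chm f₁ 0 c - chm f₀ 0 c := by
  have : (sbd 0).comp (PH F 0) = chm f₁ 0 - chm f₀ 0 := by
    refine lext fun σ => ?_
    have h := congrFun (prismC_zero_formula F
      (fun σ : C(Simp 0, X) => (Finsupp.single σ (1 : ℤ) : Ch 0 X))) σ
    rw [LinearMap.comp_apply, LinearMap.sub_apply, chm_single, chm_single, PH_single, map_sum]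
    simp only [map_smul]
    simp only [prismC, cob_sing] at h
    exact h
  exact LinearMap.congr_fun this c

theorem sbd_PH (F : f₀.Homotopy f₁) (n : ℕ) (c : Ch (n + 1) B) :
    sbd (n + 1) (PH F (n + 1) c) + PH F n (sbd n c) = chm f₁ (n + 1) c - chm f₀ (n + 1) c := by
  have : (sbd (n + 1)).comp (PH F (n + 1)) + (PH F n).comp (sbd n) =
      chm f₁ (n + 1) - chm f₀ (n + 1) := by
    refine lext fun σ => ?_
    have h := congrFun (prismC_formula F n
      (fun σ : C(Simp (n + 1), X) => (Finsupp.single σ (1 : ℤ) : Ch (n + 1) X))) σ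
    have e1 : prismC F (n + 1) (cob (n + 1)
        (fun σ : C(Simp (n + 1), X) => (Finsupp.single σ (1 : ℤ) : Ch (n + 1) X))) σ =
        ∑ j ∈ Finset.range (n + 1 + 1), (-1 : ℤ) ^ j •
          sbd (n + 1) (Finsupp.single (prismH F (n + 1) j σ) 1) := by
      simp only [prismC, cob_sing]
    have e2 : cob n (prismC F n
        (fun σ : C(Simp (n + 1), X) => (Finsupp.single σ (1 : ℤ) : Ch (n + 1) X))) σ =
        ∑ i ∈ Finset.range (n + 2), (-1 : ℤ) ^ i • ∑ j ∈ Finset.range (n + 1), (-1 : ℤ) ^ j •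
          Finsupp.single (prismH F n j (σ.comp (smap (fv n i)))) (1 : ℤ) := by
      rw [cob_apply]
      rfl
    rw [Pi.add_apply, e1, e2] at h
    rw [LinearMap.add_apply, LinearMap.comp_apply, LinearMap.comp_apply, LinearMap.sub_apply,
      chm_single, chm_single, PH_single, map_sum, sbd_single, map_sum]
    simp only [map_smul, PH_single]
    exact h
  exact LinearMap.congr_fun this c

theorem range_prismH (F : f₀.Homotopy f₁) (n j : ℕ) (σ : C(Simp n, B)) {S : Set X}
    (h : ∀ t, ∀ x ∈ Set.range σ, F (t, x) ∈ S) : Set.range (prismH F n j σ) ⊆ S := by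
  rintro _ ⟨x, rfl⟩
  exact h _ _ ⟨smap (dv n j) x, rfl⟩

end Prism

section Top

variable {X : Type} [TopologicalSpace X] {x₀ : X}

theorem ubd_eq_sbd (n : ℕ) : ubd (singP X x₀) n = sbd n := rfl

/-- The singular simplices inside a set. -/
def sS (A : Set X) (h : x₀ ∈ A) : (singP X x₀).Sub where
  P n (σ : C(Simp n, X)) := Set.range σ ⊆ A
  pt_mem n := by
    rintro _ ⟨x, rfl⟩
    exact h
  d_mem n i σ _ hσ := by
    rintro _ ⟨x, rfl⟩
    exact hσ ⟨smap (fv n i) x, rfl⟩
  s_mem n i σ _ hσ := by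
    rintro _ ⟨x, rfl⟩
    exact hσ ⟨smap (dv n i) x, rfl⟩

theorem sS_iff {A : Set X} {h : x₀ ∈ A} {n : ℕ} {σ : C(Simp n, X)} :
    (sS A h).P n σ ↔ Set.range σ ⊆ A := Iff.rfl

/-- The singular simplices inside one of two sets. -/
def sS2 (A B : Set X) (h : x₀ ∈ A) : (singP X x₀).Sub where
  P n (σ : C(Simp n, X)) := Set.range σ ⊆ A ∨ Set.range σ ⊆ B
  pt_mem n := by
    left
    rintro _ ⟨x, rfl⟩
    exact h
  d_mem n i σ _ hσ := by
    refine hσ.imp (fun hσ => ?_) (fun hσ => ?_) <;>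
    · rintro _ ⟨x, rfl⟩
      exact hσ ⟨smap (fv n i) x, rfl⟩
  s_mem n i σ _ hσ := by
    refine hσ.imp (fun hσ => ?_) (fun hσ => ?_) <;>
    · rintro _ ⟨x, rfl⟩
      exact hσ ⟨smap (dv n i) x, rfl⟩

theorem bot_iff {n : ℕ} {σ : C(Simp n, X)} :
    (bot (singP X x₀)).P n σ ↔ Set.range σ ⊆ {x₀} := by
  constructor
  · intro h
    have h' : σ = ContinuousMap.const _ x₀ := h
    rw [h']
    rintro _ ⟨x, rfl⟩
    rfl
  · intro h
    change σ = ContinuousMap.const _ x₀
    ext x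
    exact h ⟨x, rfl⟩

/-- Relative acyclicity in terms of singular chains. -/
theorem relAc_of {P Q : (singP X x₀).Sub} (SP SQ : ∀ n, Set C(Simp n, X))
    (hP : ∀ n (σ : C(Simp n, X)), P.P n σ ↔ σ ∈ SP n)
    (hQ : ∀ n (σ : C(Simp n, X)), Q.P n σ ↔ σ ∈ SQ n)
    (h0 : ∀ c : Ch 0 X, c ∈ Finsupp.supported ℤ ℤ (SP 0) →
      ∃ b : Ch 1 X, b ∈ Finsupp.supported ℤ ℤ (SP 1) ∧
        sbd 0 b - c ∈ Finsupp.supported ℤ ℤ (SQ 0))
    (h : ∀ n, ∀ c : Ch (n + 1) X, c ∈ Finsupp.supported ℤ ℤ (SP (n + 1)) →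
      sbd n c ∈ Finsupp.supported ℤ ℤ (SQ n) →
      ∃ b : Ch (n + 2) X, b ∈ Finsupp.supported ℤ ℤ (SP (n + 2)) ∧
        sbd (n + 1) b - c ∈ Finsupp.supported ℤ ℤ (SQ (n + 1))) : RelAc P Q := by
  obtain rfl : SP = fun n => {σ : C(Simp n, X) | P.P n σ} := by
    funext n
    ext σ
    exact (hP n σ).symm
  obtain rfl : SQ = fun n => {σ : C(Simp n, X) | Q.P n σ} := by
    funext n
    ext σ
    exact (hQ n σ).symm
  exact ⟨h0, h⟩

/-- **Small simplices**: `Sing X / (Sing U ∪ Sing V)` is acyclic. -/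
theorem relAc_small {U V : Set X} (hU : IsOpen U) (hV : IsOpen V) (h : U ∪ V = Set.univ)
    {T Q : (singP X x₀).Sub} (hT : ∀ n σ, T.P n σ)
    (hQ : ∀ n (σ : C(Simp n, X)), Q.P n σ ↔ Set.range σ ⊆ U ∨ Set.range σ ⊆ V) :
    RelAc T Q := by
  obtain ⟨ρ, D, h1, h2, h3, h4, h5, h6⟩ := small_simplices (two U V) (isOpen_two hU hV)
    (iUnion_two h)
  refine relAc_of (fun n => Set.univ) (small (two U V)) (fun n σ => ⟨fun _ => trivial, fun _ => hT n σ⟩)
    (fun n σ => (hQ n σ).trans mem_small_two.symm) (fun c _ => ⟨D 0 c, by simp, ?_⟩)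
    (fun n c _ hc => ⟨D (n + 1) c, by simp, ?_⟩)
  · rw [h4, sub_sub_cancel_left]
    exact Submodule.neg_mem _ (h2 0 c)
  · have h7 := h5 n c
    rw [(h3 n _ hc).2, add_zero] at h7
    rw [h7, sub_sub_cancel_left]
    exact Submodule.neg_mem _ (h2 (n + 1) c)

/-- The inclusion of a subset. -/
def incl (B : Set X) : C(B, X) := ⟨Subtype.val, continuous_subtype_val⟩

theorem incl_comp_injective (B : Set X) (n : ℕ) :
    Function.Injective (fun σ : C(Simp n, B) => (incl B).comp σ) := by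
  intro σ τ h
  ext x
  exact DFunLike.congr_fun h x

theorem exists_chm_incl {B : Set X} {n : ℕ} {c : Ch n X}
    (hc : c ∈ Finsupp.supported ℤ ℤ {σ : C(Simp n, X) | Set.range σ ⊆ B}) :
    ∃ c' : Ch n B, chm (incl B) n c' = c := by
  have : c ∈ LinearMap.range (chm (incl B) n) := by
    refine mem_of_supported LinearMap.id (P := LinearMap.range (chm (incl B) n))
      (fun σ hσ => ?_) hc
    refine ⟨Finsupp.single (⟨fun x => ⟨σ x, hσ ⟨x, rfl⟩⟩, by fun_prop⟩ : C(Simp n, B)) 1, ?_⟩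
    rw [chm_single]
    rfl
  exact this

theorem support_chm_incl {B : Set X} {n : ℕ} {c : Ch n B} {S : Set C(Simp n, X)}
    (hc : chm (incl B) n c ∈ Finsupp.supported ℤ ℤ S) :
    c ∈ Finsupp.supported ℤ ℤ {σ : C(Simp n, B) | (incl B).comp σ ∈ S} := by
  rw [Finsupp.mem_supported] at hc ⊢
  intro σ hσ
  classical
  have : (incl B).comp σ ∈ (chm (incl B) n c).support := by
    change _ ∈ (Finsupp.mapDomain _ c).support
    rw [Finsupp.mapDomain_support_of_injective (incl_comp_injective B n), Finset.mem_image]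
    exact ⟨σ, hσ, rfl⟩
  exact hc this

/-- **Deformations**: if `B` can be deformed into `A ⊆ B` (inside `B`, with `A` staying inside
`A`), then `Sing B / Sing A` is acyclic. -/
theorem relAc_homotopy {A B : Set X} {f₁ : C(B, X)} (F : (incl B).Homotopy f₁)
    (hB : ∀ t x, F (t, x) ∈ B) (hA : ∀ t (x : B), x.1 ∈ A → F (t, x) ∈ A)
    (h1 : ∀ x, f₁ x ∈ A) {P Q : (singP X x₀).Sub}
    (hP : ∀ n (σ : C(Simp n, X)), P.P n σ ↔ Set.range σ ⊆ B)
    (hQ : ∀ n (σ : C(Simp n, X)), Q.P n σ ↔ Set.range σ ⊆ A) : RelAc P Q := by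
  have hPB : ∀ n (c : Ch n B), PH F n c ∈
      Finsupp.supported ℤ ℤ {σ : C(Simp (n + 1), X) | Set.range σ ⊆ B} := by
    intro n c
    refine mem_of_supported (PH F n) (S := Set.univ) (fun σ _ => ?_) (by simp)
    rw [PH_single]
    refine Submodule.sum_mem _ fun j _ => Submodule.smul_mem _ _ (single_mem_supported ?_)
    exact range_prismH F n j σ fun t x _ => hB t x
  have hf1 : ∀ n (c : Ch n B), chm f₁ n c ∈
      Finsupp.supported ℤ ℤ {σ : C(Simp n, X) | Set.range σ ⊆ A} := by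
    intro n c
    refine mem_of_supported (chm f₁ n) (S := Set.univ) (fun σ _ => ?_) (by simp)
    rw [chm_single]
    refine single_mem_supported ?_
    rintro _ ⟨x, rfl⟩
    exact h1 _
  refine relAc_of (fun n => {σ | Set.range σ ⊆ B}) (fun n => {σ | Set.range σ ⊆ A}) hP hQ
    (fun c hc => ?_) (fun n c hc hbc => ?_)
  · obtain ⟨c', rfl⟩ := exists_chm_incl hc
    refine ⟨-PH F 0 c', Submodule.neg_mem _ (hPB 0 c'), ?_⟩
    rw [map_neg, sbd_PH_zero]
    have : -(chm f₁ 0 c' - chm (incl B) 0 c') - chm (incl B) 0 c' = - chm f₁ 0 c' := by abel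
    rw [this]
    exact Submodule.neg_mem _ (hf1 0 c')
  · obtain ⟨c', rfl⟩ := exists_chm_incl hc
    refine ⟨-PH F (n + 1) c', Submodule.neg_mem _ (hPB (n + 1) c'), ?_⟩
    have h2 := sbd_PH F n c'
    rw [map_neg]
    have : -(sbd (n + 1) (PH F (n + 1) c')) - chm (incl B) (n + 1) c' =
        PH F n (sbd n c') - chm f₁ (n + 1) c' := by
      rw [← eq_sub_iff_add_eq] at h2
      rw [h2]
      abel
    rw [this]
    refine Submodule.sub_mem _ ?_ (hf1 (n + 1) c')
    rw [← chm_sbd] at hbc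
    refine mem_of_supported (PH F n) (fun σ hσ => ?_) (support_chm_incl hbc)
    rw [PH_single]
    refine Submodule.sum_mem _ fun j _ => Submodule.smul_mem _ _ (single_mem_supported ?_)
    refine range_prismH F n j σ fun t x hx => hA t x ?_
    obtain ⟨y, rfl⟩ := hx
    exact hσ ⟨y, rfl⟩

/-! ### Subspaces -/

open Classical in
/-- The lift of a simplex along an embedding (the constant simplex if there is none). -/
def liftE {Y : Type} [TopologicalSpace Y] {e : Y → X} (he : Topology.IsEmbedding e) (y₀ : Y)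
    (n : ℕ) (σ : C(Simp n, X)) : C(Simp n, Y) :=
  if h : Set.range σ ⊆ Set.range e then
    ⟨fun t => (h ⟨t, rfl⟩).choose, by
      rw [he.continuous_iff]
      have : (e ∘ fun t => (h (⟨t, rfl⟩ : σ t ∈ Set.range σ)).choose) = σ := by
        funext t
        exact (h (⟨t, rfl⟩ : σ t ∈ Set.range σ)).choose_spec
      rw [this]
      exact σ.continuous⟩
  else ContinuousMap.const _ y₀

theorem liftE_spec {Y : Type} [TopologicalSpace Y] {e : Y → X} (he : Topology.IsEmbedding e)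
    (y₀ : Y) {n : ℕ} {σ : C(Simp n, X)} (h : Set.range σ ⊆ Set.range e) (t : Simp n) :
    e (liftE he y₀ n σ t) = σ t := by
  rw [liftE, dif_pos h]
  exact (h (⟨t, rfl⟩ : σ t ∈ Set.range σ)).choose_spec

/-- A subspace is a model of the simplices inside it. -/
def modelE {Y : Type} [TopologicalSpace Y] {e : Y → X} (he : Topology.IsEmbedding e)
    (y₀ : Y) (h₀ : e y₀ = x₀) {P : (singP X x₀).Sub}
    (hP : ∀ n (σ : C(Simp n, X)), P.P n σ ↔ Set.range σ ⊆ Set.range e) :
    Model P (bot (singP X x₀)) (singP Y y₀) where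
  m n σ := liftE he y₀ n σ
  surj n (τ : C(Simp n, Y)) := by
    have hr : Set.range ((⟨e, he.continuous⟩ : C(Y, X)).comp τ) ⊆ Set.range e := by
      rintro _ ⟨t, rfl⟩
      exact ⟨τ t, rfl⟩
    refine ⟨(⟨e, he.continuous⟩ : C(Y, X)).comp τ, (hP n _).mpr hr, ?_⟩
    refine ContinuousMap.ext fun t => he.injective ?_
    rw [liftE_spec he y₀ hr]
    rfl
  pt_iff n (σ : C(Simp n, X)) hσ := by
    have hr := (hP n σ).mp hσ
    constructor
    · intro h
      change σ = ContinuousMap.const _ x₀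
      refine ContinuousMap.ext fun t => ?_
      rw [← liftE_spec he y₀ hr, h, ContinuousMap.const_apply, ← h₀]
      rfl
    · intro h
      have h' : σ = ContinuousMap.const _ x₀ := h
      change liftE he y₀ n σ = ContinuousMap.const _ y₀
      refine ContinuousMap.ext fun t => he.injective ?_
      rw [liftE_spec he y₀ hr, h', ContinuousMap.const_apply, ContinuousMap.const_apply, h₀]
  inj n (σ : C(Simp n, X)) (σ' : C(Simp n, X)) hσ hσ' h _ := by
    refine ContinuousMap.ext fun t => ?_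
    rw [← liftE_spec he y₀ ((hP n σ).mp hσ), ← liftE_spec he y₀ ((hP n σ').mp hσ'), h]
  map_d n i (σ : C(Simp (n + 1), X)) hi hσ := by
    have h1 := (hP n _).mp (P.d_mem n i σ hi hσ)
    refine ContinuousMap.ext fun t => he.injective ?_
    rw [liftE_spec he y₀ h1]
    change σ (smap (fv n i) t) = e ((liftE he y₀ (n + 1) σ) (smap (fv n i) t))
    rw [liftE_spec he y₀ ((hP _ _).mp hσ)]
  map_s n i (σ : C(Simp n, X)) hi hσ := by
    have h1 := (hP _ _).mp (P.s_mem n i σ hi hσ)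
    refine ContinuousMap.ext fun t => he.injective ?_
    rw [liftE_spec he y₀ h1]
    change σ (smap (dv n i) t) = e ((liftE he y₀ n σ) (smap (dv n i) t))
    rw [liftE_spec he y₀ ((hP _ _).mp hσ)]

end Top

end

end Pool.Agent.Lib.MP_904b2a_gt.H1
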